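import Pool.Agent.H91ES.Main4E

set_option autoImplicit false
set_option linter.unusedSectionVars false

/-!
The form in which the size of an integer point is compared with the height of its own curve only,
for a squarefree leading form.
-/

open Polynomial Finset IntermediateField

namespace Pool.Agent.H91ES

open Pool.Agent.H322R2 Pool.Agent.H674R3

theorem main5e (F : MvPolynomial (Fin 2) ℤ) (e : ℕ) (hd : 4 ≤ F.totalDegree)
    (hed : e + 4 ≤ F.totalDegree)
    (hirr : Irreducible (MvPolynomial.map (Int.castRingHom ℚ)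
      (MvPolynomial.homogeneousComponent F.totalDegree F)))
    (hlines : ∀ p q : Fin 2 → ℝ, q ≠ 0 → e + 2 ≤
      (MvPolynomial.aeval (fun i => (C (p i) + C (q i) * X : ℝ[X])) F).natDegree) :
    Set.encard {t : MvPolynomial (Fin 2) ℤ × ℤ × ℤ | (t.1 - F).totalDegree ≤ e ∧
      MvPolynomial.eval ![t.2.1, t.2.2] t.1 = 0 ∧
      ((F.totalDegree + 1) * len t.1) ^ (kG F.totalDegree) < max t.2.1.natAbs t.2.2.natAbs}
      ≤ (kN F.totalDegree * F.totalDegree : ℕ) := by
  classical
  obtain ⟨F', hF'⟩ : ∃ F', F' = topP (e + 4) F := ⟨_, rfl⟩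
  have hlow' : (F' - F).totalDegree ≤ e := by
    have h1 := totalDegree_sub_topP (d := e + 4) (by omega) F
    rw [← hF', ← neg_sub, MvPolynomial.totalDegree_neg] at h1
    omega
  have hlow : (F' - F).totalDegree + 4 ≤ F.totalDegree := by omega
  have hFF : F' = F + (F' - F) := by ring
  have hdeg : F'.totalDegree = F.totalDegree := by
    rw [hFF]; exact totalDegree_pert hd hlow
  have hcomp : MvPolynomial.homogeneousComponent F'.totalDegree F'
      = MvPolynomial.homogeneousComponent F.totalDegree F := by
    have h1 := comp_pert hd hlow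
    rw [← hFF] at h1
    exact h1
  have hlines' : ∀ p q : Fin 2 → ℝ, q ≠ 0 → e + 2 ≤
      (MvPolynomial.aeval (fun i => (C (p i) + C (q i) * X : ℝ[X])) F').natDegree := by
    intro p q hq
    have h1 := hlines p q hq
    have h2 : (MvPolynomial.aeval (fun i => (C (p i) + C (q i) * X : ℝ[X])) (F' - F)).natDegree
        ≤ e := natDegree_line_le hlow' p q
    have h3 : MvPolynomial.aeval (fun i => (C (p i) + C (q i) * X : ℝ[X])) F
        = MvPolynomial.aeval (fun i => (C (p i) + C (q i) * X : ℝ[X])) F'
          - MvPolynomial.aeval (fun i => (C (p i) + C (q i) * X : ℝ[X])) (F' - F) := by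
      rw [map_sub]; ring
    have h4 := natDegree_sub_le
      (MvPolynomial.aeval (fun i => (C (p i) + C (q i) * X : ℝ[X])) F')
      (MvPolynomial.aeval (fun i => (C (p i) + C (q i) * X : ℝ[X])) (F' - F))
    rw [← h3] at h4
    omega
  have hmain := main4e F' e (by rw [hdeg]; exact hd) (by rw [hdeg]; exact hed)
    (by rw [hcomp]; exact hirr) hlines'
  rw [hdeg] at hmain
  refine le_trans ?_ hmain
  apply Set.encard_le_encard_of_injOn
    (f := fun t : MvPolynomial (Fin 2) ℤ × ℤ × ℤ => (t.1 - F', t.2))
  · rintro ⟨G, x, y⟩ ⟨h1, h2, h3⟩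
    simp only at h1 h2 h3
    have htop : topP (e + 4) G = F' := by
      rw [hF']; exact topP_congr (by omega)
    refine ⟨?_, ?_, ?_⟩
    · simp only
      have := totalDegree_sub_topP (d := e + 4) (by omega) G
      rw [htop] at this
      omega
    · simp only
      rw [add_sub_cancel]; exact h2
    · simp only
      refine lt_of_le_of_lt ?_ h3
      apply Nat.pow_le_pow_left
      apply Nat.mul_le_mul_left
      apply max_le
      · rw [← htop]; exact len_topP_le _ G
      · rw [← htop]; exact len_sub_topP_le _ G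
  · rintro ⟨G, x, y⟩ - ⟨G', x', y'⟩ - h
    simp only [Prod.mk.injEq] at h ⊢
    exact ⟨sub_left_injective h.1, h.2⟩

/-- no exceptions when the leading form is squarefree and reducible -/
theorem no_exc_red (G : MvPolynomial (Fin 2) ℤ) (hd : 4 ≤ G.totalDegree)
    (hsq : Squarefree (MvPolynomial.map (Int.castRingHom ℚ)
      (MvPolynomial.homogeneousComponent G.totalDegree G)))
    (hred : ¬ Irreducible (MvPolynomial.map (Int.castRingHom ℚ)
      (MvPolynomial.homogeneousComponent G.totalDegree G)))
    (hirr : Irreducible (MvPolynomial.map (Int.castRingHom ℚ) G)) {x y : ℤ}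
    (h3 : MvPolynomial.eval ![x, y] G = 0) :
    max x.natAbs y.natAbs ≤ ((G.totalDegree + 1) * len G) ^ (kG G.totalDegree) := by
  obtain ⟨c, -, hc⟩ := main1
  have hG0 : G ≠ 0 := by
    rintro rfl
    simp at hd
  have hlen := len_pos hG0
  rcases hc G hirr (by omega) hsq x y h3 with h | ⟨s, hs1, hs2, -, -⟩
  · have h5 : max x.natAbs y.natAbs ≤ ((G.totalDegree + 1) * len G) ^ (kE G.totalDegree) :=
      max_le h.1 h.2
    exact h5.trans (Nat.pow_le_pow_right (Nat.mul_pos (by omega) hlen) (kE_le_kG _))
  · exfalso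
    apply hred
    have hhom : (MvPolynomial.map (Int.castRingHom ℚ)
        (MvPolynomial.homogeneousComponent G.totalDegree G)).IsHomogeneous G.totalDegree :=
      (MvPolynomial.homogeneousComponent_isHomogeneous G.totalDegree G).map _
    apply irr_of_slope (by omega) hhom hsq.ne_zero s _ hs2
    rw [← hs1]
    have hring : Int.castRingHom ℚ = algebraMap ℤ ℚ := rfl
    rw [hring, MvPolynomial.aeval_map_algebraMap]

theorem main6e (F : MvPolynomial (Fin 2) ℤ) (e : ℕ) (hd : 4 ≤ F.totalDegree)
    (hed : e + 4 ≤ F.totalDegree)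
    (hsq : Squarefree (MvPolynomial.map (Int.castRingHom ℚ)
      (MvPolynomial.homogeneousComponent F.totalDegree F)))
    (hlines : Irreducible (MvPolynomial.map (Int.castRingHom ℚ)
      (MvPolynomial.homogeneousComponent F.totalDegree F)) →
      ∀ p q : Fin 2 → ℝ, q ≠ 0 → e + 2 ≤
      (MvPolynomial.aeval (fun i => (C (p i) + C (q i) * X : ℝ[X])) F).natDegree) :
    Set.encard {t : MvPolynomial (Fin 2) ℤ × ℤ × ℤ | (t.1 - F).totalDegree ≤ e ∧
      Irreducible (MvPolynomial.map (Int.castRingHom ℚ) t.1) ∧
      MvPolynomial.eval ![t.2.1, t.2.2] t.1 = 0 ∧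
      ((F.totalDegree + 1) * len t.1) ^ (kG F.totalDegree) < max t.2.1.natAbs t.2.2.natAbs}
      ≤ (kN F.totalDegree * F.totalDegree : ℕ) := by
  by_cases hirr : Irreducible (MvPolynomial.map (Int.castRingHom ℚ)
      (MvPolynomial.homogeneousComponent F.totalDegree F))
  · refine le_trans (Set.encard_le_encard ?_) (main5e F e hd hed hirr (hlines hirr))
    rintro t ⟨h1, -, h2, h3⟩
    exact ⟨h1, h2, h3⟩
  · have hempty : {t : MvPolynomial (Fin 2) ℤ × ℤ × ℤ |
      (t.1 - F).totalDegree ≤ e ∧
      Irreducible (MvPolynomial.map (Int.castRingHom ℚ) t.1) ∧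
      MvPolynomial.eval ![t.2.1, t.2.2] t.1 = 0 ∧
      ((F.totalDegree + 1) * len t.1) ^ (kG F.totalDegree) < max t.2.1.natAbs t.2.2.natAbs}
        = ∅ := by
      rw [Set.eq_empty_iff_forall_notMem]
      rintro ⟨G, x, y⟩ ⟨h1, h2, h3, h4⟩
      simp only at h1 h2 h3 h4
      have h1' : (G - F).totalDegree + 4 ≤ F.totalDegree := by omega
      have hGF : F + (G - F) = G := by ring
      have hdeg : G.totalDegree = F.totalDegree := by
        rw [← hGF]; exact totalDegree_pert hd h1'
      have hcomp : MvPolynomial.homogeneousComponent G.totalDegree G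
          = MvPolynomial.homogeneousComponent F.totalDegree F := by
        have := comp_pert hd h1'
        rwa [hGF] at this
      have := no_exc_red G (by omega) (by rw [hcomp]; exact hsq) (by rw [hcomp]; exact hirr) h2 h3
      rw [hdeg] at this
      omega
    rw [hempty, Set.encard_empty]
    exact bot_le

end Pool.Agent.H91ES
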