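import Pool.Agent.R414.DN.Exf
import Pool.Agent.H91ES.Main5E

set_option autoImplicit false
set_option linter.unusedSectionVars false

/-!
Counting the exceptional curves with simple points at infinity.
-/

open Finset Polynomial

namespace Pool.Agent.H91ES

open Pool.Agent.R414.DN

variable {d H : ℕ}

/-- the degree of the curve on every real line is at least `m` -/
def LinesM {d : ℕ} (m : ℕ) (a : Cf d) : Prop := ∀ p q : Fin 2 → ℝ, q ≠ 0 →
  m ≤ (MvPolynomial.aeval (fun i => (C (p i) + C (q i) * X : ℝ[X])) (poly a)).natDegree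

lemma LinesM.anti {a : Cf d} {m m' : ℕ} (h : LinesM m a) (hm : m' ≤ m) : LinesM m' a :=
  fun p q hq => hm.trans (h p q hq)

lemma coeff_line (c : ℕ → ℕ → ℤ) (t u : ℝ) (n : ℕ) :
    (FR c d (C t * X + C u) (X : ℝ[X])).coeff n =
      ∑ k ∈ range (d + 1), if n ≤ k then TT c k (k - n) t * u ^ (k - n) else 0 := by
  unfold FR
  rw [finsetSum_coeff]
  exact sum_congr rfl fun k _ => coef_row c k n t u

lemma lines_failM {a : Cf d} (hd : 3 ≤ d) (h : Lead a) {m : ℕ} (hm : m ≤ d)
    (hl : ¬ LinesM m a) :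
    ∃ t u : ℝ, ∀ n, m ≤ n → (FR (co a) d (C t * X + C u) (X : ℝ[X])).coeff n = 0 := by
  unfold LinesM at hl
  push Not at hl
  obtain ⟨p, q, hq, hlt⟩ := hl
  have h1 : MvPolynomial.aeval (fun i => (C (p i) + C (q i) * X : ℝ[X])) (poly a) =
      FR (co a) d (C (p 0) + C (q 0) * X) (C (p 1) + C (q 1) * X : ℝ[X]) := by
    rw [aeval_poly]
    rfl
  rw [h1] at hlt
  by_cases hq1 : q 1 = 0
  · -- the line is parallel to the first axis
    exfalso
    have hq0 : q 0 ≠ 0 := by
      intro h4
      apply hq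
      funext i
      fin_cases i
      · exact h4
      · exact hq1
    rw [← FR_swV] at hlt
    have h2 : FR (co (swV a)) d (C (p 1) + C (q 1) * X) (C (p 0) + C (q 0) * X : ℝ[X]) =
        (FR (co (swV a)) d (C 0 * X + C (p 1)) (X : ℝ[X])).comp (C (p 0) + C (q 0) * X) := by
      rw [FR_comp]
      congr 1
      · rw [hq1]
        simp
      · rw [X_comp]
    rw [h2, natDegree_comp, natDegree_lin hq0, mul_one] at hlt
    have h3 := (line_coeffs (c := co (swV a)) (by omega : 2 ≤ d) 0 (p 1)).1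
    rw [coeff_eq_zero_of_natDegree_lt (by omega), TT_zero,
      sum_eq_single_of_mem 0 (mem_range.2 (Nat.succ_pos d))] at h3
    · rw [pow_zero, mul_one, co_swV a (by rw [mem_I]; omega), Nat.sub_zero] at h3
      exact h.1 (by exact_mod_cast h3.symm)
    · intro j _ hj
      rw [zero_pow hj, mul_zero]
  · have h2 : FR (co a) d (C (p 0) + C (q 0) * X) (C (p 1) + C (q 1) * X : ℝ[X]) =
        (FR (co a) d (C (q 0 / q 1) * X + C (p 0 - q 0 / q 1 * p 1)) (X : ℝ[X])).comp
          (C (p 1) + C (q 1) * X) := by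
      rw [FR_comp]
      congr 1
      · simp only [add_comp, mul_comp, C_comp, X_comp]
        have h3 : C (q 0 / q 1) * C (q 1) = (C (q 0) : ℝ[X]) := by
          rw [← C_mul]
          congr 1
          field_simp
        rw [C_sub, C_mul, mul_add, ← mul_assoc, h3]
        ring
      · rw [X_comp]
    rw [h2, natDegree_comp, natDegree_lin hq1, mul_one] at hlt
    exact ⟨_, _, fun n hn => coeff_eq_zero_of_natDegree_lt (lt_of_lt_of_le hlt hn)⟩

lemma TT_congr {c c' : ℕ → ℕ → ℤ} {k : ℕ} (h : ∀ i, c k i = c' k i) (j : ℕ) (t : ℝ) :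
    TT c k j t = TT c' k j t := by
  unfold TT
  refine sum_congr rfl fun i _ => ?_
  rw [h i]

/-- the rows of degree at least `m` are determined by the two highest rows and the slope of a line
on which the curve has degree less than `m` -/
lemma rows_eq {a a' : Cf d} (hd : 2 ≤ d) (h : Lead a) {t u u' : ℝ} {m : ℕ} (hm : m + 1 ≤ d)
    (hz : ∀ n, m ≤ n → (FR (co a) d (C t * X + C u) (X : ℝ[X])).coeff n = 0)
    (hz' : ∀ n, m ≤ n → (FR (co a') d (C t * X + C u') (X : ℝ[X])).coeff n = 0)
    (h1 : ∀ i, co a d i = co a' d i) (h2 : ∀ i, co a (d - 1) i = co a' (d - 1) i) :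
    ∀ n, m ≤ n → ∀ i, co a n i = co a' n i := by
  obtain ⟨e1, e2, -⟩ := line_coeffs (c := co a) hd t u
  obtain ⟨-, e2', -⟩ := line_coeffs (c := co a') hd t u'
  rw [hz _ (by omega)] at e1 e2
  rw [hz' _ (by omega)] at e2'
  have ht : TT (co a) d 0 t = 0 := e1.symm
  have hne := TT1_ne (by omega) h ht
  have hu : u = u' := by
    apply mul_left_cancel₀ hne
    rw [← TT_congr h2, ← TT_congr h1] at e2'
    linarith
  have key : ∀ j n, n + j = d → m ≤ n → ∀ i, co a n i = co a' n i := by
    intro j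
    induction j using Nat.strong_induction_on with
    | _ j ih =>
      intro n hnj hmn i
      by_cases hj0 : j = 0
      · have : n = d := by omega
        rw [this]; exact h1 i
      by_cases hj1 : j = 1
      · have : n = d - 1 := by omega
        rw [this]; exact h2 i
      have hrow : ∀ k, n < k → ∀ i, co a k i = co a' k i := by
        intro k hk i
        by_cases hkd : k ≤ d
        · exact ih (d - k) (by omega) k (by omega) (by omega) i
        · unfold co
          rw [dif_neg (by rw [mem_I]; simp only; omega), dif_neg (by rw [mem_I]; simp only; omega)]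
      have f := hz n hmn
      have f' := hz' n hmn
      rw [coeff_line] at f f'
      have hdiff : TT (co a) n 0 t - TT (co a') n 0 t = 0 := by
        have h3 : (∑ k ∈ range (d + 1), if n ≤ k then TT (co a) k (k - n) t * u ^ (k - n) else 0) -
            (∑ k ∈ range (d + 1), if n ≤ k then TT (co a') k (k - n) t * u' ^ (k - n) else 0) =
            TT (co a) n 0 t - TT (co a') n 0 t := by
          rw [← sum_sub_distrib, sum_eq_single_of_mem n (mem_range.2 (by omega))]
          · rw [if_pos le_rfl, if_pos le_rfl, Nat.sub_self, pow_zero, pow_zero, mul_one, mul_one]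
          · intro k _ hkn
            by_cases hk : n ≤ k
            · rw [if_pos hk, if_pos hk, TT_congr (hrow k (by omega)), hu, sub_self]
            · rw [if_neg hk, if_neg hk, sub_zero]
        rw [← h3, f, f', sub_zero]
      have h5 : ∑ j ∈ range (n + 1),
          (((fun j => co a n j - co a' n j) j : ℤ) : ℝ) * t ^ j = 0 := by
        rw [TT_zero, TT_zero, ← sum_sub_distrib] at hdiff
        rw [← hdiff]
        refine sum_congr rfl fun j _ => ?_
        push_cast
        ring
      have h6 := full_degree h ht (by omega : n < d) _ h5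
      by_cases hi : i ≤ n
      · have h7 : co a n i - co a' n i = 0 := h6 i hi
        linarith
      · unfold co
        rw [dif_neg (by rw [mem_I]; simp only; omega), dif_neg (by rw [mem_I]; simp only; omega)]
  intro n hmn i
  by_cases hnd : n ≤ d
  · exact key (d - n) n (by omega) hmn i
  · unfold co
    rw [dif_neg (by rw [mem_I]; simp only; omega), dif_neg (by rw [mem_I]; simp only; omega)]

lemma totalDegree_sub_le {e : ℕ} {a b : Cf d} (h : ∀ n, e < n → ∀ i, co a n i = co b n i) :
    (poly a - poly b).totalDegree ≤ e := by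
  unfold MvPolynomial.totalDegree
  apply Finset.sup_le
  intro m hm
  rw [MvPolynomial.mem_support_iff, MvPolynomial.coeff_sub, coeff_poly, coeff_poly] at hm
  have h1 : m.sum (fun _ e => e) = m 0 + m 1 := by
    rw [Finsupp.sum_fintype _ _ (by intro i; rfl), Fin.sum_univ_two]
  rw [h1]
  by_contra hcon
  apply hm
  rw [h _ (by omega), sub_self]

lemma card_row (k : ℕ) : ((univ : Finset ↥(I d)).filter fun p => p.1.1 = k).card ≤ k + 1 := by
  rw [← card_range (k + 1)]
  apply card_le_card_of_injOn (fun p => p.1.2)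
  · intro p hp
    rw [mem_coe, mem_filter] at hp
    rw [mem_coe, mem_range]
    have := mem_I.1 p.2
    simp only
    omega
  · intro p hp q hq hpq
    rw [mem_coe, mem_filter] at hp hq
    apply Subtype.ext
    apply Prod.ext
    · rw [hp.2, hq.2]
    · exact hpq

/-- number of free coordinates -/
lemma card_free (J : Finset ↥(I d)) (k1 k2 k3 k4 : ℕ)
    (h : ∀ p : ↥(I d), p ∉ J → p.1.1 = k1 ∨ p.1.1 = k2 ∨ p.1.1 = k3 ∨ p.1.1 = k4) :
    Fintype.card ↥(I d) - J.card ≤ (k1 + 1) + ((k2 + 1) + ((k3 + 1) + (k4 + 1))) := by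
  classical
  rw [← card_compl]
  refine (card_le_card (t := (univ.filter fun p => p.1.1 = k1) ∪ ((univ.filter fun p => p.1.1 = k2) ∪
    ((univ.filter fun p => p.1.1 = k3) ∪ (univ.filter fun p => p.1.1 = k4)))) ?_).trans ?_
  · intro p hp
    rw [mem_compl] at hp
    simp only [mem_union, mem_filter, mem_univ, true_and]
    exact h p hp
  · refine (card_union_le _ _).trans (add_le_add (card_row _) ?_)
    refine (card_union_le _ _).trans (add_le_add (card_row _) ?_)
    exact (card_union_le _ _).trans (add_le_add (card_row _) (card_row _))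

lemma co_eq_of {J : Finset ↥(I d)} {a a' b : Cf d} (ha : ∀ p ∉ J, a p = b p)
    (ha' : ∀ p ∉ J, a' p = b p) {n : ℕ} (hn : ∀ p : ↥(I d), p.1.1 = n → p ∉ J) (i : ℕ) :
    co a n i = co a' n i := by
  by_cases hmem : (n, i) ∈ I d
  · have := hn ⟨(n, i), hmem⟩ rfl
    rw [co_of_mem a hmem, co_of_mem a' hmem, ha _ this, ha' _ this]
  · unfold co
    rw [dif_neg hmem, dif_neg hmem]

/-- the exceptional condition -/
def Ex (d : ℕ) (a : Cf d) : Prop :=
  Irreducible (MvPolynomial.map (Int.castRingHom ℚ) (poly a)) ∧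
    ∃ x y : ℤ, Fv (co a) d x y = 0 ∧
      ((d + 1) * Pool.Agent.H322R2.len (poly a)) ^ (Pool.Agent.H674R3.kG d) <
        max x.natAbs y.natAbs

/-- minimal degree on lines equal to `e + 2` -/
theorem card_cls (hd : 4 ≤ d) {e : ℕ} (he : e + 5 ≤ d) (S : Finset (Cf d))
    (hS : S ⊆ ibox ↥(I d) H)
    (h : ∀ a ∈ S, Lead a ∧ LinesM (e + 2) a ∧ ¬ LinesM (e + 3) a ∧ Ex d a) :
    S.card ≤ (Pool.Agent.H322R2.kN d * d * d) * (2 * H + 1) ^ (4 * d - 2) := by
  classical
  obtain ⟨J, hJ⟩ : ∃ J : Finset ↥(I d), J = univ.filter fun p =>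
      ¬ (p.1.1 = e + 1 ∨ p.1.1 = e + 2 ∨ p.1.1 = d - 1 ∨ p.1.1 = d) := ⟨_, rfl⟩
  have hmemJ : ∀ p, p ∉ J ↔ (p.1.1 = e + 1 ∨ p.1.1 = e + 2 ∨ p.1.1 = d - 1 ∨ p.1.1 = d) := by
    intro p
    rw [hJ, mem_filter]
    simp only [mem_univ, true_and, not_not]
  have hfree := card_free J (e + 1) (e + 2) (d - 1) d (fun p hp => (hmemJ p).1 hp)
  have key := card_fiber (H := H) (S := S) hS J (Pool.Agent.H322R2.kN d * d * d) ?_
  · refine key.trans (Nat.mul_le_mul_left _ (Nat.pow_le_pow_right (by omega) ?_))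
    omega
  intro b T hT hTb
  rcases T.eq_empty_or_nonempty with h0 | ⟨a₀, h0⟩
  · rw [h0, card_empty]
    exact Nat.zero_le _
  have hex : ∀ a ∈ T, ∃ t u : ℝ, ∀ n, e + 3 ≤ n →
      (FR (co a) d (C t * X + C u) (X : ℝ[X])).coeff n = 0 :=
    fun a ha => lines_failM (by omega) (h a (hT ha)).1 (by omega) (h a (hT ha)).2.2.1
  choose! t u htu using hex
  have hroot : ∀ a ∈ T, TT (co a) d 0 (t a) = 0 := by
    intro a ha
    rw [← (line_coeffs (c := co a) (by omega : 2 ≤ d) (t a) (u a)).1]
    exact htu a ha d (by omega)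
  have hrowd : ∀ a ∈ T, ∀ a' ∈ T, ∀ i, co a d i = co a' d i := fun a ha a' ha' i =>
    co_eq_of (hTb a ha) (hTb a' ha') (fun p hp => (hmemJ p).2 (Or.inr (Or.inr (Or.inr hp)))) i
  have hrowd1 : ∀ a ∈ T, ∀ a' ∈ T, ∀ i, co a (d - 1) i = co a' (d - 1) i := fun a ha a' ha' i =>
    co_eq_of (hTb a ha) (hTb a' ha') (fun p hp => (hmemJ p).2 (Or.inr (Or.inr (Or.inl hp)))) i
  have hrowe1 : ∀ a ∈ T, ∀ a' ∈ T, ∀ i, co a (e + 1) i = co a' (e + 1) i := fun a ha a' ha' i =>
    co_eq_of (hTb a ha) (hTb a' ha') (fun p hp => (hmemJ p).2 (Or.inl hp)) i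
  have hrowe2 : ∀ a ∈ T, ∀ a' ∈ T, ∀ i, co a (e + 2) i = co a' (e + 2) i := fun a ha a' ha' i =>
    co_eq_of (hTb a ha) (hTb a' ha') (fun p hp => (hmemJ p).2 (Or.inr (Or.inl hp))) i
  have hmaps : ∀ a ∈ T, t a ∈ rts (co a₀) d := by
    intro a ha
    apply mem_rts (noRoot_of_lead (by omega) (h a₀ (hT h0)).1)
    rw [TT_congr (hrowd a₀ h0 a ha)]
    exact hroot a ha
  have hcard := card_le_mul_card_image_of_maps_to (s := T) (t := rts (co a₀) d) (f := t) hmaps
    (Pool.Agent.H322R2.kN d * d) (by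
      intro s _
      obtain ⟨T', hT'⟩ : ∃ T', T' = T.filter (fun a => t a = s) := ⟨_, rfl⟩
      rw [← hT']
      have hT'T : ∀ a ∈ T', a ∈ T ∧ t a = s := fun a ha => by
        rw [hT', mem_filter] at ha; exact ha
      rcases T'.eq_empty_or_nonempty with hh0 | ⟨a₁, hh1⟩
      · rw [hh0, card_empty]
        exact Nat.zero_le _
      obtain ⟨ha1, hs1⟩ := hT'T a₁ hh1
      obtain ⟨hL, hlM, -, -⟩ := h a₁ (hT ha1)
      have hdeg : (poly a₁).totalDegree = d := totalDegree_poly hL.1
      have hex2 : ∀ a ∈ T', ∃ x y : ℤ, Fv (co a) d x y = 0 ∧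
          ((d + 1) * Pool.Agent.H322R2.len (poly a)) ^ (Pool.Agent.H674R3.kG d) <
            max x.natAbs y.natAbs :=
        fun a ha => (h a (hT (hT'T a ha).1)).2.2.2.2
      choose! x y hxy using hex2
      have hmain := main6e (poly a₁) e (by rw [hdeg]; exact hd) (by rw [hdeg]; omega)
        (by
          rw [hdeg]
          exact (irr_poly (by omega) hL).squarefree)
        (by
          rw [hdeg]
          intro _
          exact hlM)
      rw [hdeg] at hmain
      have hinj : (T'.image fun a => (poly a, x a, y a)).card = T'.card := by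
        apply card_image_of_injective
        intro a a' h
        exact poly_inj (Prod.mk.inj h).1
      have hsub : ((T'.image fun a => (poly a, x a, y a) :
          Finset (MvPolynomial (Fin 2) ℤ × ℤ × ℤ)) : Set (MvPolynomial (Fin 2) ℤ × ℤ × ℤ)) ⊆
          {t : MvPolynomial (Fin 2) ℤ × ℤ × ℤ | (t.1 - poly a₁).totalDegree ≤ e ∧
          Irreducible (MvPolynomial.map (Int.castRingHom ℚ) t.1) ∧
          MvPolynomial.eval ![t.2.1, t.2.2] t.1 = 0 ∧
          ((d + 1) * Pool.Agent.H322R2.len t.1) ^ (Pool.Agent.H674R3.kG d) <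
            max t.2.1.natAbs t.2.2.natAbs} := by
        intro r hr
        rw [mem_coe, mem_image] at hr
        obtain ⟨a, ha, rfl⟩ := hr
        obtain ⟨haT, has⟩ := hT'T a ha
        have h3 := hxy a ha
        refine ⟨?_, (h a (hT haT)).2.2.2.1, ?_, h3.2⟩
        · apply totalDegree_sub_le
          intro n hn i
          by_cases hn3 : e + 3 ≤ n
          · have hz := htu a haT
            have hz1 := htu a₁ ha1
            rw [has] at hz
            rw [hs1] at hz1
            exact rows_eq (by omega) (h a (hT haT)).1 (m := e + 3) (by omega) hz hz1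
              (hrowd a haT a₁ ha1) (hrowd1 a haT a₁ ha1) n hn3 i
          · have h12 : n = e + 1 ∨ n = e + 2 := by omega
            rcases h12 with rfl | rfl
            · exact hrowe1 a haT a₁ ha1 i
            · exact hrowe2 a haT a₁ ha1 i
        · simp only
          rw [eval_poly]
          exact h3.1
      have h4 := (Set.encard_le_encard hsub).trans hmain
      rw [Set.encard_coe_eq_coe_finsetCard, hinj] at h4
      exact_mod_cast h4)
  exact hcard.trans (Nat.mul_le_mul_left _ (card_rts _ _))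

/-- degree at most one on some line -/
theorem card_cls1 (hd : 4 ≤ d) (S : Finset (Cf d)) (hS : S ⊆ ibox ↥(I d) H)
    (h : ∀ a ∈ S, Lead a ∧ ¬ LinesM 2 a) :
    S.card ≤ d * (2 * H + 1) ^ (4 * d - 2) := by
  classical
  obtain ⟨J, hJ⟩ : ∃ J : Finset ↥(I d), J = univ.filter fun p =>
      ¬ (p.1.1 = 0 ∨ p.1.1 = 1 ∨ p.1.1 = d - 1 ∨ p.1.1 = d) := ⟨_, rfl⟩
  have hmemJ : ∀ p, p ∉ J ↔ (p.1.1 = 0 ∨ p.1.1 = 1 ∨ p.1.1 = d - 1 ∨ p.1.1 = d) := by
    intro p
    rw [hJ, mem_filter]
    simp only [mem_univ, true_and, not_not]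
  have hfree := card_free J 0 1 (d - 1) d (fun p hp => (hmemJ p).1 hp)
  have key := card_fiber (H := H) (S := S) hS J d ?_
  · refine key.trans (Nat.mul_le_mul_left _ (Nat.pow_le_pow_right (by omega) ?_))
    omega
  intro b T hT hTb
  rcases T.eq_empty_or_nonempty with h0 | ⟨a₀, h0⟩
  · rw [h0, card_empty]
    exact Nat.zero_le _
  have hex : ∀ a ∈ T, ∃ t u : ℝ, ∀ n, 2 ≤ n →
      (FR (co a) d (C t * X + C u) (X : ℝ[X])).coeff n = 0 :=
    fun a ha => lines_failM (by omega) (h a (hT ha)).1 (by omega) (h a (hT ha)).2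
  choose! t u htu using hex
  have hroot : ∀ a ∈ T, TT (co a) d 0 (t a) = 0 := by
    intro a ha
    rw [← (line_coeffs (c := co a) (by omega : 2 ≤ d) (t a) (u a)).1]
    exact htu a ha d (by omega)
  have hrow : ∀ k, (k = 0 ∨ k = 1 ∨ k = d - 1 ∨ k = d) → ∀ a ∈ T, ∀ a' ∈ T, ∀ i,
      co a k i = co a' k i := fun k hk a ha a' ha' i =>
    co_eq_of (hTb a ha) (hTb a' ha') (fun p hp => (hmemJ p).2 (by rw [hp]; exact hk)) i
  have hle : T.card ≤ (rts (co a₀) d).card := by
    apply card_le_card_of_injOn t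
    · intro a ha
      rw [mem_coe] at ha ⊢
      apply mem_rts (noRoot_of_lead (by omega) (h a₀ (hT h0)).1)
      rw [TT_congr (hrow d (by omega) a₀ h0 a ha)]
      exact hroot a ha
    · intro a ha a' ha' haa
      rw [mem_coe] at ha ha'
      have hz := htu a ha
      have hz' := htu a' ha'
      rw [← haa] at hz'
      have hrows := rows_eq (by omega) (h a (hT ha)).1 (m := 2) (by omega) hz hz'
        (hrow d (by omega) a ha a' ha') (hrow (d - 1) (by omega) a ha a' ha')
      funext p
      have h7 : co a p.1.1 p.1.2 = co a' p.1.1 p.1.2 := by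
        by_cases hp : 2 ≤ p.1.1
        · exact hrows _ hp _
        · exact hrow _ (by omega) a ha a' ha' _
      rw [co_of_mem a p.2, co_of_mem a' p.2] at h7
      exact h7
  exact hle.trans (card_rts _ _)

/-- the exceptional curves with simple points at infinity -/
theorem card_simple (hd : 4 ≤ d) (S : Finset (Cf d)) (hS : S ⊆ ibox ↥(I d) H)
    (h : ∀ a ∈ S, LF a ≠ 0 ∧ Squarefree (LF a) ∧ Ex d a) :
    S.card ≤ (10 ^ 9 * 36 ^ d * (d + 1) ^ 10) * (2 * H + 1) ^ (4 * d - 2) := by
  classical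
  have hsub : S ⊆ (S.filter fun a => Irreducible (LF a) → LinesC a) ∪
      ((S.filter fun a => Lead a ∧ ¬ LinesM 2 a) ∪ ((range (d - 4)).biUnion fun e =>
        S.filter fun a => Lead a ∧ LinesM (e + 2) a ∧ ¬ LinesM (e + 3) a)) := by
    intro a ha
    simp only [mem_union, mem_filter, mem_biUnion, mem_range]
    by_cases h1 : Irreducible (LF a) → LinesC a
    · exact Or.inl ⟨ha, h1⟩
    right
    push Not at h1
    obtain ⟨hirr, hnl⟩ := h1
    have hL := lead_of_irr (by omega) hirr
    have hnl' : ¬ LinesM (d - 2) a := by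
      intro h2
      apply hnl
      intro p q hq
      have := h2 p q hq
      omega
    have hexm : ∃ m, ¬ LinesM m a := ⟨_, hnl'⟩
    obtain ⟨m, hm⟩ : ∃ m, m = Nat.find hexm := ⟨_, rfl⟩
    have hm1 : ¬ LinesM m a := by rw [hm]; exact Nat.find_spec hexm
    have hm2 : m ≤ d - 2 := by rw [hm]; exact Nat.find_min' hexm hnl'
    have hm3 : ∀ k, k < m → LinesM k a := by
      intro k hk
      rw [hm] at hk
      have := Nat.find_min hexm hk
      rwa [not_not] at this
    by_cases h2 : m ≤ 2
    · exact Or.inl ⟨ha, hL, fun h3 => hm1 (h3.anti h2)⟩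
    · right
      refine ⟨m - 3, by omega, ha, hL, hm3 _ (by omega), ?_⟩
      have : m - 3 + 3 = m := by omega
      rw [this]
      exact hm1
  obtain ⟨N, hN⟩ : ∃ N, N = Pool.Agent.H322R2.kN d * d := ⟨_, rfl⟩
  obtain ⟨B, hB⟩ : ∃ B, B = (2 * H + 1) ^ (4 * d - 2) := ⟨_, rfl⟩
  have b1 : (S.filter fun a => Irreducible (LF a) → LinesC a).card ≤ N * B := by
    have := exists_largeC hd H (S.filter fun a => Irreducible (LF a) → LinesC a)
      ((filter_subset _ _).trans hS) (fun a ha => by
        have h1 := mem_filter.1 ha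
        obtain ⟨g1, g2, g3, g4⟩ := h a h1.1
        exact ⟨g1, g2, h1.2, g3, g4⟩)
    rw [hN, hB]
    exact this
  have b2 : (S.filter fun a => Lead a ∧ ¬ LinesM 2 a).card ≤ d * B := by
    rw [hB]
    exact card_cls1 hd _ ((filter_subset _ _).trans hS) (fun a ha => (mem_filter.1 ha).2)
  have b3 : ((range (d - 4)).biUnion fun e =>
        S.filter fun a => Lead a ∧ LinesM (e + 2) a ∧ ¬ LinesM (e + 3) a).card ≤
      (d - 4) * ((N * d) * B) := by
    refine card_biUnion_le.trans ?_
    calc ∑ e ∈ range (d - 4), (S.filter fun a => Lead a ∧ LinesM (e + 2) a ∧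
          ¬ LinesM (e + 3) a).card ≤ ∑ _e ∈ range (d - 4), (N * d) * B := by
          apply sum_le_sum
          intro e he
          rw [mem_range] at he
          rw [hN, hB]
          apply card_cls hd (e := e) (by omega) _ ((filter_subset _ _).trans hS)
          intro a ha
          obtain ⟨h1, h2, h3, h4⟩ := mem_filter.1 ha
          exact ⟨h2, h3, h4, (h a h1).2.2⟩
      _ = _ := by rw [sum_const, card_range, smul_eq_mul]
  have hcard := (card_le_card hsub).trans ((card_union_le _ _).trans (add_le_add b1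
    ((card_union_le _ _).trans (add_le_add b2 b3))))
  refine hcard.trans ?_
  rw [← hB]
  have hfin : N + d + (d - 4) * (N * d) ≤ 10 ^ 9 * 36 ^ d * (d + 1) ^ 10 := by
    have h1 : N = 10 ^ 9 * 36 ^ d * (d + 1) ^ 7 * d := hN
    have hN1 : 1 ≤ N := by rw [h1]; exact Nat.mul_pos (by positivity) (by omega)
    have h2 : N + d + (d - 4) * (N * d) ≤ N * d ^ 2 := by
      obtain ⟨f, rfl⟩ : ∃ f, d = f + 4 := ⟨d - 4, by omega⟩
      have e1 : f + 4 - 4 = f := by omega
      rw [e1]
      have e2 : N * (f + 4) ^ 2 = N * (f * (f + 4)) + N * (4 * f + 16) := by ring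
      have e3 : f * (N * (f + 4)) = N * (f * (f + 4)) := by ring
      rw [e2, e3]
      have e4 : f + 4 ≤ N * (f + 4) := Nat.le_mul_of_pos_left _ hN1
      have e5 : N + N * (f + 4) ≤ N * (4 * f + 16) := by
        have e6 : N + N * (f + 4) = N * (f + 5) := by ring
        rw [e6]
        exact Nat.mul_le_mul_left _ (by omega)
      omega
    refine h2.trans ?_
    rw [h1]
    calc 10 ^ 9 * 36 ^ d * (d + 1) ^ 7 * d * d ^ 2 = 10 ^ 9 * 36 ^ d * (d + 1) ^ 7 * d ^ 3 := by
          ring
      _ ≤ 10 ^ 9 * 36 ^ d * (d + 1) ^ 7 * (d + 1) ^ 3 :=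
          Nat.mul_le_mul_left _ (Nat.pow_le_pow_left (by omega) _)
      _ = _ := by ring
  calc N * B + (d * B + (d - 4) * (N * d * B)) = (N + d + (d - 4) * (N * d)) * B := by ring
    _ ≤ _ := Nat.mul_le_mul_right _ hfin

end Pool.Agent.H91ES
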