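import Pool.Agent.R414.DN.Sqf

set_option autoImplicit false
set_option linter.unusedSectionVars false
set_option maxHeartbeats 400000

/-! Counting polynomials in one variable that are a constant times a proper power. -/

open Finset Polynomial

namespace Pool.Agent.H91ES

open Pool.Agent.R414.DN

/-- a power over the integers -/
lemma exists_pwfactor {f : ℤ[X]} (hf : f ≠ 0) {c : ℚ} {p : ℚ[X]} {k : ℕ}
    (hp : f.map (Int.castRingHom ℚ) = C c * p ^ k) (hk : 1 ≤ k) :
    ∃ (g : ℤ[X]) (b : ℤ), f = g ^ k * C b ∧ g.natDegree = p.natDegree := by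
  have hf' : f.map (Int.castRingHom ℚ) ≠ 0 := by
    rwa [Ne, Polynomial.map_eq_zero_iff (RingHom.injective_int _)]
  have hp0 : p ≠ 0 := by
    rintro rfl
    rw [zero_pow (by omega), mul_zero] at hp
    exact hf' hp
  have hc0 : c ≠ 0 := by
    rintro rfl
    rw [C_0, zero_mul] at hp
    exact hf' hp
  obtain ⟨b, hb, hbp⟩ := IsLocalization.integerNormalization_spec (nonZeroDivisors ℤ) p
  obtain ⟨q, hq⟩ : ∃ q, q = IsLocalization.integerNormalization (nonZeroDivisors ℤ) p := ⟨_, rfl⟩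
  rw [← hq] at hbp
  have hb0 : (b : ℚ) ≠ 0 := by
    have := nonZeroDivisors.ne_zero hb
    exact_mod_cast this
  have hmap : q.map (Int.castRingHom ℚ) = C (b : ℚ) * p := by
    have : q.map (algebraMap ℤ ℚ) = C (b : ℚ) * p := by
      rw [hbp, zsmul_eq_mul, map_intCast]
    exact this
  have hq1 : q.map (Int.castRingHom ℚ) ∣ p := by
    refine ⟨C (b : ℚ)⁻¹, ?_⟩
    rw [hmap, mul_comm (C (b : ℚ)), mul_assoc, ← C_mul, mul_inv_cancel₀ hb0, C_1, mul_one]
  have hgq : q.primPart.map (Int.castRingHom ℚ) ∣ q.map (Int.castRingHom ℚ) :=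
    Polynomial.map_dvd _ (primPart_dvd q)
  have hdeg : q.primPart.natDegree = p.natDegree := by
    rw [natDegree_primPart, ← natDegree_map_eq_of_injective (RingHom.injective_int
      (Int.castRingHom ℚ)), hmap, natDegree_C_mul hb0]
  have hprim : (q.primPart ^ k).IsPrimitive := by
    clear hk hp
    induction k with
    | zero => rw [pow_zero]; exact isPrimitive_one
    | succ k ih => rw [pow_succ]; exact ih.mul (isPrimitive_primPart q)
  have hdvd : q.primPart ^ k ∣ f := by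
    rw [IsPrimitive.Int.dvd_iff_map_cast_dvd_map_cast _ _ hprim, Polynomial.map_pow, hp]
    exact (pow_dvd_pow_of_dvd (hgq.trans hq1) k).mul_left _
  obtain ⟨h, hh⟩ := hdvd
  have hne : q.primPart ^ k ≠ 0 := by
    intro h0
    rw [h0, zero_mul] at hh
    exact hf hh
  have hh0 : h ≠ 0 := by
    rintro rfl
    rw [mul_zero] at hh
    exact hf hh
  have hnf : f.natDegree = k * p.natDegree := by
    rw [← natDegree_map_eq_of_injective (RingHom.injective_int (Int.castRingHom ℚ)), hp,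
      natDegree_C_mul hc0, natDegree_pow]
  have hnh : h.natDegree = 0 := by
    have h1 := congrArg natDegree hh
    rw [natDegree_mul hne hh0, natDegree_pow, hdeg, hnf] at h1
    omega
  refine ⟨q.primPart, h.coeff 0, ?_, hdeg⟩
  rw [← eq_C_of_natDegree_eq_zero hnh]
  exact hh

lemma pw_bound {d : ℕ} {g h : ℤ[X]} (i : ℕ) (hi : 1 ≤ (g.coeff i).natAbs) : ∀ (k H : ℕ),
    g ^ k * h ≠ 0 → (g ^ k * h).natDegree ≤ d → (∀ i, |(g ^ k * h).coeff i| ≤ (H : ℤ)) → ∀ j,
    (g.coeff i).natAbs ^ k * (h.coeff j).natAbs ≤ (2 ^ d * (d + 1)) ^ k * H := by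
  have hmono : ∀ e ≤ d, 2 ^ e * (e + 1) ≤ 2 ^ d * (d + 1) := fun e he =>
    Nat.mul_le_mul (Nat.pow_le_pow_right two_pos he) (by omega)
  intro k
  induction k with
  | zero =>
    intro H _ _ hH j
    have h1 := hH j
    rw [pow_zero, one_mul, Int.abs_eq_natAbs] at h1
    rw [pow_zero, pow_zero, one_mul, one_mul]
    exact_mod_cast h1
  | succ k ih =>
    intro H hne hd hH j
    have e1 : g ^ (k + 1) * h = g * (g ^ k * h) := by rw [pow_succ']; ring
    rw [e1] at hne hd hH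
    have hgh : g ^ k * h ≠ 0 := right_ne_zero_of_mul hne
    have hd2 : (g ^ k * h).natDegree ≤ d := by
      refine le_trans ?_ hd
      rw [natDegree_mul (left_ne_zero_of_mul hne) hgh]
      omega
    obtain ⟨m, hm⟩ : ∃ m, m = (g.coeff i).natAbs := ⟨_, rfl⟩
    have h1 : ∀ k', ((g ^ k * h).coeff k').natAbs ≤ 2 ^ d * (d + 1) * H / m := by
      intro k'
      have h2 := factor_bound hne rfl hH i k'
      rw [Int.abs_eq_natAbs, Int.abs_eq_natAbs] at h2
      have h3 : m * ((g ^ k * h).coeff k').natAbs ≤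
          2 ^ (g * (g ^ k * h)).natDegree * ((g * (g ^ k * h)).natDegree + 1) * H := by
        rw [hm]
        exact_mod_cast h2
      rw [Nat.le_div_iff_mul_le (by omega), mul_comm]
      exact h3.trans (Nat.mul_le_mul_right _ (hmono _ hd))
    have h4 := ih (2 ^ d * (d + 1) * H / m) hgh hd2 (fun k' => by
      rw [Int.abs_eq_natAbs]
      exact_mod_cast h1 k') j
    rw [← hm] at h4 ⊢
    calc m ^ (k + 1) * (h.coeff j).natAbs = m * (m ^ k * (h.coeff j).natAbs) := by ring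
      _ ≤ m * ((2 ^ d * (d + 1)) ^ k * (2 ^ d * (d + 1) * H / m)) := Nat.mul_le_mul_left _ h4
      _ = (2 ^ d * (d + 1)) ^ k * (2 ^ d * (d + 1) * H / m * m) := by ring
      _ ≤ (2 ^ d * (d + 1)) ^ k * (2 ^ d * (d + 1) * H) :=
          Nat.mul_le_mul_left _ (Nat.div_mul_le_self _ _)
      _ = _ := by ring

/-- coefficient vectors of polynomials that are a constant times a proper power -/
noncomputable def pwS (d H : ℕ) : Finset (Fin (d + 1) → ℤ) := by
  classical
  exact (ibox (Fin (d + 1)) H).filter fun f => pl d f ≠ 0 ∧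
    ∃ (k a : ℕ) (c : ℚ) (p : ℚ[X]), 2 ≤ k ∧ k * a = d ∧ p.natDegree ≤ a ∧
      (pl d f).map (Int.castRingHom ℚ) = C c * p ^ k

/-- constant -/
def cP (d : ℕ) : ℕ := (2 ^ d * (d + 1)) ^ d

lemma cP_pos (d : ℕ) : 1 ≤ cP d := Nat.pow_pos (Nat.mul_pos (pow_pos two_pos d) (Nat.succ_pos d))

lemma pwS_sub {d H : ℕ} (hd : 1 ≤ d) : pwS d H ⊆
    (Icc 2 d).biUnion fun k => ((Icc 1 (cP d * H)).filter fun m => m ^ k ≤ cP d * H).biUnion
      fun m => ((((ibox (Fin (d / k + 1)) m).filter fun g => ∃ i, (g i).natAbs = m) ×ˢ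
        Icc (-((cP d * H / m ^ k : ℕ) : ℤ)) (cP d * H / m ^ k : ℕ)).image
        fun p => fun i : Fin (d + 1) => (pl (d / k) p.1 ^ k * C p.2).coeff i) := by
  classical
  intro f hf
  unfold pwS at hf
  rw [mem_filter, mem_ibox] at hf
  obtain ⟨hH, hne0, k, a, c, p, hk, hka, hpa, hp⟩ := hf
  have hH' := coeff_le_pl hH
  have hdle := natDegree_pl_le d f
  obtain ⟨g, b, hgb, hgd⟩ := exists_pwfactor hne0 hp (by omega)
  rw [hgb] at hH' hne0 hdle
  have hg0 : g ≠ 0 := by
    rintro rfl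
    rw [zero_pow (by omega), zero_mul] at hne0
    exact hne0 rfl
  have hb0 : b ≠ 0 := by
    rintro rfl
    rw [C_0, mul_zero] at hne0
    exact hne0 rfl
  have ha : a = d / k := by
    rw [← hka, Nat.mul_div_cancel_left _ (by omega)]
  have hkd : k ≤ d := by
    rw [← hka]
    apply Nat.le_mul_of_pos_right
    by_contra hcon
    have : a = 0 := by omega
    rw [this, mul_zero] at hka
    omega
  have hga : g.natDegree ≤ a := by rw [hgd]; exact hpa
  obtain ⟨i₀, -, hi₀⟩ := exists_max_image (univ : Finset (Fin (a + 1)))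
    (fun i => (g.coeff i).natAbs) ⟨0, mem_univ 0⟩
  obtain ⟨m, hm⟩ : ∃ m, m = (g.coeff i₀).natAbs := ⟨_, rfl⟩
  have hm1 : 1 ≤ m := by
    have h1 := hi₀ ⟨g.natDegree, by omega⟩ (mem_univ _)
    simp only at h1
    rw [hm]
    exact (natAbs_pos_of_lead hg0).trans h1
  have key : m ^ k * b.natAbs ≤ cP d * H := by
    have h1 := pw_bound (d := d) i₀ (by rw [← hm]; exact hm1) k H hne0 hdle hH' 0
    rw [coeff_C_zero, ← hm] at h1
    refine h1.trans (Nat.mul_le_mul_right _ ?_)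
    unfold cP
    exact Nat.pow_le_pow_right (Nat.mul_pos (pow_pos two_pos d) (Nat.succ_pos d)) hkd
  have hb1 : 1 ≤ b.natAbs := Int.natAbs_pos.2 hb0
  have hmk : m ^ k ≤ cP d * H := le_trans (Nat.le_mul_of_pos_right _ hb1) key
  rw [mem_biUnion]
  refine ⟨k, ?_, ?_⟩
  · rw [mem_Icc]
    exact ⟨hk, hkd⟩
  rw [mem_biUnion]
  refine ⟨m, ?_, ?_⟩
  · rw [mem_filter, mem_Icc]
    exact ⟨⟨hm1, (Nat.le_self_pow (by omega) m).trans hmk⟩, hmk⟩
  rw [mem_image, ← ha]
  refine ⟨(fun i => g.coeff i, b), ?_, ?_⟩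
  · rw [mem_product, mem_filter, mem_ibox, mem_Icc, ← abs_le]
    refine ⟨⟨?_, i₀, hm.symm⟩, ?_⟩
    · intro i
      have h1 := hi₀ i (mem_univ i)
      rw [Int.abs_eq_natAbs, hm]
      exact_mod_cast h1
    · rw [Int.abs_eq_natAbs]
      have h1 : b.natAbs ≤ cP d * H / m ^ k := by
        rw [Nat.le_div_iff_mul_le (Nat.pow_pos (by omega)), mul_comm]
        exact key
      exact_mod_cast h1
  · funext i
    simp only
    rw [pl_coeff hga, ← hgb]
    exact coeff_pl d f i

/-- integral root -/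
lemma exists_root (k M : ℕ) (hk : 1 ≤ k) (hM : 1 ≤ M) :
    ∃ r, 1 ≤ r ∧ r ^ k ≤ M ∧ ∀ m, m ^ k ≤ M → m ≤ r := by
  have hP : (fun m => m ^ k ≤ M) 1 := by simp only [one_pow]; exact hM
  refine ⟨Nat.findGreatest (fun m => m ^ k ≤ M) M, ?_, ?_, ?_⟩
  · exact Nat.le_findGreatest hM hP
  · exact Nat.findGreatest_spec (P := fun m => m ^ k ≤ M) hM hP
  · intro m hm
    exact Nat.le_findGreatest (P := fun m => m ^ k ≤ M)
      ((Nat.le_self_pow (by omega) m).trans hm) hm

lemma arith_q {d k a q : ℕ} (hk : 2 ≤ k) (hka : k * a ≤ d) (hq : q = (d + 5) / 4) (hd : 3 ≤ d) :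
    a - k + 1 ≤ k * (q - 1) := by
  have h4 : d + 2 ≤ 4 * q := by omega
  have hq2 : 2 ≤ q := by omega
  obtain ⟨r, rfl⟩ : ∃ r, q = r + 1 := ⟨q - 1, by omega⟩
  rw [Nat.add_sub_cancel]
  by_cases h : a ≤ k
  · have : a - k = 0 := by omega
    rw [this, zero_add]
    exact Nat.mul_pos (by omega) (by omega)
  · have h5 : a + 1 ≤ k * (r + 1) := by
      obtain ⟨l, rfl⟩ : ∃ l, k = l + 2 := ⟨k - 2, by omega⟩
      have h6 : (l + 2) * ((l + 2) * a + 2) ≤ (l + 2) * (4 * (r + 1)) :=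
        Nat.mul_le_mul_left _ (by omega)
      have h7 : (l + 2) * ((l + 2) * a + 2) = l * l * a + 4 * (l * a) + 4 * a + 2 * l + 4 := by ring
      have h8 : (l + 2) * (4 * (r + 1)) = 4 * ((l + 2) * (r + 1)) := by ring
      have h9 : 0 ≤ l * l * a := Nat.zero_le _
      have h10 : 0 ≤ l * a := Nat.zero_le _
      rw [h7, h8] at h6
      omega
    have h6 : k * (r + 1) = k * r + k := by ring
    omega

theorem card_pwS {d H : ℕ} (hd : 3 ≤ d) (hH : 1 ≤ H) :
    (pwS d H).card ≤ (6 * d * (d + 1) * 3 ^ d * cP d ^ ((d + 5) / 4)) * H ^ ((d + 5) / 4) := by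
  classical
  obtain ⟨M, hM⟩ : ∃ M, M = cP d * H := ⟨_, rfl⟩
  have hM1 : 1 ≤ M := by rw [hM]; exact Nat.mul_pos (cP_pos d) hH
  obtain ⟨q, hq⟩ : ∃ q, q = (d + 5) / 4 := ⟨_, rfl⟩
  have h0 := (card_le_card (pwS_sub (H := H) (by omega : 1 ≤ d))).trans
    (card_biUnion_le.trans (sum_le_sum fun k _ => card_biUnion_le))
  rw [← hM] at h0
  have h1 : ∀ k ∈ Icc 2 d, ∑ m ∈ (Icc 1 M).filter (fun m => m ^ k ≤ M),
      ((((ibox (Fin (d / k + 1)) m).filter fun g => ∃ i, (g i).natAbs = m) ×ˢ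
        Icc (-((M / m ^ k : ℕ) : ℤ)) (M / m ^ k : ℕ)).image
        fun p => fun i : Fin (d + 1) => (pl (d / k) p.1 ^ k * C p.2).coeff i).card ≤
      6 * (d + 1) * 3 ^ d * M ^ q := by
    intro k hk
    rw [mem_Icc] at hk
    obtain ⟨r, hr1, hrM, hr⟩ := exists_root k M (by omega) hM1
    obtain ⟨a, ha⟩ : ∃ a, a = d / k := ⟨_, rfl⟩
    have had : a ≤ d := by rw [ha]; exact Nat.div_le_self _ _
    have hka : k * a ≤ d := by rw [ha]; exact Nat.mul_div_le d k
    rw [← ha]
    have hterm : ∀ m ∈ (Icc 1 M).filter (fun m => m ^ k ≤ M),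
        ((((ibox (Fin (a + 1)) m).filter fun g => ∃ i, (g i).natAbs = m) ×ˢ
        Icc (-((M / m ^ k : ℕ) : ℤ)) (M / m ^ k : ℕ)).image
        fun p => fun i : Fin (d + 1) => (pl a p.1 ^ k * C p.2).coeff i).card ≤
        6 * (d + 1) * 3 ^ d * (M * r ^ (a - k)) := by
      intro m hm
      rw [mem_filter, mem_Icc] at hm
      have hmr := hr m hm.2
      refine card_image_le.trans ?_
      rw [card_product, card_Icc_H]
      have e1 : 2 * (M / m ^ k) + 1 ≤ 3 * (M / m ^ k) := by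
        have : 1 ≤ M / m ^ k := by
          rw [Nat.le_div_iff_mul_le (Nat.pow_pos (by omega)), one_mul]
          exact hm.2
        omega
      have e2 : (2 * m + 1) ^ a ≤ 3 ^ d * m ^ a := by
        calc (2 * m + 1) ^ a ≤ (3 * m) ^ a := Nat.pow_le_pow_left (by omega) _
          _ = 3 ^ a * m ^ a := mul_pow _ _ _
          _ ≤ _ := Nat.mul_le_mul_right _ (Nat.pow_le_pow_right (by norm_num) had)
      have e3 : m ^ a * (M / m ^ k) ≤ M * r ^ (a - k) := by
        have e4 : m ^ a ≤ m ^ (a - k) * m ^ k := by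
          rw [← pow_add]
          exact Nat.pow_le_pow_right (by omega) (by omega)
        calc m ^ a * (M / m ^ k) ≤ m ^ (a - k) * m ^ k * (M / m ^ k) := Nat.mul_le_mul_right _ e4
          _ = m ^ (a - k) * (M / m ^ k * m ^ k) := by ring
          _ ≤ r ^ (a - k) * M := Nat.mul_le_mul (Nat.pow_le_pow_left hmr _)
              (Nat.div_mul_le_self _ _)
          _ = _ := mul_comm _ _
      calc ((ibox (Fin (a + 1)) m).filter fun g => ∃ i, (g i).natAbs = m).card *
            (2 * (M / m ^ k) + 1) ≤ ((a + 1) * (2 * (2 * m + 1) ^ a)) * (3 * (M / m ^ k)) :=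
            Nat.mul_le_mul (card_maxeq a m) e1
        _ ≤ ((d + 1) * (2 * (3 ^ d * m ^ a))) * (3 * (M / m ^ k)) := by
            apply Nat.mul_le_mul_right
            exact Nat.mul_le_mul (by omega) (Nat.mul_le_mul_left _ e2)
        _ = 6 * (d + 1) * 3 ^ d * (m ^ a * (M / m ^ k)) := by ring
        _ ≤ _ := Nat.mul_le_mul_left _ e3
    refine (sum_le_sum hterm).trans ?_
    rw [sum_const, smul_eq_mul]
    have hcard : ((Icc 1 M).filter (fun m => m ^ k ≤ M)).card ≤ r := by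
      have hs : ((Icc 1 M).filter (fun m => m ^ k ≤ M)) ⊆ Icc 1 r := by
        intro m hm
        rw [mem_filter, mem_Icc] at hm
        rw [mem_Icc]
        exact ⟨hm.1.1, hr m hm.2⟩
      refine (card_le_card hs).trans ?_
      rw [Nat.card_Icc]
      omega
    have e5 : r ^ (a - k + 1) ≤ M ^ (q - 1) := by
      calc r ^ (a - k + 1) ≤ r ^ (k * (q - 1)) :=
            Nat.pow_le_pow_right (by omega) (arith_q hk.1 hka hq hd)
        _ = (r ^ k) ^ (q - 1) := pow_mul _ _ _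
        _ ≤ _ := Nat.pow_le_pow_left hrM _
    calc ((Icc 1 M).filter (fun m => m ^ k ≤ M)).card * (6 * (d + 1) * 3 ^ d * (M * r ^ (a - k)))
        ≤ r * (6 * (d + 1) * 3 ^ d * (M * r ^ (a - k))) := Nat.mul_le_mul_right _ hcard
      _ = 6 * (d + 1) * 3 ^ d * (M * r ^ (a - k + 1)) := by rw [pow_succ]; ring
      _ ≤ 6 * (d + 1) * 3 ^ d * (M * M ^ (q - 1)) :=
          Nat.mul_le_mul_left _ (Nat.mul_le_mul_left _ e5)
      _ = 6 * (d + 1) * 3 ^ d * M ^ q := by
          have : q = q - 1 + 1 := by omega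
          conv_rhs => rw [this, pow_succ']
  refine h0.trans ((sum_le_sum h1).trans ?_)
  rw [sum_const, smul_eq_mul, Nat.card_Icc, ← hq, hM, mul_pow]
  calc (d + 1 - 2) * (6 * (d + 1) * 3 ^ d * (cP d ^ q * H ^ q))
      ≤ d * (6 * (d + 1) * 3 ^ d * (cP d ^ q * H ^ q)) := Nat.mul_le_mul_right _ (by omega)
    _ = _ := by ring

/-- curves whose leading form is a constant times a proper power -/
theorem card_pw {d H : ℕ} (hd : 3 ≤ d) (hH : 1 ≤ H) (S : Finset (Cf d)) (hS : S ⊆ ibox ↥(I d) H)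
    (h : ∀ a ∈ S, topRow a ∈ pwS d H) :
    S.card ≤ (6 * d * (d + 1) * 3 ^ d * cP d ^ ((d + 5) / 4)) * H ^ ((d + 5) / 4) *
      (2 * H + 1) ^ (MM d - (d + 1)) := by
  classical
  have key := card_fiber (H := H) (S := S) hS (JT d) (pwS d H).card ?_
  · rw [card_JT] at key
    exact key.trans (Nat.mul_le_mul_right _ (card_pwS hd hH))
  intro b T hT hTb
  apply card_le_card_of_injOn topRow
  · intro a ha
    exact h a (hT ha)
  · intro a ha a' ha' haa
    rw [mem_coe] at ha ha'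
    funext p
    by_cases hp : p ∈ JT d
    · unfold JT at hp
      rw [mem_filter] at hp
      have hp3 := mem_I.1 p.2
      have h1 := congrFun haa ⟨p.1.2, by omega⟩
      unfold topRow at h1
      simp only at h1
      have h2 : (d, p.1.2) = p.1 := Prod.ext hp.2.symm rfl
      have h3 : (d, p.1.2) ∈ I d := by rw [h2]; exact p.2
      rw [co_of_mem a h3, co_of_mem a' h3] at h1
      have h4 : (⟨(d, p.1.2), h3⟩ : ↥(I d)) = p := Subtype.ext h2
      rwa [h4] at h1
    · rw [hTb a ha p hp, hTb a' ha' p hp]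

/-- polynomials of degree less than `d` -/
theorem card_low {d H : ℕ} (S : Finset (Cf d)) (hS : S ⊆ ibox ↥(I d) H)
    (h : ∀ a ∈ S, ∀ i, co a d i = 0) :
    S.card ≤ (2 * H + 1) ^ (MM d - (d + 1)) := by
  classical
  have key := card_fiber (H := H) (S := S) hS (JT d) 1 ?_
  · rw [card_JT, one_mul] at key
    exact key
  intro b T hT hTb
  rw [card_le_one]
  intro a ha a' ha'
  funext p
  by_cases hp : p ∈ JT d
  · unfold JT at hp
    rw [mem_filter] at hp
    have h2 : (d, p.1.2) = p.1 := Prod.ext hp.2.symm rfl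
    have h3 : (d, p.1.2) ∈ I d := by rw [h2]; exact p.2
    have e1 := h a (hT ha) p.1.2
    have e2 := h a' (hT ha') p.1.2
    rw [co_of_mem a h3] at e1
    rw [co_of_mem a' h3] at e2
    have h4 : (⟨(d, p.1.2), h3⟩ : ↥(I d)) = p := Subtype.ext h2
    rw [h4] at e1 e2
    rw [e1, e2]
  · rw [hTb a ha p hp, hTb a' ha' p hp]

end Pool.Agent.H91ES
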