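import Pool.Agent.H91ES.NoEx
import Pool.Agent.H91ES.PwCnt
import Pool.Agent.H91ES.Cnt

set_option autoImplicit false
set_option linter.unusedSectionVars false

/-!
Counting all the exceptional curves: assembly.
-/

open Finset Polynomial

namespace Pool.Agent.H91ES

open Pool.Agent.R414.DN

variable {d H : ℕ}

/-- an irreducible polynomial with an integer zero beyond `(C * h(F)) ^ C` -/
def Exc (C : ℕ) (F : MvPolynomial (Fin 2) ℤ) : Prop :=
  Irreducible (MvPolynomial.map (Int.castRingHom ℚ) F) ∧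
    ∃ x y : ℤ, MvPolynomial.eval ![x, y] F = 0 ∧
      (C * Pool.Agent.H322R2.len F) ^ C < max x.natAbs y.natAbs

/-- the part of degree `d` is a constant times a proper power -/
def IsPw (d : ℕ) (F : MvPolynomial (Fin 2) ℤ) : Prop :=
  ∃ (c : ℚ) (ψ : MvPolynomial (Fin 2) ℚ) (k : ℕ), 2 ≤ k ∧
    MvPolynomial.map (Int.castRingHom ℚ) (MvPolynomial.homogeneousComponent d F) =
      MvPolynomial.C c * ψ ^ k

lemma co_of_LF {a : Cf d} (h : LF a = 0) (i : ℕ) : co a d i = 0 := by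
  by_cases hi : i ≤ d
  · have h1 := coeff_topRow a hi
    rw [← DH_LF, h, map_zero, coeff_zero] at h1
    exact_mod_cast h1.symm
  · unfold co
    rw [dif_neg (by rw [mem_I]; simp only; omega)]

lemma totalDegree_of_LF {a : Cf d} (h : LF a ≠ 0) : (poly a).totalDegree = d := by
  apply le_antisymm (totalDegree_poly_le a)
  by_contra hcon
  apply h
  unfold LF
  rw [MvPolynomial.homogeneousComponent_eq_zero _ _ (by omega), map_zero]

lemma totalDegree_pow' {ψ : MvPolynomial (Fin 2) ℚ} (hψ : ψ ≠ 0) (k : ℕ) :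
    (ψ ^ k).totalDegree = k * ψ.totalDegree := by
  induction k with
  | zero => rw [pow_zero, MvPolynomial.totalDegree_one, zero_mul]
  | succ k ih =>
    rw [pow_succ, MvPolynomial.totalDegree_mul_of_isDomain (pow_ne_zero _ hψ) hψ, ih]
    ring

lemma mem_pwS {a : Cf d} (ha : a ∈ ibox ↥(I d) H) {c : ℚ} {ψ : MvPolynomial (Fin 2) ℚ} {k : ℕ}
    (hk : 2 ≤ k) (h0 : LF a ≠ 0) (h : LF a = MvPolynomial.C c * ψ ^ k) :
    topRow a ∈ pwS d H := by
  classical
  have hc0 : c ≠ 0 := by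
    rintro rfl
    rw [MvPolynomial.C_0, zero_mul] at h
    exact h0 h
  have hψ : ψ ≠ 0 := by
    rintro rfl
    rw [zero_pow (by omega), mul_zero] at h
    exact h0 h
  have hdeg : k * ψ.totalDegree = d := by
    rw [← totalDegree_pow' hψ, ← (LF_homog a).totalDegree h0, h,
      MvPolynomial.totalDegree_mul_of_isDomain (by rwa [Ne, MvPolynomial.C_eq_zero])
        (pow_ne_zero _ hψ), MvPolynomial.totalDegree_C, zero_add]
  unfold pwS
  rw [mem_filter, mem_ibox]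
  refine ⟨?_, ?_, k, ψ.totalDegree, c, DH ψ, hk, hdeg, DH_natDegree_le ψ, ?_⟩
  · intro i
    unfold topRow
    have h1 : (d, (i : ℕ)) ∈ I d := by rw [mem_I]; simp only; omega
    rw [co_of_mem a h1]
    exact mem_ibox.1 ha _
  · intro h1
    apply h0
    apply DH_inj (LF_homog a) (MvPolynomial.isHomogeneous_zero _ _ _)
    rw [DH_LF, h1, Polynomial.map_zero, map_zero]
  · rw [← DH_LF, h, map_mul, map_pow]
    congr 1
    unfold DH
    rw [MvPolynomial.aeval_C]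
    rfl

/-- the exceptional curves -/
theorem exc_dich (d : ℕ) : ∃ C : ℕ, ∀ a : Cf d, Exc C (poly a) → LF a ≠ 0 →
    Ex d a ∧ ∃ (c : ℚ) (ψ : MvPolynomial (Fin 2) ℚ) (k : ℕ), 1 ≤ k ∧ c ≠ 0 ∧ Irreducible ψ ∧
      LF a = MvPolynomial.C c * ψ ^ k := by
  obtain ⟨C0, hC0⟩ := noexc d
  obtain ⟨C, hC⟩ : ∃ C, C = C0 + (d + 1) + Pool.Agent.H674R3.kG d := ⟨_, rfl⟩
  refine ⟨C, ?_⟩
  rintro a ⟨hirr, x, y, hxy, hlt⟩ hLF
  have hF0 : poly a ≠ 0 := by
    intro h
    rw [h, map_zero] at hirr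
    exact hirr.ne_zero rfl
  have hlen := Pool.Agent.Y910.G.len_pos hF0
  have hCl : 1 ≤ C * Pool.Agent.H322R2.len (poly a) := Nat.mul_pos (by omega) hlen
  have hmono : ∀ A B : ℕ, A ≤ C → B ≤ C → (A * Pool.Agent.H322R2.len (poly a)) ^ B ≤
      (C * Pool.Agent.H322R2.len (poly a)) ^ C := by
    intro A B hA hB
    calc (A * Pool.Agent.H322R2.len (poly a)) ^ B ≤ (C * Pool.Agent.H322R2.len (poly a)) ^ B :=
          Nat.pow_le_pow_left (Nat.mul_le_mul_right _ hA) _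
      _ ≤ _ := Nat.pow_le_pow_right hCl hB
  refine ⟨⟨hirr, x, y, ?_, ?_⟩, ?_⟩
  · rw [← eval_poly]; exact hxy
  · exact lt_of_le_of_lt (hmono _ _ (by omega) (by omega)) hlt
  · rcases hC0 (poly a) (totalDegree_of_LF hLF) hirr with h | h
    · exfalso
      obtain ⟨h1, h2⟩ := h x y hxy
      have h3 := hmono C0 C0 (by omega) (by omega)
      have h4 : max x.natAbs y.natAbs ≤ (C * Pool.Agent.H322R2.len (poly a)) ^ C :=
        max_le (h1.trans h3) (h2.trans h3)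
      omega
    · exact h

lemma pow_two_mul_add_one (hH : 1 ≤ H) (n : ℕ) : (2 * H + 1) ^ n ≤ 3 ^ n * H ^ n := by
  rw [← mul_pow]
  exact Nat.pow_le_pow_left (by omega) _

lemma exps (hd : 4 ≤ d) : (d + 5) / 4 + (MM d - (d + 1)) = MM d - (3 * d + 2) / 4 := by
  have h1 : d + 1 ≤ MM d := by
    rw [MM_eq]
    have : (d + 1) * 2 ≤ (d + 1) * (d + 2) := Nat.mul_le_mul_left _ (by omega)
    omega
  omega

/-- polynomials whose part of degree `d` is a constant times a proper power -/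
theorem card_IsPw (hd : 4 ≤ d) : ∃ C : ℕ, ∀ H : ℕ, 1 ≤ H → ∀ S ⊆ ibox ↥(I d) H,
    (∀ a ∈ S, IsPw d (poly a)) → S.card ≤ C * H ^ (MM d - (3 * d + 2) / 4) := by
  classical
  obtain ⟨K2, hK2⟩ : ∃ K2, K2 = 3 ^ (MM d - (d + 1)) := ⟨_, rfl⟩
  obtain ⟨K3, hK3⟩ : ∃ K3, K3 = 6 * d * (d + 1) * 3 ^ d * cP d ^ ((d + 5) / 4) := ⟨_, rfl⟩
  refine ⟨K2 + K3 * K2, fun H hH S hS h => ?_⟩
  have e1 : H ^ ((d + 5) / 4) * H ^ (MM d - (d + 1)) = H ^ (MM d - (3 * d + 2) / 4) := by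
    rw [← pow_add, exps hd]
  have e2 : H ^ (MM d - (d + 1)) ≤ H ^ (MM d - (3 * d + 2) / 4) :=
    Nat.pow_le_pow_right hH (by have := exps hd; omega)
  have hsub : S ⊆ (S.filter fun a => LF a = 0) ∪ (S.filter fun a => topRow a ∈ pwS d H) := by
    intro a ha
    simp only [mem_union, mem_filter]
    by_cases h1 : LF a = 0
    · exact Or.inl ⟨ha, h1⟩
    · obtain ⟨c, ψ, k, hk, h5⟩ := h a ha
      exact Or.inr ⟨ha, mem_pwS (hS ha) hk h1 h5⟩
  have b1 := card_low (H := H) (S.filter fun a => LF a = 0) ((filter_subset _ _).trans hS)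
    (fun a ha i => co_of_LF (mem_filter.1 ha).2 i)
  have b2 := card_pw (by omega : 3 ≤ d) hH (S.filter fun a => topRow a ∈ pwS d H)
    ((filter_subset _ _).trans hS) (fun a ha => (mem_filter.1 ha).2)
  have hcard := (card_le_card hsub).trans (card_union_le _ _)
  rw [← hK3] at b2
  obtain ⟨A, hA⟩ : ∃ A, A = H ^ (MM d - (d + 1)) := ⟨_, rfl⟩
  obtain ⟨B, hB⟩ : ∃ B, B = H ^ (MM d - (3 * d + 2) / 4) := ⟨_, rfl⟩
  obtain ⟨Q, hQ⟩ : ∃ Q, Q = H ^ ((d + 5) / 4) := ⟨_, rfl⟩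
  have b0 := pow_two_mul_add_one hH (MM d - (d + 1))
  rw [← hK2, ← hA] at b0
  rw [← hA, ← hB, ← hQ] at e1
  rw [← hA, ← hB] at e2
  rw [← hQ] at b2
  rw [← hB]
  have c1 := b1.trans (b0.trans (Nat.mul_le_mul_left K2 e2))
  have c2 := b2.trans (Nat.mul_le_mul_left (K3 * Q) b0)
  have c3 : K3 * Q * (K2 * A) = K3 * K2 * B := by
    rw [← e1]
    ring
  rw [c3] at c2
  refine hcard.trans ((add_le_add c1 c2).trans (le_of_eq ?_))
  ring

/-- **the exceptional curves** -/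
theorem count (hd : 4 ≤ d) : ∃ C : ℕ, ∀ H : ℕ, 1 ≤ H →
    ∃ S T : Finset (MvPolynomial (Fin 2) ℤ), S.card ≤ C * H ^ (4 * d - 2) ∧
      T.card ≤ C * H ^ (MM d - (3 * d + 2) / 4) ∧ (∀ F ∈ T, IsPw d F) ∧
      ∀ F : MvPolynomial (Fin 2) ℤ, F.totalDegree ≤ d → (∀ m, |F.coeff m| ≤ (H : ℤ)) →
        F ∉ S → F ∉ T → ¬ Exc C F := by
  classical
  obtain ⟨C0, hC0⟩ := exc_dich d
  obtain ⟨K1, hK1⟩ : ∃ K1, K1 = (10 ^ 9 * 36 ^ d * (d + 1) ^ 10) * 3 ^ (4 * d - 2) := ⟨_, rfl⟩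
  obtain ⟨K2, hK2⟩ := card_IsPw hd
  obtain ⟨C, hC⟩ : ∃ C, C = C0 + K1 + K2 := ⟨_, rfl⟩
  refine ⟨C, fun H hH => ?_⟩
  have hmono : ∀ F, Exc C F → Exc C0 F := by
    rintro F ⟨h1, x, y, h2, h3⟩
    refine ⟨h1, x, y, h2, lt_of_le_of_lt ?_ h3⟩
    have hF0 : F ≠ 0 := by
      rintro rfl
      rw [map_zero] at h1
      exact h1.ne_zero rfl
    have hlen := Pool.Agent.Y910.G.len_pos hF0
    rcases Nat.eq_zero_or_pos C with h0 | h0
    · have : C0 = 0 := by omega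
      rw [this, h0]
    · calc (C0 * Pool.Agent.H322R2.len F) ^ C0 ≤ (C * Pool.Agent.H322R2.len F) ^ C0 :=
            Nat.pow_le_pow_left (Nat.mul_le_mul_right _ (by omega)) _
        _ ≤ _ := Nat.pow_le_pow_right (Nat.mul_pos h0 hlen) (by omega)
  obtain ⟨S, hS⟩ : ∃ S, S = (ibox ↥(I d) H).filter fun a => Exc C (poly a) ∧ ¬ IsPw d (poly a) :=
    ⟨_, rfl⟩
  obtain ⟨T, hT⟩ : ∃ T, T = (ibox ↥(I d) H).filter fun a => IsPw d (poly a) := ⟨_, rfl⟩
  refine ⟨S.image poly, T.image poly, ?_, ?_, ?_, ?_⟩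
  · refine card_image_le.trans ?_
    have h1 := card_simple (H := H) hd S (by rw [hS]; exact filter_subset _ _) (fun a ha => by
      rw [hS, mem_filter] at ha
      obtain ⟨h1, h2, h3⟩ := ha
      have h2' : LF a ≠ 0 := by
        intro h0
        apply h3
        refine ⟨0, 0, 2, le_rfl, ?_⟩
        rw [MvPolynomial.C_0, zero_mul]
        exact h0
      obtain ⟨h4, c, ψ, k, h5, h6, h7, h8⟩ := hC0 a (hmono _ h2) h2'
      have h9 : k = 1 := by
        by_contra hcon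
        exact h3 ⟨c, ψ, k, by omega, h8⟩
      rw [h9, pow_one] at h8
      refine ⟨h2', ?_, h4⟩
      rw [h8]
      have h10 : IsUnit (MvPolynomial.C c : MvPolynomial (Fin 2) ℚ) :=
        (isUnit_iff_ne_zero.2 h6).map MvPolynomial.C
      exact ((irreducible_isUnit_mul h10).2 h7).squarefree)
    refine h1.trans ((Nat.mul_le_mul_left _ (pow_two_mul_add_one hH _)).trans ?_)
    rw [← mul_assoc, ← hK1]
    exact Nat.mul_le_mul_right _ (by omega)
  · refine card_image_le.trans ?_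
    refine (hK2 H hH T (by rw [hT]; exact filter_subset _ _) (fun a ha => by
      rw [hT, mem_filter] at ha
      exact ha.2)).trans ?_
    exact Nat.mul_le_mul_right _ (by omega)
  · intro F hF
    rw [mem_image] at hF
    obtain ⟨a, ha, rfl⟩ := hF
    rw [hT, mem_filter] at ha
    exact ha.2
  · intro F hFd hFH hFS hFT hE
    obtain ⟨a, ha, rfl⟩ := exists_vec hFd hFH
    by_cases h : IsPw d (poly a)
    · apply hFT
      apply mem_image_of_mem
      rw [hT, mem_filter]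
      exact ⟨ha, h⟩
    · apply hFS
      apply mem_image_of_mem
      rw [hS, mem_filter]
      exact ⟨ha, hE, h⟩

end Pool.Agent.H91ES
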