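import Mathlib

set_option autoImplicit false

/-!
Three points close to a branch `y = η x + β + A / x ^ n + B / x ^ (n + 1)` are not collinear.
-/

namespace Pool.Agent.H91ES

/-- the second difference of `1 / y ^ n` (times the Vandermonde determinant) -/
noncomputable def T3 (n : ℕ) (y1 y2 y3 : ℝ) : ℝ :=
  (y3 - y2) * (1 / y1) ^ n - (y3 - y1) * (1 / y2) ^ n + (y2 - y1) * (1 / y3) ^ n

section

variable {y1 y2 y3 : ℝ} (h1 : 0 < y1) (h12 : y1 < y2) (h23 : y2 < y3)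

include h1 h12 h23

lemma T3_one : T3 1 y1 y2 y3 =
    (y2 - y1) * (y3 - y1) * (y3 - y2) * (1 / y1 * (1 / y2) * (1 / y3)) := by
  have h2 : 0 < y2 := by linarith
  have h3 : 0 < y3 := by linarith
  unfold T3
  field_simp
  ring

lemma T3_succ (n : ℕ) : T3 (n + 1) y1 y2 y3 = 1 / y3 * T3 n y1 y2 y3 +
    (y3 - y2) * (y3 - y1) * (1 / y3) * ((1 / y1) ^ (n + 1) - (1 / y2) ^ (n + 1)) := by
  have h2 : 0 < y2 := by linarith
  have h3 : 0 < y3 := by linarith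
  have e1 : 1 / y1 - 1 / y3 = (y3 - y1) * (1 / y1) * (1 / y3) := by field_simp
  have e2 : 1 / y2 - 1 / y3 = (y3 - y2) * (1 / y2) * (1 / y3) := by field_simp
  unfold T3
  rw [pow_succ, pow_succ, pow_succ]
  linear_combination (y3 - y2) * (1 / y1) ^ n * e1 - (y3 - y1) * (1 / y2) ^ n * e2

lemma inv_anti : 1 / y3 ≤ 1 / y2 ∧ 1 / y2 ≤ 1 / y1 ∧ 0 < 1 / y3 := by
  have h2 : 0 < y2 := by linarith
  have h3 : 0 < y3 := by linarith
  exact ⟨one_div_le_one_div_of_le h2 h23.le, one_div_le_one_div_of_le h1 h12.le, by positivity⟩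

lemma T3_low (n : ℕ) : (y2 - y1) * (y3 - y1) * (y3 - y2) *
    ((1 / y1) ^ (n + 1) * (1 / y2) * (1 / y3)) ≤ T3 (n + 1) y1 y2 y3 := by
  obtain ⟨i1, i2, i3⟩ := inv_anti h1 h12 h23
  have h2 : 0 < y2 := by linarith
  have h3 : 0 < y3 := by linarith
  have d12 : 0 < y2 - y1 := by linarith
  have d13 : 0 < y3 - y1 := by linarith
  have d23 : 0 < y3 - y2 := by linarith
  induction n with
  | zero =>
    rw [T3_one h1 h12 h23]
    apply le_of_eq
    ring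
  | succ n ih =>
    rw [T3_succ h1 h12 h23]
    have h0 : 0 ≤ T3 (n + 1) y1 y2 y3 := le_trans (by positivity) ih
    have e1 : 1 / y1 - 1 / y2 = (y2 - y1) * (1 / y1) * (1 / y2) := by field_simp
    have e2 : (1 / y2) ^ (n + 1) ≤ (1 / y1) ^ (n + 1) :=
      pow_le_pow_left₀ (by positivity) i2 _
    have e3 : (1 / y1) ^ (n + 1) * ((y2 - y1) * (1 / y1) * (1 / y2)) ≤
        (1 / y1) ^ (n + 1 + 1) - (1 / y2) ^ (n + 1 + 1) := by
      rw [← e1, pow_succ (1 / y1) (n + 1), pow_succ (1 / y2) (n + 1)]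
      have : 0 ≤ ((1 / y1) ^ (n + 1) - (1 / y2) ^ (n + 1)) * (1 / y2) :=
        mul_nonneg (by linarith) (by positivity)
      linarith
    have e4 : (y3 - y2) * (y3 - y1) * (1 / y3) * ((1 / y1) ^ (n + 1) * ((y2 - y1) * (1 / y1) *
        (1 / y2))) ≤ (y3 - y2) * (y3 - y1) * (1 / y3) *
        ((1 / y1) ^ (n + 1 + 1) - (1 / y2) ^ (n + 1 + 1)) :=
      mul_le_mul_of_nonneg_left e3 (by positivity)
    have e5 : 0 ≤ 1 / y3 * T3 (n + 1) y1 y2 y3 := mul_nonneg i3.le h0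
    calc _ = (y3 - y2) * (y3 - y1) * (1 / y3) * ((1 / y1) ^ (n + 1) * ((y2 - y1) * (1 / y1) *
        (1 / y2))) := by ring
      _ ≤ _ := by linarith

lemma pow_sub_le (n : ℕ) : (1 / y1) ^ (n + 1) - (1 / y2) ^ (n + 1) ≤
    ((n : ℝ) + 1) * (1 / y1) ^ (n + 1) * ((y2 - y1) * (1 / y2)) := by
  obtain ⟨i1, i2, i3⟩ := inv_anti h1 h12 h23
  have h2 : 0 < y2 := by linarith
  have d12 : 0 < y2 - y1 := by linarith
  have e1 : 1 / y1 - 1 / y2 = (y2 - y1) * (1 / y1) * (1 / y2) := by field_simp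
  induction n with
  | zero =>
    simp only [zero_add, pow_one, Nat.cast_zero, one_mul]
    rw [e1]
    apply le_of_eq
    ring
  | succ n ih =>
    have e2 : (1 / y2) ^ (n + 1) ≤ (1 / y1) ^ (n + 1) :=
      pow_le_pow_left₀ (by positivity) i2 _
    have e3 : (1 / y1) ^ (n + 1 + 1) - (1 / y2) ^ (n + 1 + 1) =
        (1 / y1) * ((1 / y1) ^ (n + 1) - (1 / y2) ^ (n + 1)) +
          (1 / y2) ^ (n + 1) * (1 / y1 - 1 / y2) := by ring
    rw [e3, e1]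
    have e4 : (1 / y1) * ((1 / y1) ^ (n + 1) - (1 / y2) ^ (n + 1)) ≤
        (1 / y1) * (((n : ℝ) + 1) * (1 / y1) ^ (n + 1) * ((y2 - y1) * (1 / y2))) :=
      mul_le_mul_of_nonneg_left ih (by positivity)
    have e5 : (1 / y2) ^ (n + 1) * ((y2 - y1) * (1 / y1) * (1 / y2)) ≤
        (1 / y1) ^ (n + 1) * ((y2 - y1) * (1 / y1) * (1 / y2)) :=
      mul_le_mul_of_nonneg_right e2 (by positivity)
    calc _ ≤ (1 / y1) * (((n : ℝ) + 1) * (1 / y1) ^ (n + 1) * ((y2 - y1) * (1 / y2))) +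
          (1 / y1) ^ (n + 1) * ((y2 - y1) * (1 / y1) * (1 / y2)) := add_le_add e4 e5
      _ = _ := by push_cast; ring

lemma T3_up (n : ℕ) : T3 (n + 1) y1 y2 y3 ≤ ((n : ℝ) + 1) ^ 2 *
    ((y2 - y1) * (y3 - y1) * (y3 - y2) * ((1 / y1) ^ (n + 1) * (1 / y2) * (1 / y3))) := by
  obtain ⟨i1, i2, i3⟩ := inv_anti h1 h12 h23
  have h2 : 0 < y2 := by linarith
  have h3 : 0 < y3 := by linarith
  have d12 : 0 < y2 - y1 := by linarith
  have d13 : 0 < y3 - y1 := by linarith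
  have d23 : 0 < y3 - y2 := by linarith
  induction n with
  | zero =>
    rw [T3_one h1 h12 h23]
    apply le_of_eq
    simp
  | succ n ih =>
    rw [T3_succ h1 h12 h23]
    have e1 : 1 / y3 * T3 (n + 1) y1 y2 y3 ≤ 1 / y1 * (((n : ℝ) + 1) ^ 2 *
        ((y2 - y1) * (y3 - y1) * (y3 - y2) * ((1 / y1) ^ (n + 1) * (1 / y2) * (1 / y3)))) := by
      refine (mul_le_mul_of_nonneg_left ih i3.le).trans ?_
      apply mul_le_mul_of_nonneg_right _ (by positivity)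
      linarith
    have e2 := mul_le_mul_of_nonneg_left (pow_sub_le h1 h12 h23 (n + 1))
      (by positivity : 0 ≤ (y3 - y2) * (y3 - y1) * (1 / y3))
    refine (add_le_add e1 e2).trans ?_
    obtain ⟨V, hV⟩ : ∃ V, V = (y2 - y1) * (y3 - y1) * (y3 - y2) *
      ((1 / y1) ^ (n + 1 + 1) * (1 / y2) * (1 / y3)) := ⟨_, rfl⟩
    have hV0 : 0 ≤ V := by rw [hV]; positivity
    rw [← hV]
    have e3 : 1 / y1 * (((n : ℝ) + 1) ^ 2 * ((y2 - y1) * (y3 - y1) * (y3 - y2) *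
        ((1 / y1) ^ (n + 1) * (1 / y2) * (1 / y3)))) = ((n : ℝ) + 1) ^ 2 * V := by
      rw [hV]; ring
    have e4 : (y3 - y2) * (y3 - y1) * (1 / y3) * ((((n + 1 : ℕ) : ℝ) + 1) *
        (1 / y1) ^ (n + 1 + 1) * ((y2 - y1) * (1 / y2))) = ((n : ℝ) + 2) * V := by
      rw [hV]; push_cast; ring
    rw [e3, e4]
    have hn : (0 : ℝ) ≤ n := Nat.cast_nonneg n
    push_cast
    nlinarith

set_option maxHeartbeats 1000000 in
/-- **Three points on a flat branch are not collinear.** -/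
theorem three_flat {A B Q s ε1 ε2 ε3 : ℝ} {n : ℕ} (hQ : 1 ≤ Q)
    (hA : 1 / Q ≤ |A|) (hB : |B| ≤ Q) (hs : 6 * Q ≤ s) (hy1 : 8 * Q ^ 2 * ((n : ℝ) + 2) ^ 2 ≤ y1)
    (hsy : s ≤ y1) (s12 : s ≤ y2 - y1) (s23 : s ≤ y3 - y2)
    (e1 : |ε1 - A * (1 / y1) ^ (n + 1) - B * (1 / y1) ^ (n + 2)| ≤ Q * (1 / y1) ^ (n + 3))
    (e2 : |ε2 - A * (1 / y2) ^ (n + 1) - B * (1 / y2) ^ (n + 2)| ≤ Q * (1 / y2) ^ (n + 3))
    (e3 : |ε3 - A * (1 / y3) ^ (n + 1) - B * (1 / y3) ^ (n + 2)| ≤ Q * (1 / y3) ^ (n + 3)) :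
    (y3 - y2) * ε1 - (y3 - y1) * ε2 + (y2 - y1) * ε3 ≠ 0 := by
  intro h0
  obtain ⟨i1, i2, i3⟩ := inv_anti h1 h12 h23
  have h2 : 0 < y2 := by linarith
  have h3 : 0 < y3 := by linarith
  have d12 : 0 < y2 - y1 := by linarith
  have d13 : 0 < y3 - y1 := by linarith
  have d23 : 0 < y3 - y2 := by linarith
  have hQ0 : 0 < Q := by linarith
  have hs0 : 0 < s := by linarith
  obtain ⟨W, hW⟩ : ∃ W, W = (y2 - y1) * (y3 - y1) * (y3 - y2) *
      ((1 / y1) ^ (n + 1) * (1 / y2) * (1 / y3)) := ⟨_, rfl⟩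
  have hW0 : 0 < W := by rw [hW]; positivity
  have hlow := T3_low h1 h12 h23 n
  rw [← hW] at hlow
  have hup := T3_up h1 h12 h23 (n + 1)
  have hT0 : 0 ≤ T3 (n + 1 + 1) y1 y2 y3 := le_trans (by positivity) (T3_low h1 h12 h23 (n + 1))
  -- the second term
  have hBT : |B| * T3 (n + 1 + 1) y1 y2 y3 ≤ W / (8 * Q) := by
    have f1 : T3 (n + 1 + 1) y1 y2 y3 ≤ ((n : ℝ) + 2) ^ 2 * (W * (1 / y1)) := by
      refine hup.trans (le_of_eq ?_)
      rw [hW]; push_cast; ring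
    calc |B| * T3 (n + 1 + 1) y1 y2 y3 ≤ Q * (((n : ℝ) + 2) ^ 2 * (W * (1 / y1))) :=
          mul_le_mul hB f1 hT0 hQ0.le
      _ = (Q * ((n : ℝ) + 2) ^ 2 * W) / y1 := by ring
      _ ≤ W / (8 * Q) := by
          rw [div_le_div_iff₀ h1 (by positivity)]
          calc Q * ((n : ℝ) + 2) ^ 2 * W * (8 * Q) = W * (8 * Q ^ 2 * ((n : ℝ) + 2) ^ 2) := by ring
            _ ≤ W * y1 := mul_le_mul_of_nonneg_left hy1 hW0.le
  -- the error terms
  have hsy1 : 1 / y1 ≤ 1 / s := one_div_le_one_div_of_le hs0 hsy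
  have ks : 1 / s * s = 1 := by field_simp
  have r12 : 1 / y1 * y2 ≤ (y2 - y1) * (2 / s) := by
    have : 1 / y1 * y2 = 1 + (y2 - y1) * (1 / y1) := by field_simp; ring
    rw [this]
    have k1 : 1 ≤ (y2 - y1) * (1 / s) := by
      calc (1 : ℝ) = s * (1 / s) := by rw [mul_comm]; exact ks.symm
        _ ≤ _ := mul_le_mul_of_nonneg_right s12 (by positivity)
    have k2 : (y2 - y1) * (1 / y1) ≤ (y2 - y1) * (1 / s) := mul_le_mul_of_nonneg_left hsy1 d12.le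
    have k3 : (y2 - y1) * (2 / s) = (y2 - y1) * (1 / s) + (y2 - y1) * (1 / s) := by ring
    linarith
  have r13 : 1 / y1 * y3 ≤ (y3 - y1) * (2 / s) := by
    have : 1 / y1 * y3 = 1 + (y3 - y1) * (1 / y1) := by field_simp; ring
    rw [this]
    have k1 : 1 ≤ (y3 - y1) * (1 / s) := by
      calc (1 : ℝ) = s * (1 / s) := by rw [mul_comm]; exact ks.symm
        _ ≤ _ := mul_le_mul_of_nonneg_right (by linarith) (by positivity)
    have k2 : (y3 - y1) * (1 / y1) ≤ (y3 - y1) * (1 / s) := mul_le_mul_of_nonneg_left hsy1 d13.le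
    have k3 : (y3 - y1) * (2 / s) = (y3 - y1) * (1 / s) + (y3 - y1) * (1 / s) := by ring
    linarith
  have r23 : 1 / y2 * y3 ≤ (y3 - y2) * (2 / s) := by
    have : 1 / y2 * y3 = 1 + (y3 - y2) * (1 / y2) := by field_simp; ring
    rw [this]
    have k1 : 1 ≤ (y3 - y2) * (1 / s) := by
      calc (1 : ℝ) = s * (1 / s) := by rw [mul_comm]; exact ks.symm
        _ ≤ _ := mul_le_mul_of_nonneg_right s23 (by positivity)
    have k2 : (y3 - y2) * (1 / y2) ≤ (y3 - y2) * (1 / s) :=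
      mul_le_mul_of_nonneg_left (i2.trans hsy1) d23.le
    have k3 : (y3 - y2) * (2 / s) = (y3 - y2) * (1 / s) + (y3 - y2) * (1 / s) := by ring
    linarith
  have hs2 : 36 * Q ^ 2 ≤ s ^ 2 := by
    calc 36 * Q ^ 2 = (6 * Q) ^ 2 := by ring
      _ ≤ s ^ 2 := pow_le_pow_left₀ (by positivity) hs 2
  have hQ2 : 0 < Q ^ 2 := by positivity
  have hq4 : 8 * Q ^ 2 * (4 / s ^ 2) ≤ 1 := by
    rw [mul_div_assoc', div_le_one (by positivity)]
    linarith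
  have k22 : 1 / y2 * y2 = 1 := by field_simp
  have k33 : 1 / y3 * y3 = 1 := by field_simp
  -- first
  have E1 : (y3 - y2) * (Q * (1 / y1) ^ (n + 3)) ≤ W / (8 * Q) := by
    have g1 : 1 / y1 * y2 * (1 / y1 * y3) ≤ (y2 - y1) * (2 / s) * ((y3 - y1) * (2 / s)) :=
      mul_le_mul r12 r13 (by positivity) (by positivity)
    have g2 : 8 * Q ^ 2 * (1 / y1 * y2 * (1 / y1 * y3)) ≤ (y2 - y1) * (y3 - y1) := by
      calc 8 * Q ^ 2 * (1 / y1 * y2 * (1 / y1 * y3))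
          ≤ 8 * Q ^ 2 * ((y2 - y1) * (2 / s) * ((y3 - y1) * (2 / s))) :=
            mul_le_mul_of_nonneg_left g1 (by positivity)
        _ = (8 * Q ^ 2 * (4 / s ^ 2)) * ((y2 - y1) * (y3 - y1)) := by field_simp; ring
        _ ≤ 1 * ((y2 - y1) * (y3 - y1)) := mul_le_mul_of_nonneg_right hq4 (by positivity)
        _ = _ := one_mul _
    rw [le_div_iff₀ (by positivity), hW]
    calc (y3 - y2) * (Q * (1 / y1) ^ (n + 3)) * (8 * Q)
        = (y3 - y2) * (Q * (1 / y1) ^ (n + 3)) * (8 * Q) * (1 / y2 * y2 * (1 / y3 * y3)) := by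
          rw [k22, k33, mul_one, mul_one]
      _ = (8 * Q ^ 2 * (1 / y1 * y2 * (1 / y1 * y3))) * ((y3 - y2) *
          ((1 / y1) ^ (n + 1) * (1 / y2) * (1 / y3))) := by ring
      _ ≤ ((y2 - y1) * (y3 - y1)) * ((y3 - y2) * ((1 / y1) ^ (n + 1) * (1 / y2) * (1 / y3))) :=
          mul_le_mul_of_nonneg_right g2 (by positivity)
      _ = _ := by ring
  have hpow2 : (1 / y2) ^ (n + 1) ≤ (1 / y1) ^ (n + 1) := pow_le_pow_left₀ (by positivity) i2 _
  have hpow3 : (1 / y3) ^ (n + 1) ≤ (1 / y1) ^ (n + 1) :=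
    pow_le_pow_left₀ (by positivity) (i1.trans i2) _
  have E2 : (y3 - y1) * (Q * (1 / y2) ^ (n + 3)) ≤ W / (8 * Q) := by
    have g1 : 8 * Q ^ 2 * (1 / y2 * y3) ≤ (y2 - y1) * (y3 - y2) := by
      calc 8 * Q ^ 2 * (1 / y2 * y3) ≤ 8 * Q ^ 2 * ((y3 - y2) * (2 / s)) :=
            mul_le_mul_of_nonneg_left r23 (by positivity)
        _ = (16 * Q ^ 2 / s) * (y3 - y2) := by ring
        _ ≤ (y2 - y1) * (y3 - y2) := by
            apply mul_le_mul_of_nonneg_right _ d23.le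
            refine le_trans ?_ s12
            rw [div_le_iff₀ hs0, ← sq]
            linarith
    rw [le_div_iff₀ (by positivity), hW]
    calc (y3 - y1) * (Q * (1 / y2) ^ (n + 3)) * (8 * Q)
        = (y3 - y1) * (Q * (1 / y2) ^ (n + 3)) * (8 * Q) * (1 / y3 * y3) := by rw [k33, mul_one]
      _ = (1 / y2) ^ (n + 1) * (8 * Q ^ 2 * (1 / y2 * y3) * ((y3 - y1) *
          ((1 / y2) * (1 / y3)))) := by ring
      _ ≤ (1 / y1) ^ (n + 1) * (((y2 - y1) * (y3 - y2)) * ((y3 - y1) * ((1 / y2) * (1 / y3)))) := by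
          apply mul_le_mul hpow2 _ (by positivity) (by positivity)
          exact mul_le_mul_of_nonneg_right g1 (by positivity)
      _ = _ := by ring
  have E3 : (y2 - y1) * (Q * (1 / y3) ^ (n + 3)) ≤ W / (8 * Q) := by
    have g1 : 8 * Q ^ 2 ≤ (y3 - y1) * (y3 - y2) := by
      have : s * s ≤ (y3 - y1) * (y3 - y2) := mul_le_mul (by linarith) s23 hs0.le d13.le
      rw [← sq] at this
      linarith
    rw [le_div_iff₀ (by positivity), hW]
    calc (y2 - y1) * (Q * (1 / y3) ^ (n + 3)) * (8 * Q)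
        = (1 / y3) ^ (n + 1) * ((1 / y3) * (8 * Q ^ 2 * ((y2 - y1) * (1 / y3)))) := by ring
      _ ≤ (1 / y1) ^ (n + 1) * ((1 / y2) * (((y3 - y1) * (y3 - y2)) * ((y2 - y1) * (1 / y3)))) := by
          apply mul_le_mul hpow3 _ (by positivity) (by positivity)
          apply mul_le_mul i1 _ (by positivity) (by positivity)
          exact mul_le_mul_of_nonneg_right g1 (by positivity)
      _ = _ := by ring
  -- conclusion
  obtain ⟨δ1, hδ1⟩ : ∃ δ, δ = ε1 - A * (1 / y1) ^ (n + 1) - B * (1 / y1) ^ (n + 2) := ⟨_, rfl⟩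
  obtain ⟨δ2, hδ2⟩ : ∃ δ, δ = ε2 - A * (1 / y2) ^ (n + 1) - B * (1 / y2) ^ (n + 2) := ⟨_, rfl⟩
  obtain ⟨δ3, hδ3⟩ : ∃ δ, δ = ε3 - A * (1 / y3) ^ (n + 1) - B * (1 / y3) ^ (n + 2) := ⟨_, rfl⟩
  rw [← hδ1] at e1
  rw [← hδ2] at e2
  rw [← hδ3] at e3
  have key : A * T3 (n + 1) y1 y2 y3 = -(B * T3 (n + 1 + 1) y1 y2 y3 + (y3 - y2) * δ1 -
      (y3 - y1) * δ2 + (y2 - y1) * δ3) := by
    unfold T3
    rw [hδ1, hδ2, hδ3]
    linear_combination h0
  have hkey := congrArg abs key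
  rw [abs_neg, abs_mul, abs_of_pos (lt_of_lt_of_le hW0 hlow)] at hkey
  have u1 : |(y3 - y2) * δ1| ≤ W / (8 * Q) := by
    rw [abs_mul, abs_of_pos d23]
    exact (mul_le_mul_of_nonneg_left e1 d23.le).trans E1
  have u2 : |(y3 - y1) * δ2| ≤ W / (8 * Q) := by
    rw [abs_mul, abs_of_pos d13]
    exact (mul_le_mul_of_nonneg_left e2 d13.le).trans E2
  have u3 : |(y2 - y1) * δ3| ≤ W / (8 * Q) := by
    rw [abs_mul, abs_of_pos d12]
    exact (mul_le_mul_of_nonneg_left e3 d12.le).trans E3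
  have u4 : |B * T3 (n + 1 + 1) y1 y2 y3| ≤ W / (8 * Q) := by
    rw [abs_mul, abs_of_nonneg hT0]
    exact hBT
  have v1 := abs_add_le (B * T3 (n + 1 + 1) y1 y2 y3 + (y3 - y2) * δ1 - (y3 - y1) * δ2)
    ((y2 - y1) * δ3)
  have v2 := abs_sub (B * T3 (n + 1 + 1) y1 y2 y3 + (y3 - y2) * δ1) ((y3 - y1) * δ2)
  have v3 := abs_add_le (B * T3 (n + 1 + 1) y1 y2 y3) ((y3 - y2) * δ1)
  have w1 : W / Q ≤ |A| * T3 (n + 1) y1 y2 y3 := by
    calc W / Q = 1 / Q * W := by ring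
      _ ≤ |A| * T3 (n + 1) y1 y2 y3 := mul_le_mul hA hlow hW0.le (abs_nonneg _)
  have w2 : W / Q = 8 * (W / (8 * Q)) := by field_simp
  have w3 : 0 < W / (8 * Q) := by positivity
  linarith

end

end Pool.Agent.H91ES
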