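import Pool.Agent.H91ES.Low
import Pool.Agent.H91ES.Three
import Pool.Agent.H322R2.DFlex

set_option autoImplicit false
set_option linter.unusedSectionVars false

/-!
Large integer points of one line near a branch whose asymptote meets the curve with small
multiplicity at infinity.
-/

open Polynomial Finset

namespace Pool.Agent.H91ES

open Pool.Agent.H322R2

section

variable {d : ℕ} {G : ℤ[X][X]} {η H K : ℝ} (hd : 4 ≤ d) (hm : G.Monic) (hdeg : G.natDegree = d)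
  (hT : TD d G) (hH : 1 ≤ H) (hG : pn (pn zn) G ≤ H)
  (hirr : Irreducible ((lead d G).map (Int.castRingHom ℚ)))
  (hη : evf η (lead d G) = 0) (hK : K = 2 + 2 * H)

include hd hm hdeg hH hG hirr hη in
lemma der_low : 1 ≤ |evf η (derivative (lead d G))| * cD d (2 * H) := by
  have hd0 : 0 < d := by omega
  obtain ⟨hgm, hgd⟩ := lead_monic hm hdeg
  have hpg : pn zn (lead d G) ≤ H := (pn_lead_le hdeg.le).trans hG
  have hηH : |η| ≤ H := root_norm_le (lead d G) hgm H hH hpg η hη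
  have hgd' : (derivative (lead d G)).natDegree ≤ d := (natDegree_derivative_le _).trans (by omega)
  have hpd : pn zn (derivative (lead d G)) ≤ d * (2 * H) := by
    refine (pn_derivative_le zn _).trans ?_
    rw [hgd]
    exact mul_le_mul_of_nonneg_left (by linarith) (by positivity)
  have hdR : (4 : ℝ) ≤ d := by exact_mod_cast hd
  have hder0 : derivative (lead d G) ≠ 0 := by
    intro h
    have h1 := natDegree_eq_zero_of_derivative_eq_zero h
    omega
  exact one_le_of_root (lead d G) d hd0 hgm hgd (derivative (lead d G))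
      (nrm_ne_of_irr_deg hgm hgd hirr _ hder0 (by
        have := natDegree_derivative_le (lead d G); omega))
      (1 + 2 * H) (d * (2 * H)) (by linarith) (by linarith) hpd (by nlinarith) hgd' η hη
      (by rw [Real.norm_eq_abs]; linarith)

include hd hm hdeg hH hG hirr hη in
lemma der_pos : 0 < |evf η (derivative (lead d G))| := by
  have h1 := der_low hd hm hdeg hH hG hirr hη
  by_contra hcon
  have : |evf η (derivative (lead d G))| = 0 := le_antisymm (not_lt.1 hcon) (abs_nonneg _)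
  rw [this, zero_mul] at h1
  linarith

include hd hm hdeg hH hG hirr hη hK in
lemma der_low' : 1 ≤ |evf η (derivative (lead d G))| * K ^ (3 * d ^ 2 + 3 * d) := by
  refine (der_low hd hm hdeg hH hG hirr hη).trans ?_
  apply mul_le_mul_of_nonneg_left _ (abs_nonneg _)
  rw [hK]
  exact cD_le (by linarith)

include hm hdeg hH hG hη in
lemma eta_le : |η| ≤ H :=
  root_norm_le (lead d G) (lead_monic hm hdeg).1 H hH ((pn_lead_le hdeg.le).trans hG) η hη

include hd hm hdeg hT hH hG hη hK in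
lemma der_up : |evf η (derivative (lead d G))| ≤ K ^ (d + 1) := by
  have hηH := eta_le hm hdeg hH hG hη
  have h1 := tay_le (η := η) hT hG (0, 1) (by simp; omega)
  rw [tay01 (by omega) hT] at h1
  refine h1.trans ?_
  rw [pow_succ, mul_comm]
  apply mul_le_mul _ (by linarith) (by linarith) (by rw [hK]; positivity)
  exact pow_le_pow_left₀ (by positivity) (by linarith) _

include hd hm hdeg hH hG hirr hη in
lemma MS_le : (2 * H) * (1 + |η|) ^ d ≤ cSS d (2 * H) * |evf η (derivative (lead d G))| := by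
  have hηH := eta_le hm hdeg hH hG hη
  have hder := der_low hd hm hdeg hH hG hirr hη
  have hcS := one_le_cS (d := d) (show 1 ≤ 2 * H by linarith)
  have h1 : (2 * H) * (1 + |η|) ^ d ≤ cS d (2 * H) := by
    unfold cS
    apply mul_le_mul_of_nonneg_left _ (by linarith)
    exact pow_le_pow_left₀ (by positivity) (by linarith) _
  refine h1.trans ?_
  unfold cSS
  calc cS d (2 * H) = 1 * cS d (2 * H) := (one_mul _).symm
    _ ≤ (|evf η (derivative (lead d G))| * cD d (2 * H)) * cS d (2 * H) :=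
        mul_le_mul_of_nonneg_right hder (by linarith)
    _ = _ := by ring

include hd hm hdeg hT hH hG hirr hη hK in
lemma bgk_bound : |bet d G η| ≤ K ^ (3 * d ^ 2 + 4 * d + 1) ∧ |gam d G η| ≤ K ^ (64 * d ^ 3) ∧
    |kpp d G η| ≤ K ^ (64 * d ^ 3) := by
  have hH'1 : 1 ≤ 2 * H := by linarith
  have hS1 := one_le_cSS hd hH'1
  obtain ⟨hb, hgm1, hk⟩ := bgk_le (M := 2 * H) (by omega) hT (by linarith) hS1
    (der_pos hd hm hdeg hH hG hirr hη) (MS_le hd hm hdeg hH hG hirr hη)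
  have hSK := cSS_le hd hH'1
  have hQle := cQ_le hd hH'1 (by linarith)
  rw [← hK] at hSK hQle
  have hS5Q : 13 * cSS d (2 * H) ^ 5 ≤ K ^ (64 * d ^ 3) := by
    refine le_trans ?_ hQle
    have h3 : 13 * cSS d (2 * H) ^ 5 ≤ (36 * cSS d (2 * H) ^ 5) ^ d := by
      have h2 : 1 ≤ cSS d (2 * H) ^ 5 := one_le_pow₀ hS1
      calc 13 * cSS d (2 * H) ^ 5 ≤ 36 * cSS d (2 * H) ^ 5 := by linarith
        _ = (36 * cSS d (2 * H) ^ 5) ^ 1 := (pow_one _).symm
        _ ≤ _ := pow_le_pow_right₀ (by linarith) (by omega)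
    refine h3.trans ?_
    apply le_mul_of_one_le_left (by positivity)
    linarith
  have hS35 : cSS d (2 * H) ^ 3 ≤ cSS d (2 * H) ^ 5 := pow_le_pow_right₀ hS1 (by norm_num)
  have hS50 : 0 < cSS d (2 * H) ^ 5 := by positivity
  exact ⟨by linarith, by linarith, by linarith⟩

lemma kap_ge (d : ℕ) : 10 ^ 6 ≤ kap d := by
  unfold kap
  have h1 : 1 ≤ 36 ^ d := Nat.one_le_pow _ _ (by norm_num)
  have h2 : 1 ≤ (d + 1) ^ 4 := Nat.one_le_pow _ _ (by omega)
  calc 10 ^ 6 = 10 ^ 6 * 1 * 1 := by norm_num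
    _ ≤ _ := Nat.mul_le_mul (Nat.mul_le_mul_left _ h1) h2

lemma E1_ge (d : ℕ) : 10 ^ 9 * d ^ 5 ≤ E1 d := by
  unfold E1
  calc 10 ^ 9 * d ^ 5 ≤ 1280 * d ^ 5 * 10 ^ 6 := by
        have : 10 ^ 9 * d ^ 5 ≤ 1280 * 10 ^ 6 * d ^ 5 := Nat.mul_le_mul_right _ (by norm_num)
        linarith
    _ ≤ _ := Nat.mul_le_mul_left _ (kap_ge d)

/-- the deviation of a point of a perturbed curve from the asymptote -/
lemma eps_le (hd : 4 ≤ d) (hm : G.Monic) (hdeg : G.natDegree = d)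
    (hT : TD d G) (hH : 1 ≤ H) (hG : pn (pn zn) G ≤ H)
    (hirr : Irreducible ((lead d G).map (Int.castRingHom ℚ)))
    (hη : evf η (lead d G) = 0) (hK : K = 2 + 2 * H) {R : ℤ[X][X]} {P : ℤ × ℤ}
    (h1 : K ^ (E1 d) ≤ |(P.1 : ℝ)|)
    (h2 : |(P.2 : ℝ) / P.1 - η| ≤ cR d (2 * H)) (hR1 : TD (d - 4) R) (hR2 : pn (pn zn) R ≤ H)
    (hR4 : ev P.1 P.2 (G + R) = 0) :
    |(P.2 : ℝ) - η * P.1 - bet d G η| ≤ 3 * K ^ (64 * d ^ 3) * |((P.1 : ℝ))⁻¹| := by
  have hH'1 : 1 ≤ 2 * H := by linarith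
  have hK4 : 4 ≤ K := by linarith
  have hK1 : 1 ≤ K := by linarith
  have hS1 := one_le_cSS hd hH'1
  have hSK := cSS_le hd hH'1
  have hQle := cQ_le hd hH'1 (by linarith)
  rw [← hK] at hSK hQle
  have hT' := TD_add hd hT hR1
  have hlead := lead_add_of_TD (G := G) hd hR1 0 (by omega)
  rw [Nat.sub_zero] at hlead
  have hpn' : pn (pn zn) (G + R) ≤ 2 * H := (map_add_le_add _ _ _).trans (by linarith)
  have hd0 : 0 < d := by omega
  have h3 := exp_lemma (M := 2 * H) (S := cSS d (2 * H)) (G := G + R) (η := η) (by omega) hT' hpn'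
    hS1 (by rw [hlead]; exact hη) (by rw [hlead]; exact der_pos hd hm hdeg hH hG hirr hη)
    (by rw [hlead]; exact MS_le hd hm hdeg hH hG hirr hη) hR4
    (by
      refine le_trans ?_ h1
      have h4 : (d : ℝ) + 1 ≤ K ^ d := by rw [hK]; exact d1_le_pow hd0 hH'1
      calc 34 * ((d : ℝ) + 1) * cSS d (2 * H) ^ 6 ≤
            K ^ 3 * K ^ d * (K ^ (3 * d ^ 2 + 4 * d + 1)) ^ 6 := by
            apply mul_le_mul _ (pow_le_pow_left₀ (by linarith) hSK 6) (by positivity)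
              (by positivity)
            apply mul_le_mul _ h4 (by positivity) (by positivity)
            calc (34 : ℝ) ≤ 4 ^ 3 := by norm_num
              _ ≤ K ^ 3 := pow_le_pow_left₀ (by norm_num) hK4 3
        _ = K ^ (3 + d + (3 * d ^ 2 + 4 * d + 1) * 6) := by
            rw [← pow_mul, ← pow_add, ← pow_add]
        _ ≤ K ^ (E1 d) := by
            apply pow_le_pow_right₀ hK1
            refine le_trans ?_ (E1_ge d)
            have h7 : d ^ 2 ≤ d ^ 5 := Nat.pow_le_pow_right hd0 (by norm_num)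
            have h8 : d ≤ d ^ 5 := Nat.le_self_pow (by norm_num) d
            omega)
    (by
      refine h2.trans (le_of_eq ?_)
      unfold Pool.Agent.H322R2.cR cSS
      congr 1; ring)
  rw [bet_add hd hT hR1, gam_add hd hT hR1, kpp_add hd hT hR1] at h3
  have h4 := h3.mono hQle
  obtain ⟨-, hg, hk⟩ := bgk_bound hd hm hdeg hT hH hG hirr hη hK
  unfold Nr at h4
  obtain ⟨Q, hQ⟩ : ∃ Q, Q = K ^ (64 * d ^ 3) := ⟨_, rfl⟩
  rw [← hQ] at h4 hg hk ⊢
  have hP1 : 1 ≤ |(P.1 : ℝ)| := (one_le_pow₀ hK1).trans h1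
  have hP0 : 0 < |(P.1 : ℝ)| := by linarith
  have hQ0 : 0 ≤ Q := (abs_nonneg _).trans hg
  obtain ⟨z, hz⟩ : ∃ z, z = |((P.1 : ℝ))⁻¹| := ⟨_, rfl⟩
  have hz0 : 0 ≤ z := by rw [hz]; exact abs_nonneg _
  have hz1 : z ≤ 1 := by
    rw [hz, abs_inv]
    exact inv_le_one_of_one_le₀ hP1
  rw [← hz]
  have e1 : |gam d G η / (P.1 : ℝ)| ≤ Q * z := by
    rw [div_eq_mul_inv, abs_mul, ← hz]
    exact mul_le_mul_of_nonneg_right hg hz0
  have e2 : |kpp d G η / (P.1 : ℝ) ^ 2| ≤ Q * z := by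
    rw [div_eq_mul_inv, abs_mul, ← inv_pow, abs_pow, ← hz]
    apply mul_le_mul hk _ (by positivity) hQ0
    nlinarith
  have e3 : Q / |(P.1 : ℝ)| ^ 3 ≤ Q * z := by
    rw [div_eq_mul_inv, ← inv_pow, ← abs_inv, ← hz]
    apply mul_le_mul_of_nonneg_left _ hQ0
    calc z ^ 3 ≤ z ^ 1 := pow_le_pow_of_le_one hz0 hz1 (by norm_num)
      _ = z := pow_one z
  have h5 : (P.2 : ℝ) - η * P.1 - bet d G η = ((P.2 : ℝ) - η * P.1 - bet d G η - gam d G η / P.1 -
      kpp d G η / (P.1 : ℝ) ^ 2) + gam d G η / P.1 + kpp d G η / (P.1 : ℝ) ^ 2 := by ring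
  rw [h5]
  refine (abs_add_le _ _).trans ?_
  have h6 := abs_add_le ((P.2 : ℝ) - η * P.1 - bet d G η - gam d G η / P.1 -
      kpp d G η / (P.1 : ℝ) ^ 2) (gam d G η / P.1)
  linarith

/-- bound for the restriction of the curve and its derivative to the asymptote -/
lemma bound_Ln (hd : 4 ≤ d) (hm : G.Monic) (hdeg : G.natDegree = d)
    (hT : TD d G) (hH : 1 ≤ H) (hG : pn (pn zn) G ≤ H)
    (hirr : Irreducible ((lead d G).map (Int.castRingHom ℚ)))
    (hη : evf η (lead d G) = 0) (hK : K = 2 + 2 * H) :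
    H * 2 ^ d * (2 + |η| + |bet d G η|) ^ d ≤ K ^ (5 * d ^ 3) ∧
    pn rn (Ln G η (bet d G η)) ≤ K ^ (5 * d ^ 3) ∧
    pn rn (Ln (derivative G) η (bet d G η)) ≤ K ^ (5 * d ^ 3) := by
  have hH'1 : 1 ≤ 2 * H := by linarith
  have hK4 : 4 ≤ K := by linarith
  have hK1 : 1 ≤ K := by linarith
  have hK0 : 0 ≤ K := by linarith
  have hηH := eta_le hm hdeg hH hG hη
  obtain ⟨hb, -, -⟩ := bgk_bound hd hm hdeg hT hH hG hirr hη hK
  obtain ⟨s, hs⟩ : ∃ s, s = 3 * d ^ 2 + 4 * d + 1 := ⟨_, rfl⟩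
  rw [← hs] at hb
  have h1 : 2 + |η| + |bet d G η| ≤ K ^ (s + 1) := by
    have e1 : K ≤ K ^ s := by
      calc K = K ^ 1 := (pow_one K).symm
        _ ≤ K ^ s := pow_le_pow_right₀ hK1 (by omega)
    rw [pow_succ]
    nlinarith
  have h2 : (2 + |η| + |bet d G η|) ^ d ≤ K ^ ((s + 1) * d) := by
    rw [pow_mul]
    exact pow_le_pow_left₀ (by positivity) h1 _
  have hdK : (d : ℝ) ≤ K ^ d := by rw [hK]; exact d_le_pow hH'1
  have h2K : (2 : ℝ) ^ d ≤ K ^ d := pow_le_pow_left₀ (by norm_num) (by linarith) _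
  have hexp : d + 1 + d + (s + 1) * d ≤ 5 * d ^ 3 := by
    rw [hs]
    nlinarith [Nat.mul_le_mul hd hd, Nat.mul_le_mul (Nat.mul_le_mul hd hd) hd,
          Nat.mul_le_mul hd (le_refl (d ^ 2)), Nat.mul_le_mul hd (le_refl d)]
  have hmain : (d : ℝ) * H * 2 ^ d * (2 + |η| + |bet d G η|) ^ d ≤ K ^ (5 * d ^ 3) := by
    calc (d : ℝ) * H * 2 ^ d * (2 + |η| + |bet d G η|) ^ d ≤
          K ^ d * K ^ 1 * K ^ d * K ^ ((s + 1) * d) := by
          apply mul_le_mul _ h2 (by positivity) (by positivity)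
          apply mul_le_mul _ h2K (by positivity) (by positivity)
          exact mul_le_mul hdK (by rw [pow_one]; linarith) (by linarith) (by positivity)
      _ = K ^ (d + 1 + d + (s + 1) * d) := by rw [← pow_add, ← pow_add, ← pow_add]
      _ ≤ _ := pow_le_pow_right₀ hK1 hexp
  have hd1 : (1 : ℝ) ≤ d := by exact_mod_cast (by omega : 1 ≤ d)
  have hc0 : 0 ≤ H * 2 ^ d * (2 + |η| + |bet d G η|) ^ d := by positivity
  have hA : H * 2 ^ d * (2 + |η| + |bet d G η|) ^ d ≤ K ^ (5 * d ^ 3) := by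
    refine le_trans ?_ hmain
    calc H * 2 ^ d * (2 + |η| + |bet d G η|) ^ d = 1 * (H * 2 ^ d * (2 + |η| + |bet d G η|) ^ d) :=
          (one_mul _).symm
      _ ≤ d * (H * 2 ^ d * (2 + |η| + |bet d G η|) ^ d) := mul_le_mul_of_nonneg_right hd1 hc0
      _ = _ := by ring
  have h12 : (1 + |η| + |bet d G η|) ^ d ≤ (2 + |η| + |bet d G η|) ^ d :=
    pow_le_pow_left₀ (by positivity) (by linarith) _
  refine ⟨hA, ?_, ?_⟩
  · refine (pn_Ln_le hT η _).trans (le_trans ?_ hA)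
    apply mul_le_mul _ h12 (by positivity) (by positivity)
    exact mul_le_mul_of_nonneg_right hG (by positivity)
  · have hT1 : TD d (derivative G) := TD_mono (TD_derivative hT (by omega)) (by omega)
    refine (pn_Ln_le hT1 η _).trans (le_trans ?_ hmain)
    have hpd : pn (pn zn) (derivative G) ≤ d * H := by
      refine (pn_derivative_le (pn zn) _).trans ?_
      rw [hdeg]
      exact mul_le_mul_of_nonneg_left hG (by positivity)
    apply mul_le_mul _ h12 (by positivity) (by positivity)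
    exact mul_le_mul_of_nonneg_right hpd (by positivity)

lemma coeff_abs_le {p : ℝ[X]} {B : ℝ} (h : pn rn p ≤ B) (i : ℕ) : |p.coeff i| ≤ B := by
  have := coeff_le_pn rn p i
  rw [rn_apply] at this
  exact this.trans h

/-- the first coefficient of the expansion -/
noncomputable def cA (d : ℕ) (G : ℤ[X][X]) (η : ℝ) (k : ℕ) : ℝ :=
  -((Ln G η (bet d G η)).coeff (k + 2) / (Ln (derivative G) η (bet d G η)).coeff (d - 1))

/-- the second coefficient of the expansion -/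
noncomputable def cB (d : ℕ) (G : ℤ[X][X]) (η : ℝ) (k : ℕ) : ℝ :=
  -((Ln G η (bet d G η)).coeff (k + 1) / (Ln (derivative G) η (bet d G η)).coeff (d - 1)) +
    (Ln G η (bet d G η)).coeff (k + 2) * (Ln (derivative G) η (bet d G η)).coeff (d - 2) /
      (Ln (derivative G) η (bet d G η)).coeff (d - 1) ^ 2

lemma coeff_D (hd : 4 ≤ d) (hT : TD d G) :
    (Ln (derivative G) η (bet d G η)).coeff (d - 1) = evf η (derivative (lead d G)) := by
  rw [coeff_Ln_top (TD_derivative hT (by omega)), derivative_lead G (by omega)]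

lemma cAB_bound (hd : 4 ≤ d) (hm : G.Monic) (hdeg : G.natDegree = d)
    (hT : TD d G) (hH : 1 ≤ H) (hG : pn (pn zn) G ≤ H)
    (hirr : Irreducible ((lead d G).map (Int.castRingHom ℚ)))
    (hη : evf η (lead d G) = 0) (hK : K = 2 + 2 * H) {k : ℕ}
    (hk : (Ln G η (bet d G η)).natDegree = k + 2) :
    1 / K ^ (400 * d ^ 3) ≤ |cA d G η k| ∧ |cB d G η k| ≤ K ^ (400 * d ^ 3) := by
  have hK4 : 4 ≤ K := by linarith
  have hK1 : 1 ≤ K := by linarith
  have hK0 : 0 < K := by linarith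
  have hDpos := der_pos hd hm hdeg hH hG hirr hη
  have hDlow := der_low' hd hm hdeg hH hG hirr hη hK
  have hDup := der_up hd hm hdeg hT hH hG hη hK
  obtain ⟨-, hL, hL1⟩ := bound_Ln hd hm hdeg hT hH hG hirr hη hK
  have hdk := natDegree_Ln_bet (by omega) hT hη (abs_pos.1 hDpos)
  have hne : (Ln G η (bet d G η)).coeff (k + 2) ≠ 0 := by
    rw [← hk, coeff_natDegree, Ne, leadingCoeff_eq_zero]
    intro h
    rw [h, natDegree_zero] at hk
    omega
  have hlow := low_coeff hd hm hdeg hT hH hG hirr hη (abs_pos.1 hDpos) (k := k + 2) (by omega) hne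
    hK
  have a0 := coeff_abs_le hL (k + 2)
  have a1 := coeff_abs_le hL (k + 1)
  have b1 := coeff_abs_le hL1 (d - 2)
  unfold cA cB
  rw [coeff_D hd hT]
  obtain ⟨D, hD⟩ : ∃ D, D = evf η (derivative (lead d G)) := ⟨_, rfl⟩
  rw [← hD] at hDpos hDlow hDup ⊢
  obtain ⟨l0, hl0⟩ : ∃ l0, l0 = (Ln G η (bet d G η)).coeff (k + 2) := ⟨_, rfl⟩
  obtain ⟨l1, hl1⟩ : ∃ l1, l1 = (Ln G η (bet d G η)).coeff (k + 1) := ⟨_, rfl⟩
  obtain ⟨D1, hD1⟩ : ∃ D1, D1 = (Ln (derivative G) η (bet d G η)).coeff (d - 2) := ⟨_, rfl⟩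
  rw [← hl0] at hlow a0 ⊢
  rw [← hl1] at a1 ⊢
  rw [← hD1] at b1 ⊢
  constructor
  · rw [abs_neg, abs_div, div_le_div_iff₀ (by positivity) hDpos, one_mul]
    calc |D| ≤ K ^ (d + 1) * 1 := by rw [mul_one]; exact hDup
      _ ≤ K ^ (d + 1) * (|l0| * K ^ (6 * d ^ 3)) := mul_le_mul_of_nonneg_left hlow (by positivity)
      _ = |l0| * K ^ (d + 1 + 6 * d ^ 3) := by rw [pow_add]; ring
      _ ≤ |l0| * K ^ (400 * d ^ 3) := by
          apply mul_le_mul_of_nonneg_left _ (abs_nonneg _)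
          apply pow_le_pow_right₀ hK1
          have : d ≤ d ^ 3 := Nat.le_self_pow (by norm_num) d
          omega
  · have hinv : 1 / |D| ≤ K ^ (3 * d ^ 2 + 3 * d) := by
      rw [div_le_iff₀ hDpos]; linarith
    obtain ⟨E, hE⟩ : ∃ E, E = K ^ (5 * d ^ 3) := ⟨_, rfl⟩
    have hEinv : 1 / |D| ≤ E := by
      refine hinv.trans ?_
      rw [hE]
      apply pow_le_pow_right₀ hK1
      nlinarith [Nat.mul_le_mul hd hd, Nat.mul_le_mul (Nat.mul_le_mul hd hd) hd,
          Nat.mul_le_mul hd (le_refl (d ^ 2)), Nat.mul_le_mul hd (le_refl d)]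
    rw [← hE] at a0 a1 b1
    have hE1 : 1 ≤ E := by rw [hE]; exact one_le_pow₀ hK1
    have hi0 : 0 < 1 / |D| := by positivity
    have t1 : |l1 / D| ≤ E * E := by
      rw [div_eq_mul_one_div, abs_mul, abs_div, abs_one]
      exact mul_le_mul a1 hEinv hi0.le (by linarith)
    have t2 : |l0 * D1 / D ^ 2| ≤ E * E * (E * E) := by
      have : l0 * D1 / D ^ 2 = (l0 * D1) * ((1 / D) * (1 / D)) := by
        field_simp
      rw [this, abs_mul, abs_mul, abs_mul, abs_div, abs_one]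
      apply mul_le_mul (mul_le_mul a0 b1 (abs_nonneg _) (by linarith))
        (mul_le_mul hEinv hEinv hi0.le (by linarith)) (by positivity) (by positivity)
    have t3 : |-(l1 / D) + l0 * D1 / D ^ 2| ≤ E * E + E * E * (E * E) := by
      refine (abs_add_le _ _).trans ?_
      rw [abs_neg]
      linarith
    refine t3.trans ?_
    have e1 : E * E + E * E * (E * E) ≤ K * E ^ 4 := by
      have : E * E ≤ E ^ 4 := by
        have e2 : E ^ 4 = E * E * (E * E) := by ring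
        rw [e2]
        have e5 : 1 ≤ E * E := one_le_mul_of_one_le_of_one_le hE1 hE1
        exact le_mul_of_one_le_right (by positivity) e5
      have e3 : 0 ≤ E ^ 4 := by positivity
      nlinarith
    refine e1.trans ?_
    rw [hE, ← pow_mul, ← pow_succ']
    apply pow_le_pow_right₀ hK1
    have : 1 ≤ d ^ 3 := Nat.one_le_pow _ _ (by omega)
    omega

/-- the expansion at a point of a perturbed curve -/
lemma flat_point (hd : 4 ≤ d) (hm : G.Monic) (hdeg : G.natDegree = d)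
    (hT : TD d G) (hH : 1 ≤ H) (hG : pn (pn zn) G ≤ H)
    (hirr : Irreducible ((lead d G).map (Int.castRingHom ℚ)))
    (hη : evf η (lead d G) = 0) (hK : K = 2 + 2 * H) {k e n : ℕ}
    (hk : (Ln G η (bet d G η)).natDegree = k + 2) (hek : e ≤ k) (hn : k + n + 3 = d)
    {R : ℤ[X][X]} {P : ℤ × ℤ} (h1 : K ^ (E1 d) ≤ |(P.1 : ℝ)|)
    (h2 : |(P.2 : ℝ) / P.1 - η| ≤ cR d (2 * H)) (hR1 : TD e R) (hR2 : pn (pn zn) R ≤ H)
    (hR4 : ev P.1 P.2 (G + R) = 0) :
    |((P.2 : ℝ) - η * P.1 - bet d G η) - cA d G η k * ((P.1 : ℝ)⁻¹) ^ n -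
      cB d G η k * ((P.1 : ℝ)⁻¹) ^ (n + 1)| ≤ K ^ (400 * d ^ 3) * |(P.1 : ℝ)⁻¹| ^ (n + 2) := by
  have hK4 : 4 ≤ K := by linarith
  have hK1 : 1 ≤ K := by linarith
  have hK0 : 0 < K := by linarith
  have hDpos := der_pos hd hm hdeg hH hG hirr hη
  have hDlow := der_low' hd hm hdeg hH hG hirr hη hK
  obtain ⟨hC0, hL, hL1⟩ := bound_Ln hd hm hdeg hT hH hG hirr hη hK
  have hdk := natDegree_Ln_bet (by omega) hT hη (abs_pos.1 hDpos)
  have hR1' : TD (d - 4) R := TD_mono hR1 (by omega)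
  have heps := eps_le hd hm hdeg hT hH hG hirr hη hK h1 h2 hR1' hR2 hR4
  have hd3 : 1 ≤ d ^ 3 := Nat.one_le_pow _ _ (by omega)
  have hd35 : d ^ 3 ≤ d ^ 5 := Nat.pow_le_pow_right (by omega) (by norm_num)
  obtain ⟨C, hC⟩ : ∃ C, C = K ^ (65 * d ^ 3) := ⟨_, rfl⟩
  have hC1 : 1 ≤ C := by rw [hC]; exact one_le_pow₀ hK1
  have hEC : K ^ (5 * d ^ 3) ≤ C := by
    rw [hC]; exact pow_le_pow_right₀ hK1 (by omega)
  have h3C : 3 * K ^ (64 * d ^ 3) ≤ C := by
    rw [hC]
    calc 3 * K ^ (64 * d ^ 3) ≤ K * K ^ (64 * d ^ 3) :=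
          mul_le_mul_of_nonneg_right (by linarith) (by positivity)
      _ = K ^ (64 * d ^ 3 + 1) := by rw [← pow_succ']
      _ ≤ _ := pow_le_pow_right₀ hK1 (by omega)
  have hP1 : 1 ≤ |(P.1 : ℝ)| := (one_le_pow₀ hK1).trans h1
  have hP0 : 0 < |(P.1 : ℝ)| := by linarith
  have hPne : (P.1 : ℝ) ≠ 0 := abs_pos.1 hP0
  obtain ⟨z, hz⟩ : ∃ z, z = ((P.1 : ℝ))⁻¹ := ⟨_, rfl⟩
  rw [← hz] at heps ⊢
  have haz : (P.1 : ℝ) * z = 1 := by rw [hz]; exact mul_inv_cancel₀ hPne
  have hz0 : 0 < |z| := by rw [hz]; positivity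
  have hz0' : z ≠ 0 := abs_pos.1 hz0
  have hzC : 4 * C ^ 2 * |z| ≤ 1 := by
    rw [hz, abs_inv]
    rw [mul_inv_le_iff₀ hP0, one_mul]
    refine le_trans ?_ h1
    calc 4 * C ^ 2 ≤ K * C ^ 2 := mul_le_mul_of_nonneg_right hK4 (by positivity)
      _ = K ^ (65 * d ^ 3 * 2 + 1) := by rw [hC, ← pow_mul, ← pow_succ']
      _ ≤ _ := by
          apply pow_le_pow_right₀ hK1
          refine le_trans ?_ (E1_ge d)
          omega
  have hz1 : |z| ≤ 1 := by
    have : 1 ≤ C ^ 2 := one_le_pow₀ hC1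
    nlinarith
  obtain ⟨ε, hε⟩ : ∃ ε, ε = (P.2 : ℝ) - η * P.1 - bet d G η := ⟨_, rfl⟩
  rw [← hε] at heps ⊢
  have hεC : |ε| ≤ C * |z| := heps.trans (mul_le_mul_of_nonneg_right h3C hz0.le)
  have hε1 : |ε| ≤ 1 := by
    refine hεC.trans ?_
    have : C ≤ C ^ 2 := by nlinarith
    nlinarith
  have hpe := point_eq (e := e) (by omega) hT hR1 (M := H) (η := η) (β := bet d G η) hG hR2
    (by omega) haz hz1 (b := P.2) (ε := ε) (by rw [hε]; ring) hε1 (by
      have h5 := map_ev (Int.castRingHom ℝ) P.1 P.2 (G + R)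
      rw [hR4, map_zero] at h5
      exact h5.symm)
  -- the functions
  have hLd : pn rn (Ln G η (bet d G η)) = ∑ i ∈ range (k + 3), |(Ln G η (bet d G η)).coeff i| := by
    rw [pn_eq_range rn _ (show (Ln G η (bet d G η)).natDegree < k + 3 by omega)]
    rfl
  have t1 := top_two (p := Ln G η (bet d G η)) (k := k) (by omega) haz hz1 (hLd ▸ hL)
  have hTD1 : TD (d - 1) (derivative G) := TD_derivative hT (by omega)
  have hn1 := natDegree_Ln hTD1 η (bet d G η)
  have hLd1 : pn rn (Ln (derivative G) η (bet d G η)) =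
      ∑ i ∈ range (d - 3 + 3), |(Ln (derivative G) η (bet d G η)).coeff i| := by
    rw [pn_eq_range rn _ (show (Ln (derivative G) η (bet d G η)).natDegree < d - 3 + 3 by omega)]
    rfl
  have t2 := top_two (p := Ln (derivative G) η (bet d G η)) (k := d - 3) (by omega) haz hz1
    (hLd1 ▸ hL1)
  have e1 : d - 3 + 2 = d - 1 := by omega
  have e2 : d - 3 + 1 = d - 2 := by omega
  rw [e1, e2, coeff_D hd hT] at t2
  obtain ⟨D, hD⟩ : ∃ D, D = evf η (derivative (lead d G)) := ⟨_, rfl⟩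
  obtain ⟨l0, hl0⟩ : ∃ l0, l0 = (Ln G η (bet d G η)).coeff (k + 2) := ⟨_, rfl⟩
  obtain ⟨l1, hl1⟩ : ∃ l1, l1 = (Ln G η (bet d G η)).coeff (k + 1) := ⟨_, rfl⟩
  obtain ⟨D1, hD1⟩ : ∃ D1, D1 = (Ln (derivative G) η (bet d G η)).coeff (d - 2) := ⟨_, rfl⟩
  obtain ⟨Λ, hΛ⟩ : ∃ Λ, Λ = (Ln G η (bet d G η)).eval (P.1 : ℝ) * z ^ (d - 1) := ⟨_, rfl⟩
  obtain ⟨Λ1, hΛ1⟩ : ∃ Λ1, Λ1 = (Ln (derivative G) η (bet d G η)).eval (P.1 : ℝ) * z ^ (d - 1) :=
    ⟨_, rfl⟩
  have a0 : |l0| ≤ C := by rw [hl0]; exact (coeff_abs_le hL _).trans hEC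
  have a1 : |l1| ≤ C := by rw [hl1]; exact (coeff_abs_le hL _).trans hEC
  have b1 : |D1| ≤ C := by rw [hD1]; exact (coeff_abs_le hL1 _).trans hEC
  have hexp : z ^ (d - 1) = z ^ n * z ^ (k + 2) := by rw [← pow_add]; congr 1; omega
  have key := flat_core (z := z) (ε := ε) (Λ := Λ) (Λ1 := Λ1) (D := D) (D1 := D1) (l0 := l0)
    (l1 := l1) (C := C) (n := n) hC1 hzC
    (by
      rw [hD, mul_comm]
      refine hDlow.trans (mul_le_mul_of_nonneg_left ?_ (abs_nonneg _))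
      rw [hC]
      apply pow_le_pow_right₀ hK1
      nlinarith [Nat.mul_le_mul hd hd, Nat.mul_le_mul (Nat.mul_le_mul hd hd) hd,
          Nat.mul_le_mul hd (le_refl (d ^ 2)), Nat.mul_le_mul hd (le_refl d)])
    b1 a0 a1
    (by
      rw [← hl0, ← hl1] at t1
      have : Λ - l0 * z ^ n - l1 * z ^ (n + 1) =
          z ^ n * ((Ln G η (bet d G η)).eval (P.1 : ℝ) * z ^ (k + 2) - l0 - l1 * z) := by
        rw [hΛ, hexp]; ring
      rw [this, abs_mul, abs_pow]
      calc |z| ^ n * _ ≤ |z| ^ n * (K ^ (5 * d ^ 3) * |z| ^ 2) :=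
            mul_le_mul_of_nonneg_left t1 (by positivity)
        _ ≤ |z| ^ n * (C * |z| ^ 2) := by gcongr
        _ = _ := by rw [pow_add]; ring)
    (by
      rw [← hD, ← hD1, ← hΛ1] at t2
      exact t2.trans (mul_le_mul_of_nonneg_right hEC (by positivity)))
    (by
      rw [← hΛ, ← hΛ1, abs_mul] at hpe
      have h6 : |z| * |Λ + ε * Λ1| ≤ |z| * (C * |z| ^ (n + 2) + C * ε ^ 2 * |z|) := by
        refine hpe.trans ?_
        have g1 : |z| ^ (d - e) ≤ |z| ^ (n + 3) :=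
          pow_le_pow_of_le_one hz0.le hz1 (by omega)
        have g0 : 0 ≤ H * 2 ^ d * (2 + |η| + |bet d G η|) ^ d := by positivity
        have g2 := hC0.trans hEC
        calc H * 2 ^ d * (2 + |η| + |bet d G η|) ^ d * |z| ^ (d - e) +
              H * 2 ^ d * (2 + |η| + |bet d G η|) ^ d * (ε * z) ^ 2 ≤
              C * |z| ^ (n + 3) + C * (ε * z) ^ 2 := by
              apply add_le_add
              · exact mul_le_mul g2 g1 (by positivity) (by linarith)
              · exact mul_le_mul_of_nonneg_right g2 (by positivity)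
          _ = _ := by rw [mul_pow, ← sq_abs z]; ring
      exact le_of_mul_le_mul_left h6 hz0)
    hεC
  have hA : cA d G η k = -(l0 / D) := by
    rw [cA, coeff_D hd hT, ← hD, ← hl0]
  have hB : cB d G η k = -(l1 / D) + l0 * D1 / D ^ 2 := by
    rw [cB, coeff_D hd hT, ← hD, ← hl0, ← hl1, ← hD1]
  rw [hA, hB]
  refine key.trans ?_
  apply mul_le_mul_of_nonneg_right _ (by positivity)
  calc 46 * C ^ 6 ≤ K ^ 3 * C ^ 6 := by
        apply mul_le_mul_of_nonneg_right _ (by positivity)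
        calc (46 : ℝ) ≤ 4 ^ 3 := by norm_num
          _ ≤ K ^ 3 := pow_le_pow_left₀ (by norm_num) hK4 3
    _ = K ^ (3 + 65 * d ^ 3 * 6) := by rw [hC, ← pow_mul, ← pow_add]
    _ ≤ _ := pow_le_pow_right₀ hK1 (by omega)

end

end Pool.Agent.H91ES
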