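import Mathlib
import Pool.Agent.H322R2.Norms

set_option autoImplicit false

/-!
Expansion of a branch at infinity that is close to its asymptote.
-/

open Polynomial Finset

namespace Pool.Agent.H91ES

open Pool.Agent.H322R2

set_option maxHeartbeats 1000000 in
/-- the first two terms of the expansion of a flat branch -/
theorem flat_core {z ε Λ Λ1 D D1 l0 l1 C : ℝ} {n : ℕ} (hC : 1 ≤ C) (hz : 4 * C ^ 2 * |z| ≤ 1)
    (hD : 1 ≤ C * |D|) (hD1 : |D1| ≤ C) (hl0 : |l0| ≤ C) (hl1 : |l1| ≤ C)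
    (h0 : |Λ - l0 * z ^ n - l1 * z ^ (n + 1)| ≤ C * |z| ^ (n + 2))
    (h1 : |Λ1 - D - D1 * z| ≤ C * |z| ^ 2)
    (h2 : |Λ + ε * Λ1| ≤ C * |z| ^ (n + 2) + C * ε ^ 2 * |z|)
    (h3 : |ε| ≤ C * |z|) :
    |ε - (-(l0 / D)) * z ^ n - (-(l1 / D) + l0 * D1 / D ^ 2) * z ^ (n + 1)| ≤
      46 * C ^ 6 * |z| ^ (n + 2) := by
  have hC0 : 0 < C := by linarith
  have hC2 : 1 ≤ C ^ 2 := one_le_pow₀ hC
  have hz0 : 0 ≤ |z| := abs_nonneg z
  have hzC : C ^ 2 * |z| ≤ 1 / 4 := by linarith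
  have hz1 : |z| ≤ 1 / 4 := by nlinarith
  have hCz : C * |z| ≤ 1 / 4 := by nlinarith
  have hD0 : 0 < |D| := by
    by_contra hcon
    have : |D| = 0 := le_antisymm (not_lt.1 hcon) (abs_nonneg _)
    rw [this, mul_zero] at hD
    linarith
  have hDne : D ≠ 0 := abs_pos.1 hD0
  obtain ⟨w, hw⟩ : ∃ w, w = |z| ^ n := ⟨_, rfl⟩
  have hw0 : 0 ≤ w := by rw [hw]; positivity
  have hw1 : |z| ^ (n + 1) = w * |z| := by rw [hw, pow_succ]
  have hw2 : |z| ^ (n + 2) = w * |z| ^ 2 := by rw [hw, pow_add]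
  have hz2 : |z| ^ 2 ≤ |z| := by nlinarith
  -- lower bound for Λ1
  have hL1 : 1 ≤ 2 * C * |Λ1| := by
    have k1 : |D| ≤ |Λ1| + |Λ1 - D - D1 * z| + |D1 * z| := by
      have : D = Λ1 - (Λ1 - D - D1 * z) - D1 * z := by ring
      calc |D| = |Λ1 - (Λ1 - D - D1 * z) - D1 * z| := by rw [← this]
        _ ≤ |Λ1 - (Λ1 - D - D1 * z)| + |D1 * z| := abs_sub _ _
        _ ≤ _ := by linarith [abs_sub Λ1 (Λ1 - D - D1 * z)]
    have k2 : |D1 * z| ≤ C * |z| := by
      rw [abs_mul]; exact mul_le_mul_of_nonneg_right hD1 hz0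
    have k3 : C * |z| ^ 2 ≤ C * |z| * (1 / 4) := by
      calc C * |z| ^ 2 = C * |z| * |z| := by ring
        _ ≤ _ := mul_le_mul_of_nonneg_left hz1 (by positivity)
    have k4 : |D| ≤ |Λ1| + 5 / 4 * (C * |z|) := by linarith
    have k5 : C * |D| ≤ C * |Λ1| + 5 / 4 * (C ^ 2 * |z|) := by
      calc C * |D| ≤ C * (|Λ1| + 5 / 4 * (C * |z|)) := mul_le_mul_of_nonneg_left k4 hC0.le
        _ = _ := by ring
    have k6 : 5 / 4 * (C ^ 2 * |z|) ≤ 5 / 16 := by linarith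
    linarith
  -- first bound for ε
  have hΛ : |Λ| ≤ 3 * C * w := by
    have : Λ = (Λ - l0 * z ^ n - l1 * z ^ (n + 1)) + l0 * z ^ n + l1 * z ^ (n + 1) := by ring
    have k1 : |l0 * z ^ n| ≤ C * w := by
      rw [abs_mul, abs_pow, hw]; exact mul_le_mul_of_nonneg_right hl0 (by positivity)
    have k2 : |l1 * z ^ (n + 1)| ≤ C * w := by
      rw [abs_mul, abs_pow, hw1]
      calc |l1| * (w * |z|) ≤ C * (w * |z|) := mul_le_mul_of_nonneg_right hl1 (by positivity)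
        _ ≤ C * (w * 1) := by
          apply mul_le_mul_of_nonneg_left _ hC0.le
          exact mul_le_mul_of_nonneg_left (by linarith) hw0
        _ = C * w := by ring
    have k3 : C * |z| ^ (n + 2) ≤ C * w := by
      rw [hw2]
      apply mul_le_mul_of_nonneg_left _ hC0.le
      calc w * |z| ^ 2 ≤ w * 1 := mul_le_mul_of_nonneg_left (by linarith) hw0
        _ = w := mul_one w
    calc |Λ| = |(Λ - l0 * z ^ n - l1 * z ^ (n + 1)) + l0 * z ^ n + l1 * z ^ (n + 1)| := by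
          rw [← this]
      _ ≤ |(Λ - l0 * z ^ n - l1 * z ^ (n + 1))| + |l0 * z ^ n| + |l1 * z ^ (n + 1)| := by
          refine (abs_add_le _ _).trans ?_
          linarith [abs_add_le (Λ - l0 * z ^ n - l1 * z ^ (n + 1)) (l0 * z ^ n)]
      _ ≤ _ := by linarith
  have hε2 : ε ^ 2 ≤ |ε| * (C * |z|) := by
    rw [← sq_abs, sq]; exact mul_le_mul_of_nonneg_left h3 (abs_nonneg _)
  have hε : |ε| ≤ 16 * C ^ 2 * w := by
    have k1 : |ε * Λ1| ≤ |Λ + ε * Λ1| + |Λ| := by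
      have : ε * Λ1 = (Λ + ε * Λ1) - Λ := by ring
      rw [this]
      refine (abs_sub _ _).trans ?_
      rw [← this]
    rw [abs_mul] at k1
    have k2 : C * |z| ^ (n + 2) ≤ C * w := by
      rw [hw2]
      apply mul_le_mul_of_nonneg_left _ hC0.le
      calc w * |z| ^ 2 ≤ w * 1 := mul_le_mul_of_nonneg_left (by linarith) hw0
        _ = w := mul_one w
    have k3 : C * ε ^ 2 * |z| ≤ |ε| * (C ^ 2 * |z|) * |z| := by
      calc C * ε ^ 2 * |z| ≤ C * (|ε| * (C * |z|)) * |z| := by gcongr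
        _ = |ε| * (C ^ 2 * |z|) * |z| := by ring
    have k4 : |ε| * |Λ1| ≤ 4 * C * w + |ε| * (C ^ 2 * |z|) * |z| := by linarith
    -- multiply by 2C
    have k5 : |ε| ≤ 2 * C * (|ε| * |Λ1|) := by
      calc |ε| = |ε| * 1 := (mul_one _).symm
        _ ≤ |ε| * (2 * C * |Λ1|) := mul_le_mul_of_nonneg_left hL1 (abs_nonneg _)
        _ = _ := by ring
    have k6 : 2 * C * (|ε| * (C ^ 2 * |z|) * |z|) ≤ |ε| * (1 / 2) := by
      calc 2 * C * (|ε| * (C ^ 2 * |z|) * |z|) = |ε| * (2 * (C ^ 2 * |z|) * (C * |z|)) := by ring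
        _ ≤ |ε| * (2 * (1 / 4) * (1 / 4)) := by gcongr
        _ ≤ |ε| * (1 / 2) := mul_le_mul_of_nonneg_left (by norm_num) (abs_nonneg _)
    have k7 : 2 * C * (|ε| * |Λ1|) ≤ 2 * C * (4 * C * w + |ε| * (C ^ 2 * |z|) * |z|) :=
      mul_le_mul_of_nonneg_left k4 (by positivity)
    have k8 : 2 * C * (4 * C * w + |ε| * (C ^ 2 * |z|) * |z|) =
      8 * C ^ 2 * w + 2 * C * (|ε| * (C ^ 2 * |z|) * |z|) := by ring
    linarith
  have hε3 : C * ε ^ 2 * |z| ≤ 16 * C ^ 4 * (w * |z| ^ 2) := by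
    calc C * ε ^ 2 * |z| ≤ C * ((16 * C ^ 2 * w) * (C * |z|)) * |z| := by
          have := hε2.trans (mul_le_mul_of_nonneg_right hε (by positivity : 0 ≤ C * |z|))
          gcongr
      _ = _ := by ring
  -- the coefficients
  have hDinv : 1 / |D| ≤ C := by rw [div_le_iff₀ hD0]; exact hD
  have hA : |l0 / D| ≤ C ^ 2 := by
    rw [abs_div, div_eq_mul_one_div]
    calc |l0| * (1 / |D|) ≤ C * C := mul_le_mul hl0 hDinv (by positivity) hC0.le
      _ = C ^ 2 := by ring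
  have hB : |(-(l1 / D) + l0 * D1 / D ^ 2)| ≤ 2 * C ^ 4 := by
    have k1 : |l1 / D| ≤ C ^ 2 := by
      rw [abs_div, div_eq_mul_one_div]
      calc |l1| * (1 / |D|) ≤ C * C := mul_le_mul hl1 hDinv (by positivity) hC0.le
        _ = C ^ 2 := by ring
    have k2 : |l0 * D1 / D ^ 2| ≤ C ^ 4 := by
      have : l0 * D1 / D ^ 2 = l0 / D * (D1 / D) := by field_simp
      rw [this, abs_mul]
      have k3 : |D1 / D| ≤ C ^ 2 := by
        rw [abs_div, div_eq_mul_one_div]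
        calc |D1| * (1 / |D|) ≤ C * C := mul_le_mul hD1 hDinv (by positivity) hC0.le
          _ = C ^ 2 := by ring
      calc |l0 / D| * |D1 / D| ≤ C ^ 2 * C ^ 2 := mul_le_mul hA k3 (abs_nonneg _) (by positivity)
        _ = C ^ 4 := by ring
    have k4 : C ^ 2 ≤ C ^ 4 := pow_le_pow_right₀ hC (by norm_num)
    refine (abs_add_le _ _).trans ?_
    rw [abs_neg]
    linarith
  obtain ⟨A, hAd⟩ : ∃ A, A = -(l0 / D) := ⟨_, rfl⟩
  obtain ⟨B, hBd⟩ : ∃ B, B = -(l1 / D) + l0 * D1 / D ^ 2 := ⟨_, rfl⟩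
  have hA' : |A| ≤ C ^ 2 := by rw [hAd, abs_neg]; exact hA
  rw [← hBd] at hB
  rw [← hAd, ← hBd]
  have eA : D * A = -l0 := by rw [hAd]; field_simp
  have eB : D * B + D1 * A = -l1 := by rw [hAd, hBd]; field_simp; ring
  obtain ⟨E, hE⟩ : ∃ E, E = ε - A * z ^ n - B * z ^ (n + 1) := ⟨_, rfl⟩
  rw [← hE]
  have key : Λ1 * E = (Λ + ε * Λ1) - (Λ - l0 * z ^ n - l1 * z ^ (n + 1)) -
      (Λ1 - D - D1 * z) * (A * z ^ n + B * z ^ (n + 1)) - D1 * B * z ^ (n + 2) := by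
    rw [hE]
    linear_combination (-(z ^ n)) * eA - z ^ (n + 1) * eB
  have hbr : |A * z ^ n + B * z ^ (n + 1)| ≤ 2 * C ^ 4 * w := by
    have k1 : |A * z ^ n| ≤ C ^ 2 * w := by
      rw [abs_mul, abs_pow, hw]; exact mul_le_mul_of_nonneg_right hA' (by positivity)
    have k2 : |B * z ^ (n + 1)| ≤ 2 * C ^ 4 * w * |z| := by
      rw [abs_mul, abs_pow, hw1]
      calc |B| * (w * |z|) ≤ (2 * C ^ 4) * (w * |z|) :=
            mul_le_mul_of_nonneg_right hB (by positivity)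
        _ = _ := by ring
    have k4 : C ^ 2 * w ≤ C ^ 4 * w :=
      mul_le_mul_of_nonneg_right (pow_le_pow_right₀ hC (by norm_num)) hw0
    have k5 : 2 * C ^ 4 * w * |z| ≤ 2 * C ^ 4 * w * (1 / 4) :=
      mul_le_mul_of_nonneg_left hz1 (by positivity)
    refine (abs_add_le _ _).trans ?_
    have : 0 ≤ C ^ 4 * w := by positivity
    linarith
  have hfin : |Λ1 * E| ≤ 23 * C ^ 5 * (w * |z| ^ 2) := by
    rw [key]
    have t1 := abs_sub ((Λ + ε * Λ1) - (Λ - l0 * z ^ n - l1 * z ^ (n + 1)) -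
      (Λ1 - D - D1 * z) * (A * z ^ n + B * z ^ (n + 1))) (D1 * B * z ^ (n + 2))
    have t2 := abs_sub ((Λ + ε * Λ1) - (Λ - l0 * z ^ n - l1 * z ^ (n + 1)))
      ((Λ1 - D - D1 * z) * (A * z ^ n + B * z ^ (n + 1)))
    have t3 := abs_sub (Λ + ε * Λ1) (Λ - l0 * z ^ n - l1 * z ^ (n + 1))
    rw [hw2] at h0 h2
    have t4 : |(Λ1 - D - D1 * z) * (A * z ^ n + B * z ^ (n + 1))| ≤
        2 * C ^ 5 * (w * |z| ^ 2) := by
      rw [abs_mul]
      calc |Λ1 - D - D1 * z| * |A * z ^ n + B * z ^ (n + 1)| ≤ (C * |z| ^ 2) * (2 * C ^ 4 * w) :=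
            mul_le_mul h1 hbr (abs_nonneg _) (by positivity)
        _ = _ := by ring
    have t5 : |D1 * B * z ^ (n + 2)| ≤ 2 * C ^ 5 * (w * |z| ^ 2) := by
      rw [abs_mul, abs_mul, abs_pow, hw2]
      calc |D1| * |B| * (w * |z| ^ 2) ≤ (C * (2 * C ^ 4)) * (w * |z| ^ 2) := by
            apply mul_le_mul_of_nonneg_right _ (by positivity)
            exact mul_le_mul hD1 hB (abs_nonneg _) hC0.le
        _ = _ := by ring
    have v : 0 ≤ w * |z| ^ 2 := by positivity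
    have t6 : C * (w * |z| ^ 2) ≤ C ^ 5 * (w * |z| ^ 2) := by
      apply mul_le_mul_of_nonneg_right _ v
      exact le_self_pow₀ hC (by norm_num)
    have t7 : C ^ 4 * (w * |z| ^ 2) ≤ C ^ 5 * (w * |z| ^ 2) :=
      mul_le_mul_of_nonneg_right (pow_le_pow_right₀ hC (by norm_num)) v
    have t8 : 0 ≤ C ^ 5 * (w * |z| ^ 2) := by positivity
    linarith
  rw [hw2]
  calc |E| = |E| * 1 := (mul_one _).symm
    _ ≤ |E| * (2 * C * |Λ1|) := mul_le_mul_of_nonneg_left hL1 (abs_nonneg _)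
    _ = 2 * C * |Λ1 * E| := by rw [abs_mul]; ring
    _ ≤ 2 * C * (23 * C ^ 5 * (w * |z| ^ 2)) := mul_le_mul_of_nonneg_left hfin (by positivity)
    _ = _ := by ring

/-- the two leading terms of a polynomial -/
lemma top_two {p : ℝ[X]} {k : ℕ} (hp : p.natDegree ≤ k + 2) {a z : ℝ} (haz : a * z = 1)
    (hz : |z| ≤ 1) {B : ℝ} (hB : ∑ i ∈ range (k + 3), |p.coeff i| ≤ B) :
    |p.eval a * z ^ (k + 2) - p.coeff (k + 2) - p.coeff (k + 1) * z| ≤ B * |z| ^ 2 := by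
  have h1 : p.eval a * z ^ (k + 2) = ∑ i ∈ range (k + 3), p.coeff i * z ^ (k + 2 - i) := by
    rw [eval_eq_sum_range' (show p.natDegree < k + 3 by omega), sum_mul]
    refine sum_congr rfl fun i hi => ?_
    rw [mem_range] at hi
    have : z ^ (k + 2) = z ^ i * z ^ (k + 2 - i) := by rw [← pow_add]; congr 1; omega
    rw [this]
    have h2 : a ^ i * z ^ i = 1 := by rw [← mul_pow, haz, one_pow]
    linear_combination (p.coeff i * z ^ (k + 2 - i)) * h2
  rw [h1, sum_range_succ, sum_range_succ]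
  have e1 : k + 2 - (k + 2) = 0 := by omega
  have e2 : k + 2 - (k + 1) = 1 := by omega
  rw [e1, e2, pow_zero, pow_one, mul_one]
  have h3 : ∑ i ∈ range (k + 1), p.coeff i * z ^ (k + 2 - i) + p.coeff (k + 1) * z +
      p.coeff (k + 2) - p.coeff (k + 2) - p.coeff (k + 1) * z =
      ∑ i ∈ range (k + 1), p.coeff i * z ^ (k + 2 - i) := by ring
  rw [h3]
  calc |∑ i ∈ range (k + 1), p.coeff i * z ^ (k + 2 - i)|
      ≤ ∑ i ∈ range (k + 1), |p.coeff i * z ^ (k + 2 - i)| := abs_sum_le_sum_abs _ _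
    _ ≤ ∑ i ∈ range (k + 1), |p.coeff i| * |z| ^ 2 := by
        refine sum_le_sum fun i hi => ?_
        rw [mem_range] at hi
        rw [abs_mul, abs_pow]
        apply mul_le_mul_of_nonneg_left _ (abs_nonneg _)
        exact pow_le_pow_of_le_one (abs_nonneg _) hz (by omega)
    _ = (∑ i ∈ range (k + 1), |p.coeff i|) * |z| ^ 2 := by rw [sum_mul]
    _ ≤ B * |z| ^ 2 := by
        apply mul_le_mul_of_nonneg_right _ (by positivity)
        refine le_trans ?_ hB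
        exact sum_le_sum_of_subset_of_nonneg (range_subset_range.2 (by omega))
          (fun _ _ _ => abs_nonneg _)

end Pool.Agent.H91ES
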