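import Pool.Agent.H322R2.MonoC
import Pool.Agent.H322R2.Flex
import Pool.Agent.H91ES.Flat

set_option autoImplicit false
set_option linter.unusedSectionVars false

/-!
Restriction of a curve to a line, and the expansion of the equation at a real asymptote.
-/

open Polynomial Finset

namespace Pool.Agent.H91ES

open Pool.Agent.H322R2

/-- restriction to the line `y = η x + β` -/
noncomputable def Ln (G : ℤ[X][X]) (η β : ℝ) : ℝ[X] := ev (X : ℝ[X]) (C η * X + C β) G

lemma Ln_eval (G : ℤ[X][X]) (η β a : ℝ) : (Ln G η β).eval a = ev a (η * a + β) G := by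
  have h3 := map_ev (evalRingHom a) (X : ℝ[X]) (C η * X + C β) G
  simp only [coe_evalRingHom, eval_X, eval_add, eval_C, eval_mul] at h3
  exact h3

section

variable {d : ℕ} {G : ℤ[X][X]}

lemma bds (hT : TD d G) : G.natDegree < d + 1 ∧ ∀ j, (G.coeff j).natDegree < d + 1 :=
  ⟨by have := hT.1; omega, fun j => by have := hT.2 j; omega⟩

lemma bdsh (hT : TD d G) : (hmg d G).natDegree < d + 1 ∧
    ∀ j, ((hmg d G).coeff j).natDegree < d + 1 :=
  ⟨by have := natDegree_hmg d G; omega, fun j => by have := natDegree_coeff_hmg hT j; omega⟩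

lemma natDegree_Ln (hT : TD d G) (η β : ℝ) : (Ln G η β).natDegree ≤ d := by
  unfold Ln
  rw [ev_sum _ _ G (bds hT).1 (bds hT).2]
  apply natDegree_sum_le_of_forall_le
  intro j hj
  rw [mem_range] at hj
  apply natDegree_sum_le_of_forall_le
  intro i _
  by_cases h : i + j ≤ d
  · have h1 : (C η * X + C β : ℝ[X]).natDegree ≤ 1 := by compute_degree
    have h2 : ((C η * X + C β : ℝ[X]) ^ j).natDegree ≤ j := by
      refine natDegree_pow_le.trans ?_
      calc j * (C η * X + C β : ℝ[X]).natDegree ≤ j * 1 := Nat.mul_le_mul_left _ h1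
        _ = j := mul_one j
    refine natDegree_mul_le.trans ?_
    have h3 : ((((G.coeff j).coeff i : ℤ) : ℝ[X]) * X ^ i).natDegree ≤ i := by
      refine natDegree_mul_le.trans ?_
      rw [natDegree_intCast, zero_add]
      exact natDegree_X_pow_le i
    omega
  · have : (G.coeff j).coeff i = 0 := coeff_eq_zero_of_natDegree_lt (by have := hT.2 j; omega)
    rw [this]
    simp

lemma reflect_Ln (hT : TD d G) (η β : ℝ) :
    reflect d (Ln G η β) = ev (X : ℝ[X]) (C η + X * C β) (hmg d G) := by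
  apply Polynomial.eq_of_infinite_eval_eq
  apply ((Set.finite_singleton (0 : ℝ)).infinite_compl).mono
  intro x hx
  have hx0 : x ≠ 0 := hx
  rw [Set.mem_ofPred_eq]
  have h3 := map_ev (evalRingHom x) (X : ℝ[X]) (C η + X * C β) (hmg d G)
  simp only [coe_evalRingHom, eval_X, eval_add, eval_C, eval_mul] at h3
  rw [h3]
  have h4 := ev_hmg (x := x⁻¹) (z := x) (η + x * β) (inv_mul_cancel₀ hx0) hT
  have h5 : x⁻¹ * (η + x * β) = η * x⁻¹ + β := by field_simp
  rw [h5, ← Ln_eval] at h4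
  have : Invertible (x⁻¹ : ℝ) := invertibleOfNonzero (inv_ne_zero hx0)
  have h6 := eval₂_reflect_mul_pow (RingHom.id ℝ) (x⁻¹) d (Ln G η β) (natDegree_Ln hT η β)
  rw [invOf_eq_inv, inv_inv] at h6
  have h7 : (reflect d (Ln G η β)).eval x * (x⁻¹) ^ d = (Ln G η β).eval x⁻¹ := h6
  rw [h4] at h7
  have h8 : (x⁻¹) ^ d ≠ 0 := pow_ne_zero _ (inv_ne_zero hx0)
  apply mul_right_cancel₀ h8
  rw [h7]; ring

lemma coeff_Ln (hT : TD d G) (η β : ℝ) {i : ℕ} (hi : i ≤ d) :
    (Ln G η β).coeff (d - i) = (ev (X : ℝ[X]) (C η + X * C β) (hmg d G)).coeff i := by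
  rw [← reflect_Ln hT, coeff_reflect, revAt_le hi]

lemma coeff_Ln_top (hT : TD d G) (η β : ℝ) : (Ln G η β).coeff d = evf η (lead d G) := by
  have h1 := coeff_Ln hT η β (Nat.zero_le d)
  rw [Nat.sub_zero] at h1
  rw [h1, coeff_zero_eq_eval_zero]
  have h3 := map_ev (evalRingHom (0 : ℝ)) (X : ℝ[X]) (C η + X * C β) (hmg d G)
  simp only [coe_evalRingHom, eval_X, eval_add, eval_C, eval_mul, zero_mul, add_zero] at h3
  rw [h3, ev_zero_hmg]

lemma dvd_two {η : ℝ} (hd : 1 ≤ d) (hT : TD d G) (hη : evf η (lead d G) = 0)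
    (hD0 : evf η (derivative (lead d G)) ≠ 0) :
    X ^ 2 ∣ ev (X : ℝ[X]) (C η + X * C (bet d G η)) (hmg d G) := by
  obtain ⟨hPn, hPm⟩ := bdsh hT
  have h1 := ev_taylor (C : ℝ →+* ℝ[X]) (hmg d G) (d + 1) (d + 1) hPn hPm 0 η X
    (X * C (bet d G η))
  rw [map_zero, zero_add] at h1
  rw [h1]
  have hsub : range 2 ×ˢ range 2 ⊆ range (d + 1) ×ˢ range (d + 1) := by
    apply Finset.product_subset_product
    · intro i hi; rw [Finset.mem_range] at hi ⊢; omega
    · intro i hi; rw [Finset.mem_range] at hi ⊢; omega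
  rw [← Finset.sum_sdiff hsub]
  apply dvd_add
  · apply Finset.dvd_sum
    intro p hp
    rw [Finset.mem_sdiff, Finset.mem_product, Finset.mem_product, Finset.mem_range,
      Finset.mem_range, Finset.mem_range, Finset.mem_range] at hp
    have h4 : 2 ≤ p.1 + p.2 := by omega
    have h5 : C (tay (hmg d G) (d + 1) (d + 1) 0 η p) * X ^ p.1 * (X * C (bet d G η)) ^ p.2
        = X ^ (p.1 + p.2) * (C (tay (hmg d G) (d + 1) (d + 1) 0 η p) * C (bet d G η) ^ p.2) := by
      rw [mul_pow, pow_add]; ring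
    rw [h5]
    exact Dvd.dvd.mul_right (pow_dvd_pow _ h4) _
  · obtain ⟨τ, hτ⟩ : ∃ τ : ℕ → ℕ → ℝ, τ = fun p q => tay (hmg d G) (d + 1) (d + 1) 0 η (p, q) :=
      ⟨_, rfl⟩
    have hτ' : ∀ p q, tay (hmg d G) (d + 1) (d + 1) 0 η (p, q) = τ p q := by
      intro p q; rw [hτ]
    have h00 : τ 0 0 = 0 := by
      rw [← hτ', tay_zero _ _ _ hPn hPm, ev_zero_hmg, hη]
    have h01 : τ 0 1 ≠ 0 := by
      rw [← hτ', tay01 (by omega) hT]; exact hD0
    have r1 : τ 0 1 * bet d G η + τ 1 0 = 0 := by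
      rw [bet, tc, hτ', hτ']; field_simp; ring
    have s1 := congrArg (C : ℝ → ℝ[X]) r1
    simp only [map_add, map_mul, map_zero] at s1
    simp only [Finset.sum_product, Finset.sum_range_succ, Finset.sum_range_zero, hτ', h00,
      map_zero]
    refine ⟨C (τ 1 1) * C (bet d G η), ?_⟩
    linear_combination X * s1

lemma natDegree_Ln_bet {η : ℝ} (hd : 2 ≤ d) (hT : TD d G) (hη : evf η (lead d G) = 0)
    (hD0 : evf η (derivative (lead d G)) ≠ 0) : (Ln G η (bet d G η)).natDegree ≤ d - 2 := by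
  rw [natDegree_le_iff_coeff_eq_zero]
  intro j hj
  have h1 := dvd_two (by omega) hT hη hD0
  rw [X_pow_dvd_iff] at h1
  by_cases hjd : j ≤ d
  · have h2 := coeff_Ln hT η (bet d G η) (Nat.sub_le d j)
    have h3 : d - (d - j) = j := by omega
    rw [h3, h1 (d - j) (by omega)] at h2
    exact h2
  · apply coeff_eq_zero_of_natDegree_lt
    have := natDegree_Ln hT η (bet d G η)
    omega

lemma abs_ev_le (hT : TD d G) (x y : ℝ) :
    |ev x y G| ≤ pn (pn zn) G * (1 + |x|) ^ d * (1 + |y|) ^ d := by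
  have h3 := sum_tay_le rn rn_one G (d + 1) (d + 1) (bds hT).1 (bds hT).2 x y
  have h4 : rn (tay G (d + 1) (d + 1) x y (0, 0)) ≤
      ∑ p ∈ range (d + 1) ×ˢ range (d + 1), rn (tay G (d + 1) (d + 1) x y p) :=
    Finset.single_le_sum (f := fun p => rn (tay G (d + 1) (d + 1) x y p))
      (fun _ _ => apply_nonneg _ _) (by simp)
  rw [tay_zero _ _ _ (bds hT).1 (bds hT).2, rn_apply] at h4
  simpa using h4.trans h3

lemma pn_Ln_le (hT : TD d G) (η β : ℝ) :
    pn rn (Ln G η β) ≤ pn (pn zn) G * 2 ^ d * (1 + |η| + |β|) ^ d := by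
  have hpn1 : pn rn (1 : ℝ[X]) ≤ 1 := by rw [pn_one]; exact rn_one
  have h3 := sum_tay_le (pn rn) hpn1 G (d + 1) (d + 1) (bds hT).1 (bds hT).2 (X : ℝ[X])
    (C η * X + C β)
  have h4 : pn rn (tay G (d + 1) (d + 1) (X : ℝ[X]) (C η * X + C β) (0, 0)) ≤
      ∑ p ∈ range (d + 1) ×ˢ range (d + 1), pn rn (tay G (d + 1) (d + 1) (X : ℝ[X])
        (C η * X + C β) p) :=
    Finset.single_le_sum (f := fun p => pn rn (tay G (d + 1) (d + 1) (X : ℝ[X])
        (C η * X + C β) p)) (fun _ _ => apply_nonneg _ _) (by simp)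
  rw [tay_zero _ _ _ (bds hT).1 (bds hT).2] at h4
  refine (h4.trans h3).trans ?_
  rw [Nat.add_sub_cancel]
  have hX : pn rn (X : ℝ[X]) ≤ 1 := by rw [pn_X]; exact rn_one
  have hY : pn rn (C η * X + C β : ℝ[X]) ≤ |η| + |β| := by
    refine (map_add_le_add _ _ _).trans ?_
    rw [pn_C, rn_apply]
    have h5 := map_mul_le_mul (pn rn) (C η) (X : ℝ[X])
    rw [pn_C, rn_apply] at h5
    have h6 : |η| * pn rn (X : ℝ[X]) ≤ |η| := mul_le_of_le_one_right (abs_nonneg _) hX
    linarith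
  have hX0 : 0 ≤ pn rn (X : ℝ[X]) := apply_nonneg _ _
  have hY0 : 0 ≤ pn rn (C η * X + C β : ℝ[X]) := apply_nonneg _ _
  have hG0 : 0 ≤ pn (pn zn) G := apply_nonneg _ _
  have e1 : (1 + pn rn (X : ℝ[X])) ^ d ≤ 2 ^ d := pow_le_pow_left₀ (by linarith) (by linarith) _
  have e2 : (1 + pn rn (C η * X + C β : ℝ[X])) ^ d ≤ (1 + |η| + |β|) ^ d :=
    pow_le_pow_left₀ (by linarith) (by linarith) _
  calc _ ≤ pn (pn zn) G * 2 ^ d * (1 + pn rn (C η * X + C β : ℝ[X])) ^ d := by
        apply mul_le_mul_of_nonneg_right _ (by positivity)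
        exact mul_le_mul_of_nonneg_left e1 hG0
    _ ≤ _ := mul_le_mul_of_nonneg_left e2 (by positivity)

/-- a point on a perturbed curve, in terms of the restriction to the asymptote -/
lemma point_eq {R : ℤ[X][X]} {e : ℕ} (hd : 1 ≤ d) (hT : TD d G) (hR : TD e R) {M η β : ℝ}
    (hG : pn (pn zn) G ≤ M) (hRM : pn (pn zn) R ≤ M) (hed : e ≤ d) {a b z ε : ℝ} (haz : a * z = 1)
    (hz : |z| ≤ 1) (hb : b = η * a + β + ε) (hε : |ε| ≤ 1) (h0 : ev a b (G + R) = 0) :
    |z * ((Ln G η β).eval a * z ^ (d - 1) + ε * ((Ln (derivative G) η β).eval a * z ^ (d - 1)))| ≤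
      M * 2 ^ d * (2 + |η| + |β|) ^ d * |z| ^ (d - e) +
      M * 2 ^ d * (2 + |η| + |β|) ^ d * (ε * z) ^ 2 := by
  have hM0 : 0 ≤ M := (apply_nonneg _ _).trans hG
  obtain ⟨w0, hw0⟩ : ∃ w0, w0 = η + β * z := ⟨_, rfl⟩
  have hw0l : 1 + |w0| ≤ 2 + |η| + |β| := by
    rw [hw0]
    have := abs_add_le η (β * z)
    rw [abs_mul] at this
    have h2 : |β| * |z| ≤ |β| := mul_le_of_le_one_right (abs_nonneg _) hz
    linarith
  have hz1 : 1 + |z| ≤ 2 := by linarith
  have hεz : |ε * z| ≤ 1 := by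
    rw [abs_mul]
    calc |ε| * |z| ≤ 1 * 1 := mul_le_mul hε hz (abs_nonneg _) (by norm_num)
      _ = 1 := one_mul 1
  have hw1l : 1 + |w0 + ε * z| ≤ 2 + |η| + |β| := by
    have h1 : |w0 + ε * z| ≤ |w0| + |ε * z| := abs_add_le _ _
    rw [hw0] at h1 ⊢
    have := abs_add_le η (β * z)
    rw [abs_mul] at this
    have hz0 := abs_nonneg z
    have h3 : |β| * |z| + |ε * z| ≤ |β| + 1 := by
      have h4 : |β| * |z| ≤ |β| := mul_le_of_le_one_right (abs_nonneg _) hz
      linarith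
    linarith
  -- G
  have e1 : ev a (a * (w0 + ε * z)) G = a ^ d * ev z (w0 + ε * z) (hmg d G) := ev_hmg _ haz hT
  have e2 : ev a (a * w0) G = a ^ d * ev z w0 (hmg d G) := ev_hmg _ haz hT
  have e3 : ev a (a * w0) (derivative G) = a ^ (d - 1) * ev z w0 (derivative (hmg d G)) :=
    ev_derivative_hmg _ haz hT (by omega)
  have e4 : ev a (a * (w0 + ε * z)) R = a ^ e * ev z (w0 + ε * z) (hmg e R) := ev_hmg _ haz hR
  have f1 : a * (w0 + ε * z) = b := by
    rw [hw0, hb]
    linear_combination (β + ε) * haz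
  have f2 : a * w0 = η * a + β := by
    rw [hw0]
    linear_combination β * haz
  rw [f1] at e1 e4
  rw [f2, ← Ln_eval] at e2 e3
  have hTh : TD d G := hT
  obtain ⟨hPn, hPm⟩ := bdsh hT
  have t1 : |ev z (w0 + ε * z) (hmg d G) - ev z w0 (hmg d G) -
      ev z w0 (derivative (hmg d G)) * (ε * z)| ≤
      (M * 2 ^ d * (2 + |η| + |β|) ^ d) * (ε * z) ^ 2 := by
    have h1 := ev_taylor (RingHom.id ℝ) (hmg d G) (d + 1) (d + 1) hPn hPm z w0 0 (ε * z)
    simp only [RingHom.id_apply, add_zero] at h1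
    rw [Finset.sum_product, Finset.sum_eq_single_of_mem 0 (by simp)] at h1
    swap
    · intro i _ hi
      apply Finset.sum_eq_zero
      intro j _
      rw [zero_pow hi]; ring
    obtain ⟨f, rfl⟩ : ∃ f, d = f + 1 := ⟨d - 1, by omega⟩
    rw [Finset.sum_range_succ', Finset.sum_range_succ'] at h1
    simp only [pow_zero, mul_one, zero_add, pow_one] at h1
    rw [tay_zero _ _ _ hPn hPm, tay_one _ _ _ hPn hPm] at h1
    have h2 : ev z (w0 + ε * z) (hmg (f + 1) G) - ev z w0 (hmg (f + 1) G) -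
        ev z w0 (derivative (hmg (f + 1) G)) * (ε * z) =
        ∑ k ∈ range f, tay (hmg (f + 1) G) (f + 1 + 1) (f + 1 + 1) z w0 (0, k + 1 + 1) *
          (ε * z) ^ (k + 1 + 1) := by
      rw [h1]; ring
    rw [h2]
    have h3 := sum_tay_le rn rn_one (hmg (f + 1) G) (f + 1 + 1) (f + 1 + 1) hPn hPm z w0
    rw [Nat.add_sub_cancel, pn_hmg hT] at h3
    simp only [rn_apply] at h3
    have h4 : pn (pn zn) G * (1 + |z|) ^ (f + 1) * (1 + |w0|) ^ (f + 1) ≤
        M * 2 ^ (f + 1) * (2 + |η| + |β|) ^ (f + 1) := by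
      apply mul_le_mul _ (pow_le_pow_left₀ (by positivity) hw0l _) (by positivity) (by positivity)
      exact mul_le_mul hG (pow_le_pow_left₀ (by positivity) hz1 _) (by positivity) hM0
    calc |∑ k ∈ range f, tay (hmg (f + 1) G) (f + 1 + 1) (f + 1 + 1) z w0 (0, k + 1 + 1) *
          (ε * z) ^ (k + 1 + 1)|
        ≤ ∑ k ∈ range f, |tay (hmg (f + 1) G) (f + 1 + 1) (f + 1 + 1) z w0 (0, k + 1 + 1) *
          (ε * z) ^ (k + 1 + 1)| := Finset.abs_sum_le_sum_abs _ _
      _ ≤ ∑ k ∈ range f, |tay (hmg (f + 1) G) (f + 1 + 1) (f + 1 + 1) z w0 (0, k + 1 + 1)| *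
          (ε * z) ^ 2 := by
          apply Finset.sum_le_sum
          intro k _
          rw [abs_mul, abs_pow, ← sq_abs (ε * z)]
          apply mul_le_mul_of_nonneg_left _ (abs_nonneg _)
          exact pow_le_pow_of_le_one (abs_nonneg _) hεz (by omega)
      _ = (∑ k ∈ range f, |tay (hmg (f + 1) G) (f + 1 + 1) (f + 1 + 1) z w0 (0, k + 1 + 1)|) *
          (ε * z) ^ 2 := by rw [Finset.sum_mul]
      _ ≤ _ := by
          apply mul_le_mul_of_nonneg_right _ (sq_nonneg _)
          refine le_trans ?_ (h3.trans h4)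
          have h5 : ∑ k ∈ range f, |tay (hmg (f + 1) G) (f + 1 + 1) (f + 1 + 1) z w0
              (0, k + 1 + 1)| = ∑ p ∈ (range f).image (fun k => ((0 : ℕ), k + 1 + 1)),
                |tay (hmg (f + 1) G) (f + 1 + 1) (f + 1 + 1) z w0 p| := by
            rw [Finset.sum_image]
            intro a _ b _ hab
            simp only [Prod.mk.injEq, true_and] at hab
            omega
          rw [h5]
          apply Finset.sum_le_sum_of_subset_of_nonneg
          · intro p hp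
            rw [Finset.mem_image] at hp
            obtain ⟨k, hk, rfl⟩ := hp
            rw [Finset.mem_range] at hk
            rw [Finset.mem_product, Finset.mem_range, Finset.mem_range]
            simp only
            omega
          · intro p _ _
            exact abs_nonneg _
  have t2 : |ev z (w0 + ε * z) (hmg e R)| ≤ M * 2 ^ d * (2 + |η| + |β|) ^ d := by
    obtain ⟨hRn, hRm⟩ := bdsh hR
    have h3 := sum_tay_le rn rn_one (hmg e R) (e + 1) (e + 1) hRn hRm z (w0 + ε * z)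
    have h4 : rn (tay (hmg e R) (e + 1) (e + 1) z (w0 + ε * z) (0, 0)) ≤
        ∑ p ∈ range (e + 1) ×ˢ range (e + 1), rn (tay (hmg e R) (e + 1) (e + 1) z
          (w0 + ε * z) p) :=
      Finset.single_le_sum (f := fun p => rn (tay (hmg e R) (e + 1) (e + 1) z (w0 + ε * z) p))
        (fun _ _ => apply_nonneg _ _) (by simp)
    rw [tay_zero _ _ _ hRn hRm, rn_apply] at h4
    rw [Nat.add_sub_cancel, pn_hmg hR, rn_apply, rn_apply] at h3
    refine (h4.trans h3).trans ?_
    have g1 : (1 + |z|) ^ e ≤ 2 ^ d :=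
      (pow_le_pow_left₀ (by positivity) hz1 _).trans (pow_le_pow_right₀ (by norm_num) hed)
    have g2 : (1 + |w0 + ε * z|) ^ e ≤ (2 + |η| + |β|) ^ d := by
      refine (pow_le_pow_left₀ (by positivity) hw1l _).trans (pow_le_pow_right₀ ?_ hed)
      linarith [abs_nonneg η, abs_nonneg β]
    apply mul_le_mul _ g2 (by positivity) (by positivity)
    exact mul_le_mul hRM g1 (by positivity) hM0
  -- combination
  have hzz : ∀ k : ℕ, z ^ k * a ^ k = 1 := fun k => by rw [← mul_pow, mul_comm z a, haz, one_pow]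
  have hd1 : z ^ d = z * z ^ (d - 1) := by rw [← pow_succ']; congr 1; omega
  have k1 : z * ((Ln G η β).eval a * z ^ (d - 1) +
      ε * ((Ln (derivative G) η β).eval a * z ^ (d - 1))) =
      ev z w0 (hmg d G) + ev z w0 (derivative (hmg d G)) * (ε * z) := by
    have k2 : z * ((Ln G η β).eval a * z ^ (d - 1)) = ev z w0 (hmg d G) := by
      rw [e2]
      calc z * (a ^ d * ev z w0 (hmg d G) * z ^ (d - 1)) =
            (z * z ^ (d - 1) * a ^ d) * ev z w0 (hmg d G) := by ring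
        _ = _ := by rw [← hd1, hzz, one_mul]
    have k3 : (Ln (derivative G) η β).eval a * z ^ (d - 1) = ev z w0 (derivative (hmg d G)) := by
      rw [e3]
      calc a ^ (d - 1) * ev z w0 (derivative (hmg d G)) * z ^ (d - 1) =
            (z ^ (d - 1) * a ^ (d - 1)) * ev z w0 (derivative (hmg d G)) := by ring
        _ = _ := by rw [hzz, one_mul]
    rw [mul_add, k2, k3]; ring
  have k4 : ev z (w0 + ε * z) (hmg d G) = -(z ^ (d - e) * ev z (w0 + ε * z) (hmg e R)) := by
    rw [map_add, e1, e4] at h0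
    have h5 : z ^ d = z ^ (d - e) * z ^ e := by rw [← pow_add]; congr 1; omega
    have h6 := congrArg (fun t => z ^ d * t) h0
    simp only [mul_zero] at h6
    have h7 : z ^ d * (a ^ d * ev z (w0 + ε * z) (hmg d G) + a ^ e * ev z (w0 + ε * z) (hmg e R)) =
        (z ^ d * a ^ d) * ev z (w0 + ε * z) (hmg d G) +
          z ^ (d - e) * (z ^ e * a ^ e) * ev z (w0 + ε * z) (hmg e R) := by
      rw [h5]; ring
    rw [h7, hzz, hzz] at h6
    linarith
  rw [k1]
  have k5 : ev z w0 (hmg d G) + ev z w0 (derivative (hmg d G)) * (ε * z) =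
      ev z (w0 + ε * z) (hmg d G) - (ev z (w0 + ε * z) (hmg d G) - ev z w0 (hmg d G) -
        ev z w0 (derivative (hmg d G)) * (ε * z)) := by ring
  rw [k5]
  refine (abs_sub _ _).trans ?_
  apply add_le_add _ t1
  rw [k4, abs_neg, abs_mul, abs_pow, mul_comm]
  exact mul_le_mul_of_nonneg_right t2 (by positivity)

end

end Pool.Agent.H91ES
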