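import Pool.Agent.H91ES.Lin

set_option autoImplicit false
set_option linter.unusedSectionVars false

/-!
Lower bound for the coefficients of the restriction of a curve to a real asymptote.
-/

open Polynomial Finset

namespace Pool.Agent.H91ES

open Pool.Agent.H322R2

lemma coeff_lin_pow (η β : ℝ) (j t : ℕ) :
    ((C η * X + C β : ℝ[X]) ^ j).coeff t = η ^ t * β ^ (j - t) * (j.choose t : ℝ) := by
  have h1 : (C η * X + C β : ℝ[X]) ^ j = ((X + C β) ^ j).comp (C η * X) := by
    rw [pow_comp, add_comp, X_comp, C_comp]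
  rw [h1, comp_C_mul_X_coeff, coeff_X_add_C_pow]
  ring

/-- `D ^ d` times a coefficient of the restriction to the asymptote, as an integer polynomial in
the slope -/
noncomputable def VV (d : ℕ) (G : ℤ[X][X]) (k : ℕ) : ℤ[X] :=
  ∑ j ∈ range (d + 1), ∑ i ∈ range (d + 1), if i ≤ k then
    C ((G.coeff j).coeff i * (j.choose (k - i) : ℤ)) * (X ^ (k - i) *
      ((-lead (d - 1) G) ^ (j - (k - i)) * derivative (lead d G) ^ (d - (j - (k - i))))) else 0

section

variable {d : ℕ} {G : ℤ[X][X]} {η : ℝ}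

lemma coeff_Ln_eq (hT : TD d G) (β : ℝ) (k : ℕ) :
    (Ln G η β).coeff k = ∑ j ∈ range (d + 1), ∑ i ∈ range (d + 1), if i ≤ k then
      (((G.coeff j).coeff i : ℤ) : ℝ) * (η ^ (k - i) * β ^ (j - (k - i)) *
        (j.choose (k - i) : ℝ)) else 0 := by
  unfold Ln
  rw [ev_sum _ _ G (bds hT).1 (bds hT).2, finsetSum_coeff]
  refine sum_congr rfl fun j _ => ?_
  rw [finsetSum_coeff]
  refine sum_congr rfl fun i _ => ?_
  have h1 : ((((G.coeff j).coeff i : ℤ) : ℝ[X]) * X ^ i * (C η * X + C β) ^ j) =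
      C (((G.coeff j).coeff i : ℤ) : ℝ) * (X ^ i * (C η * X + C β) ^ j) := by
    rw [← mul_assoc]
    congr 2
  rw [h1, coeff_C_mul, coeff_X_pow_mul']
  split_ifs with h
  · rw [coeff_lin_pow]
  · rw [mul_zero]

lemma bet_eq (hd : 1 ≤ d) (hT : TD d G) (hD0 : evf η (derivative (lead d G)) ≠ 0) :
    evf η (-lead (d - 1) G) = bet d G η * evf η (derivative (lead d G)) := by
  rw [bet, tc, tay01 (by omega) hT, tay_q0 hT η 1 hd, map_neg]
  field_simp

lemma evf_VV (hd : 1 ≤ d) (hT : TD d G) (hD0 : evf η (derivative (lead d G)) ≠ 0) (k : ℕ) :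
    evf η (VV d G k) = evf η (derivative (lead d G)) ^ d * (Ln G η (bet d G η)).coeff k := by
  rw [coeff_Ln_eq hT, VV, map_sum, mul_sum]
  refine sum_congr rfl fun j hj => ?_
  rw [mem_range] at hj
  rw [map_sum, mul_sum]
  refine sum_congr rfl fun i _ => ?_
  split_ifs with h
  · have h0 := bet_eq hd hT hD0
    simp only [map_mul, map_pow, evf_C, evf_X]
    rw [h0, mul_pow]
    have h1 : evf η (derivative (lead d G)) ^ d = evf η (derivative (lead d G)) ^
        (j - (k - i)) * evf η (derivative (lead d G)) ^ (d - (j - (k - i))) := by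
      rw [← pow_add]; congr 1; omega
    rw [h1]
    simp only [Int.cast_natCast]
    ring
  · simp

lemma natDegree_VV (k : ℕ) (hk : k ≤ d) : (VV d G k).natDegree ≤ d + d * d := by
  unfold VV
  apply natDegree_sum_le_of_forall_le
  intro j hj
  rw [mem_range] at hj
  apply natDegree_sum_le_of_forall_le
  intro i _
  split_ifs with h
  · have n1 : (-lead (d - 1) G).natDegree ≤ d := by
      rw [natDegree_neg]
      exact (natDegree_lead_le (d - 1) G).trans (by omega)
    have n0 : (derivative (lead d G)).natDegree ≤ d :=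
      (natDegree_derivative_le _).trans ((Nat.sub_le _ _).trans (natDegree_lead_le d G))
    have m1 : ((-lead (d - 1) G) ^ (j - (k - i))).natDegree ≤ (j - (k - i)) * d :=
      natDegree_pow_le.trans (Nat.mul_le_mul_left _ n1)
    have m0 : (derivative (lead d G) ^ (d - (j - (k - i)))).natDegree ≤ (d - (j - (k - i))) * d :=
      natDegree_pow_le.trans (Nat.mul_le_mul_left _ n0)
    have m2 : (X ^ (k - i) : ℤ[X]).natDegree ≤ d := (natDegree_X_pow_le _).trans (by omega)
    refine (natDegree_C_mul_le _ _).trans (natDegree_mul_le.trans (Nat.add_le_add m2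
      (natDegree_mul_le.trans ?_)))
    have h5 : (j - (k - i)) * d + (d - (j - (k - i))) * d = d * d := by
      rw [← Nat.add_mul]; congr 1; omega
    omega
  · simp

lemma pn_lead_le' {M : ℝ} (hT : TD d G) (hG : pn (pn zn) G ≤ M) {k : ℕ} (hk : k ≤ d) :
    pn zn (lead k G) ≤ M := by
  refine le_trans ?_ hG
  have h1 := natDegree_lead_le k G
  rw [pn_eq_range zn _ (show (lead k G).natDegree < d + 1 by omega),
    pn2_eq G (d + 1) (d + 1) (by have := hT.1; omega) (fun j => by have := hT.2 j; omega)]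
  apply Finset.sum_le_sum
  intro j _
  rw [coeff_lead]
  split_ifs with h
  · exact Finset.single_le_sum (f := fun i => |(((G.coeff j).coeff i : ℤ) : ℝ)|)
      (fun _ _ => abs_nonneg _) (Finset.mem_range.2 (show k - j < d + 1 by omega))
  · rw [map_zero]
    exact Finset.sum_nonneg fun _ _ => abs_nonneg _

lemma pn_VV_le {M B : ℝ} (hT : TD d G) (hG : pn (pn zn) G ≤ M) (hB : 1 ≤ B)
    (h1 : pn zn (lead (d - 1) G) ≤ B) (h0 : pn zn (derivative (lead d G)) ≤ B) (k : ℕ) :
    pn zn (VV d G k) ≤ M * (2 ^ d * B ^ d) := by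
  have hone : pn zn (1 : ℤ[X]) ≤ 1 := pnz_one
  have hX : pn zn (X : ℤ[X]) ≤ 1 := by rw [pn_X]; simp
  have h1' : pn zn (-lead (d - 1) G) ≤ B := by rw [map_neg_eq_map]; exact h1
  unfold VV
  have step : ∀ j ∈ range (d + 1), pn zn (∑ i ∈ range (d + 1), if i ≤ k then
    C ((G.coeff j).coeff i * (j.choose (k - i) : ℤ)) * (X ^ (k - i) *
      ((-lead (d - 1) G) ^ (j - (k - i)) * derivative (lead d G) ^ (d - (j - (k - i))))) else 0) ≤
      (∑ i ∈ range (d + 1), |(((G.coeff j).coeff i : ℤ) : ℝ)|) * (2 ^ d * B ^ d) := by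
    intro j hj
    rw [mem_range] at hj
    refine (seminorm_sum_le (pn zn) _ _).trans ?_
    rw [sum_mul]
    apply sum_le_sum
    intro i hi
    split_ifs with h
    · refine (map_mul_le_mul _ _ _).trans ?_
      have e1 : pn zn (C ((G.coeff j).coeff i * (j.choose (k - i) : ℤ))) ≤
          |(((G.coeff j).coeff i : ℤ) : ℝ)| * 2 ^ d := by
        rw [pn_C, zn_apply]
        push_cast
        rw [abs_mul, Nat.abs_cast]
        apply mul_le_mul_of_nonneg_left _ (abs_nonneg _)
        have := (Nat.choose_le_two_pow j (k - i)).trans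
          (Nat.pow_le_pow_right two_pos (by omega : j ≤ d))
        exact_mod_cast this
      have e2 : pn zn (X ^ (k - i) * ((-lead (d - 1) G) ^ (j - (k - i)) *
          derivative (lead d G) ^ (d - (j - (k - i))))) ≤ B ^ d := by
        refine (map_mul_le_mul _ _ _).trans ?_
        have f1 : pn zn ((X : ℤ[X]) ^ (k - i)) ≤ 1 :=
          (seminorm_pow_le _ hone _ _).trans (pow_le_one₀ (apply_nonneg _ _) hX)
        have f2 : pn zn ((-lead (d - 1) G) ^ (j - (k - i)) *
          derivative (lead d G) ^ (d - (j - (k - i)))) ≤ B ^ d := by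
          refine (map_mul_le_mul _ _ _).trans ?_
          have g1 : pn zn ((-lead (d - 1) G) ^ (j - (k - i))) ≤ B ^ (j - (k - i)) :=
            (seminorm_pow_le _ hone _ _).trans (pow_le_pow_left₀ (apply_nonneg _ _) h1' _)
          have g2 : pn zn (derivative (lead d G) ^ (d - (j - (k - i)))) ≤
              B ^ (d - (j - (k - i))) :=
            (seminorm_pow_le _ hone _ _).trans (pow_le_pow_left₀ (apply_nonneg _ _) h0 _)
          calc _ ≤ B ^ (j - (k - i)) * B ^ (d - (j - (k - i))) :=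
                mul_le_mul g1 g2 (apply_nonneg _ _) (by positivity)
            _ = B ^ d := by rw [← pow_add]; congr 1; omega
        calc _ ≤ 1 * B ^ d := mul_le_mul f1 f2 (apply_nonneg _ _) (by norm_num)
          _ = B ^ d := one_mul _
      calc _ ≤ (|(((G.coeff j).coeff i : ℤ) : ℝ)| * 2 ^ d) * B ^ d :=
            mul_le_mul e1 e2 (apply_nonneg _ _) (by positivity)
        _ = _ := by ring
    · rw [map_zero]; positivity
  refine (seminorm_sum_le (pn zn) _ _).trans ((sum_le_sum step).trans ?_)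
  rw [← sum_mul]
  apply mul_le_mul_of_nonneg_right _ (by positivity)
  refine le_trans (le_of_eq ?_) hG
  rw [pn2_eq G (d + 1) (d + 1) (bds hT).1 (bds hT).2]

/-- Lower bound for the nonzero coefficients of the restriction to the asymptote. -/
theorem low_coeff (hd : 4 ≤ d) (hm : G.Monic) (hdeg : G.natDegree = d) (hT : TD d G) {H : ℝ}
    (hH : 1 ≤ H) (hG : pn (pn zn) G ≤ H) (hirr : Irreducible ((lead d G).map (Int.castRingHom ℚ)))
    (hη : evf η (lead d G) = 0) (hD0 : evf η (derivative (lead d G)) ≠ 0) {k : ℕ} (hk : k ≤ d)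
    (hne : (Ln G η (bet d G η)).coeff k ≠ 0) {K : ℝ} (hK : K = 2 + 2 * H) :
    1 ≤ |(Ln G η (bet d G η)).coeff k| * K ^ (6 * d ^ 3) := by
  have hd0 : 0 < d := by omega
  obtain ⟨hgm, hgd⟩ := lead_monic hm hdeg
  have hK1 : 1 ≤ K := by linarith
  have hK0 : 0 ≤ K := by linarith
  have hpg : pn zn (lead d G) ≤ H := (pn_lead_le hdeg.le).trans hG
  have hηH : |η| ≤ H := root_norm_le (lead d G) hgm H hH hpg η hη
  have hH2 : (1 : ℝ) ≤ 2 * H := by linarith
  have hdK : (d : ℝ) ≤ K ^ d := by rw [hK]; exact d_le_pow hH2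
  have hfK : (d.factorial : ℝ) ≤ K ^ (d ^ 2) := by rw [hK]; exact fact_le_pow hH2
  have hpd : pn zn (derivative (lead d G)) ≤ K ^ (d + 1) := by
    refine (pn_derivative_le zn _).trans ?_
    rw [hgd, pow_succ]
    exact mul_le_mul hdK (by linarith) (apply_nonneg _ _) (by positivity)
  have hp1 : pn zn (lead (d - 1) G) ≤ K ^ (d + 1) := by
    refine (pn_lead_le' hT hG (Nat.sub_le d 1)).trans ?_
    calc H ≤ K := by linarith
      _ = K ^ 1 := (pow_one K).symm
      _ ≤ K ^ (d + 1) := pow_le_pow_right₀ hK1 (by omega)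
  have hV := pn_VV_le hT hG (one_le_pow₀ hK1) hp1 hpd k
  have hVne : evf η (VV d G k) ≠ 0 := by
    rw [evf_VV (by omega) hT hD0]
    exact mul_ne_zero (pow_ne_zero _ hD0) hne
  have hVL : pn zn (VV d G k) ≤ K ^ (1 + d + (d + 1) * d) := by
    refine hV.trans ?_
    have h2 : (2 : ℝ) ^ d ≤ K ^ d := pow_le_pow_left₀ (by norm_num) (by linarith) _
    calc H * (2 ^ d * (K ^ (d + 1)) ^ d) ≤ K * (K ^ d * (K ^ (d + 1)) ^ d) := by
          apply mul_le_mul (by linarith) _ (by positivity) hK0
          exact mul_le_mul_of_nonneg_right h2 (by positivity)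
      _ = _ := by rw [← pow_mul, ← pow_add, ← pow_succ']; congr 1; ring
  have hlow := one_le_of_root' (𝕜 := ℝ) (lead d G) d hd0 hgm hgd (VV d G k)
    (nrm_ne_of_irr hgm hgd hirr _ η hη hVne) K (K ^ (1 + d + (d + 1) * d)) (d + d * d) hK1
    (by linarith) hVL (one_le_pow₀ hK1) (natDegree_VV k hk) η hη
    (by rw [Real.norm_eq_abs]; linarith)
  have hDle : |evf η (derivative (lead d G))| ≤ K ^ (d + 1) := by
    have h1 := tay_le (η := η) hT hG (0, 1) (by simp; omega)
    rw [tay01 hd0 hT] at h1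
    refine h1.trans ?_
    rw [pow_succ, mul_comm]
    apply mul_le_mul _ (by linarith) (by linarith) (by positivity)
    exact pow_le_pow_left₀ (by positivity) (by linarith) _
  rw [Real.norm_eq_abs, evf_VV (by omega) hT hD0, abs_mul, abs_pow] at hlow
  refine hlow.trans ?_
  obtain ⟨l, hl⟩ : ∃ l, l = |(Ln G η (bet d G η)).coeff k| := ⟨_, rfl⟩
  rw [← hl]
  have hl0 : 0 ≤ l := by rw [hl]; exact abs_nonneg _
  calc |evf η (derivative (lead d G))| ^ d * l * (d * (d.factorial *
        (K ^ (1 + d + (d + 1) * d) * K ^ (d + d * d)) ^ d) * K ^ d)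
      ≤ (K ^ (d + 1)) ^ d * l * (K ^ d * (K ^ (d ^ 2) *
        (K ^ (1 + d + (d + 1) * d) * K ^ (d + d * d)) ^ d) * K ^ d) := by
        gcongr
    _ = l * K ^ ((d + 1) * d + (d + (d ^ 2 + (1 + d + (d + 1) * d + (d + d * d)) * d) + d)) := by
        rw [← pow_add K (1 + d + (d + 1) * d), ← pow_mul, ← pow_mul, ← pow_add, ← pow_add,
          ← pow_add, pow_add K ((d + 1) * d)]
        ring
    _ ≤ l * K ^ (6 * d ^ 3) := by
        apply mul_le_mul_of_nonneg_left _ hl0
        apply pow_le_pow_right₀ hK1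
        nlinarith [Nat.mul_le_mul hd hd, Nat.mul_le_mul (Nat.mul_le_mul hd hd) hd,
          Nat.mul_le_mul hd (le_refl (d ^ 2)), Nat.mul_le_mul hd (le_refl d)]

end

end Pool.Agent.H91ES
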