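import Pool.Agent.H91ES.MainE

set_option autoImplicit false
set_option linter.unusedSectionVars false

/-!
The theorem for all heights.
-/

open Polynomial Finset

namespace Pool.Agent.H91ES

open Pool.Agent.H322R2 Pool.Agent.H674R3

theorem main4e (F : MvPolynomial (Fin 2) ℤ) (e : ℕ) (hd : 4 ≤ F.totalDegree)
    (hed : e + 4 ≤ F.totalDegree)
    (hirr : Irreducible (MvPolynomial.map (Int.castRingHom ℚ)
      (MvPolynomial.homogeneousComponent F.totalDegree F)))
    (hlines : ∀ p q : Fin 2 → ℝ, q ≠ 0 → e + 2 ≤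
      (MvPolynomial.aeval (fun i => (C (p i) + C (q i) * X : ℝ[X])) F).natDegree) :
    Set.encard {t : MvPolynomial (Fin 2) ℤ × ℤ × ℤ | t.1.totalDegree ≤ e ∧
      MvPolynomial.eval ![t.2.1, t.2.2] (F + t.1) = 0 ∧
      ((F.totalDegree + 1) * max (len F) (len t.1)) ^ (kG F.totalDegree)
        < max t.2.1.natAbs t.2.2.natAbs}
      ≤ (kN F.totalDegree * F.totalDegree : ℕ) := by
  classical
  obtain ⟨d, hdd⟩ : ∃ d, d = F.totalDegree := ⟨_, rfl⟩
  by_contra hcon
  push Not at hcon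
  have hcon' : ((kN F.totalDegree * F.totalDegree + 1 : ℕ) : ℕ∞) ≤
      Set.encard {t : MvPolynomial (Fin 2) ℤ × ℤ × ℤ | t.1.totalDegree ≤ e ∧
      MvPolynomial.eval ![t.2.1, t.2.2] (F + t.1) = 0 ∧
      ((F.totalDegree + 1) * max (len F) (len t.1)) ^ (kG F.totalDegree)
        < max t.2.1.natAbs t.2.2.natAbs} := by
    have := Order.add_one_le_of_lt hcon
    push_cast at this ⊢
    exact this
  obtain ⟨T0, hT0sub, hT0card⟩ := Set.exists_subset_encard_eq hcon'
  have hT0fin : T0.Finite := Set.finite_of_encard_eq_coe hT0card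
  obtain ⟨T1, hT1⟩ : ∃ T1 : Finset (MvPolynomial (Fin 2) ℤ × ℤ × ℤ), T1 = hT0fin.toFinset :=
    ⟨_, rfl⟩
  have hT1card : T1.card = kN d * d + 1 := by
    have h1 := hT0fin.encard_eq_coe_toFinset_card
    rw [hT0card, ← hT1, ← hdd] at h1
    exact_mod_cast h1.symm
  have hT1mem : ∀ t ∈ T1, t.1.totalDegree ≤ e ∧
      MvPolynomial.eval ![t.2.1, t.2.2] (F + t.1) = 0 ∧
      ((d + 1) * max (len F) (len t.1)) ^ (kG d) < max t.2.1.natAbs t.2.2.natAbs := by
    intro t ht
    rw [hT1, Set.Finite.mem_toFinset] at ht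
    have := hT0sub ht
    rw [hdd]
    exact this
  have hd' : 4 ≤ d := by omega
  have hd4 : (4 : ℝ) ≤ d := by exact_mod_cast hd'
  -- coordinates
  have hF0 : F ≠ 0 := by
    rintro rfl
    simp at hd
  obtain ⟨u, hu0, hcu⟩ := exists_u F hF0
  have hcl : lc F u ≠ 0 := hcu
  have hu : u ≤ d := by rw [hdd]; exact hu0
  have hlenF := len_pos hF0
  obtain ⟨hh, hhd⟩ : ∃ hh : MvPolynomial (Fin 2) ℤ × ℤ × ℤ → ℕ,
    hh = fun t => max (len F) (len t.1) := ⟨_, rfl⟩
  obtain ⟨W, hWd⟩ : ∃ W : MvPolynomial (Fin 2) ℤ × ℤ × ℤ → ℝ,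
    W = fun t => ((d : ℝ) + 1) * (hh t : ℝ) := ⟨_, rfl⟩
  obtain ⟨A, hAd⟩ : ∃ A : MvPolynomial (Fin 2) ℤ × ℤ × ℤ → ℝ,
    A = fun t => |((t.2.2 - u * t.2.1 : ℤ) : ℝ)| := ⟨_, rfl⟩
  have hh1 : ∀ t, 1 ≤ hh t := fun t => by rw [hhd]; exact hlenF.trans (le_max_left _ _)
  have hhF : ∀ t, len F ≤ hh t := fun t => by rw [hhd]; exact le_max_left _ _
  have hhR : ∀ t, len t.1 ≤ hh t := fun t => by rw [hhd]; exact le_max_right _ _
  have hh1R : ∀ t, (1 : ℝ) ≤ hh t := fun t => by exact_mod_cast hh1 t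
  have hW5 : ∀ t, 5 ≤ W t := fun t => by
    rw [hWd]
    have := hh1R t
    simp only
    nlinarith
  have hMM1 : ∀ t, 1 ≤ MM d (hh t) := fun t => one_le_MM (hh1 t)
  have hKW : ∀ t, 2 + 2 * MM d (hh t) ≤ W t ^ (d ^ 2 + 1) := fun t => by
    rw [hWd]; exact two_add_MM_le hd' (hh1 t)
  have htr := fun t (ht : t ∈ T1) => trip (x := t.2.1) (y := t.2.2) hdd hd' hirr hu hcl
    (by have := (hT1mem t ht).1; omega) (hhF t) (hhR t) (hT1mem t ht).2.1
  -- size
  have hWA : ∀ t ∈ T1, W t ^ (eG d) ≤ A t := by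
    intro t ht
    obtain ⟨-, -, -, -, -, p6, p7⟩ := htr t ht
    have hlt := (hT1mem t ht).2.2
    have hW1 : 1 ≤ W t := by linarith [hW5 t]
    obtain ⟨B, hB⟩ : ∃ B, B = max 1 |((t.2.2 - u * t.2.1 : ℤ) : ℝ)| := ⟨_, rfl⟩
    have hWt : ((d : ℝ) + 1) * (hh t) = W t := by rw [hWd]
    rw [← hB, hWt] at p6 p7
    have hbig : W t ^ (kG d) < ((max t.2.1.natAbs t.2.2.natAbs : ℕ) : ℝ) := by
      have h1 : W t ^ (kG d) = ((((d + 1) * max (len F) (len t.1)) ^ (kG d) : ℕ) : ℝ) := by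
        rw [← hWt, hhd]; push_cast; ring
      rw [h1]
      exact_mod_cast hlt
    have hmax : ((max t.2.1.natAbs t.2.2.natAbs : ℕ) : ℝ) ≤ W t ^ (d ^ 2 + 2) * B := by
      rw [Nat.cast_max, Nat.cast_natAbs, Nat.cast_natAbs, Int.cast_abs, Int.cast_abs]
      exact max_le p6 p7
    have h2 : W t ^ (d ^ 2 + 2) * W t ^ (eG d) < W t ^ (d ^ 2 + 2) * B := by
      rw [← pow_add]
      refine lt_of_le_of_lt (pow_le_pow_right₀ hW1 (eG_le d)) (lt_of_lt_of_le hbig hmax)
    have h3 : W t ^ (eG d) < B := lt_of_mul_lt_mul_left h2 (by positivity)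
    have h4 : 1 ≤ W t ^ (eG d) := one_le_pow₀ hW1
    rw [hB] at h3
    rcases lt_max_iff.1 h3 with h | h
    · linarith
    · rw [hAd]; exact h.le
  have hA1 : ∀ t ∈ T1, 1 ≤ A t := fun t ht =>
    (one_le_pow₀ (by linarith [hW5 t])).trans (hWA t ht)
  -- monic model
  obtain ⟨G, hG⟩ : ∃ G, G = GG F u := ⟨_, rfl⟩
  have hm : G.Monic := by rw [hG]; exact GG_monic hcl
  have hdeg : G.natDegree = d := by rw [hG, GG_natDegree hcl, hdd]
  have hT : TD d G := by rw [hG, hdd]; exact GG_TD hcl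
  have hirrL : Irreducible ((lead d G).map (Int.castRingHom ℚ)) := by
    rw [hG, hdd]; exact lead_irr hcl (by omega) hirr
  obtain ⟨hgm, hgd⟩ := lead_monic hm hdeg
  simp only [← hG] at htr
  have hsel : ∀ t ∈ T1, ∃ η : ℝ, evf η (lead d G) = 0 ∧
      |((lc F u * t.2.1 : ℤ) : ℝ) / ((t.2.2 - u * t.2.1 : ℤ) : ℝ) - η| ≤ cR d (2 * MM d (hh t)) := by
    intro t ht
    obtain ⟨p1, p2, p3, p4, p5, -, -⟩ := htr t ht
    apply sel_mono hd' hm hdeg hT hirrL (hMM1 t) p1 p2 p3 p5
    have h1 : (2 + 2 * MM d (hh t)) ^ (128 * d ^ 3) ≤ W t ^ (eG d) := by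
      calc (2 + 2 * MM d (hh t)) ^ (128 * d ^ 3) ≤ (W t ^ (d ^ 2 + 1)) ^ (128 * d ^ 3) :=
            pow_le_pow_left₀ (by linarith [hMM1 t]) (hKW t) _
        _ = W t ^ ((d ^ 2 + 1) * (128 * d ^ 3)) := by rw [← pow_mul]
        _ ≤ W t ^ (eG d) := pow_le_pow_right₀ (by linarith [hW5 t]) (eG_ge1 (by omega))
    have h2 := hWA t ht
    rw [hAd] at h2
    exact h1.trans h2
  choose! f hf1 hf2 using hsel
  obtain ⟨S, hS⟩ : ∃ S, S = ((lead d G).map (Int.castRingHom ℝ)).roots.toFinset := ⟨_, rfl⟩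
  have hg0 : (lead d G).map (Int.castRingHom ℝ) ≠ 0 := (hgm.map _).ne_zero
  have hmem : ∀ η : ℝ, η ∈ S ↔ evf η (lead d G) = 0 := by
    intro η
    rw [hS, Multiset.mem_toFinset, mem_roots hg0, IsRoot.def, eval_map, evf, coe_eval₂RingHom]
  have hScard : S.card ≤ d := by
    rw [hS]
    refine (Multiset.toFinset_card_le _).trans ((card_roots' _).trans ?_)
    rw [hgm.natDegree_map, hgd]
  have hkap1 := one_le_kap d
  have hfin := Finset.card_le_mul_card_image_of_maps_to (s := T1) (t := S) (f := f)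
    (fun t ht => (hmem _).2 (hf1 t ht)) (kN d) (by
      intro η hη
      have hη0 := (hmem η).1 hη
      obtain ⟨T, hTd⟩ : ∃ T, T = T1.filter (fun t => f t = η) := ⟨_, rfl⟩
      rw [← hTd]
      have hTsub : ∀ t ∈ T, t ∈ T1 ∧ f t = η := by
        intro t ht
        rw [hTd, Finset.mem_filter] at ht
        exact ht
      rcases T.eq_empty_or_nonempty with hTe | hTne
      · rw [hTe]; simp
      obtain ⟨t0, ht0, hmin⟩ := Finset.exists_min_image T A hTne
      obtain ⟨t1, ht1, hmax⟩ := Finset.exists_max_image T hh hTne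
      have hbB : ∀ t ∈ T1, (bB d (2 * MM d (hh t)) ^ (kap d)) ^ 2 ≤ A t := by
        intro t ht
        refine le_trans ?_ (hWA t ht)
        have h1 : bB d (2 * MM d (hh t)) ≤ W t ^ ((d ^ 2 + 1) * (64 * d ^ 2)) := by
          unfold bB
          rw [pow_mul (W t)]
          exact pow_le_pow_left₀ (by linarith [hMM1 t]) (hKW t) _
        have h0 : 0 ≤ bB d (2 * MM d (hh t)) := by
          unfold bB
          exact pow_nonneg (by linarith [hMM1 t]) _
        calc (bB d (2 * MM d (hh t)) ^ (kap d)) ^ 2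
            ≤ ((W t ^ ((d ^ 2 + 1) * (64 * d ^ 2))) ^ (kap d)) ^ 2 :=
              pow_le_pow_left₀ (pow_nonneg h0 _) (pow_le_pow_left₀ h0 h1 _) _
          _ = W t ^ ((d ^ 2 + 1) * (64 * d ^ 2) * (2 * kap d)) := by
              rw [← pow_mul, ← pow_mul]; congr 1; ring
          _ ≤ W t ^ (eG d) := pow_le_pow_right₀ (by linarith [hW5 t]) (eG_ge2 (by omega))
      have hbB1 : ∀ t, 1 ≤ bB d (2 * MM d (hh t)) := by
        intro t
        unfold bB
        exact one_le_pow₀ (by linarith [hMM1 t])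
      -- the two-point principle
      have htwo : ∀ t ∈ T, A t ≤ (A t0) ^ (2 * kap d) := by
        intro t ht
        obtain ⟨ht', hft⟩ := hTsub t ht
        obtain ⟨ht0', hft0⟩ := hTsub t0 ht0
        obtain ⟨p1, p2, p3, p4, p5, -, -⟩ := htr t ht'
        obtain ⟨q1, q2, q3, q4, q5, -, -⟩ := htr t0 ht0'
        have hn := hf2 t ht'
        have hn0 := hf2 t0 ht0'
        rw [hft] at hn
        rw [hft0] at hn0
        have hb0 : (bB d (2 * MM d (hh t0))) ^ (kap d) ≤ A t0 := by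
          refine le_trans ?_ (hbB t0 ht0')
          have h1 : 1 ≤ (bB d (2 * MM d (hh t0))) ^ (kap d) := one_le_pow₀ (hbB1 t0)
          nlinarith
        have h1 := two_mono hd' hm hdeg hT hirrL η hη0 (hMM1 t0) (hMM1 t) q1 p1 q2 p2 q3 p3
          q4 p4 q5 p5 hn0 hn (by rw [hAd] at hb0; exact hb0)
        have h2 : A t ≤ (A t0) ^ (kap d) * (bB d (2 * MM d (hh t))) ^ (kap d) := by
          rw [← mul_pow, hAd]; exact h1
        have h3 := hbB t ht'
        have hAt := hA1 t ht'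
        have hA0 := hA1 t0 ht0'
        obtain ⟨P, hP⟩ : ∃ P, P = (A t0) ^ (kap d) := ⟨_, rfl⟩
        obtain ⟨Q, hQ⟩ : ∃ Q, Q = (bB d (2 * MM d (hh t))) ^ (kap d) := ⟨_, rfl⟩
        have hP1 : 1 ≤ P := by rw [hP]; exact one_le_pow₀ hA0
        have hQ1 : 1 ≤ Q := by rw [hQ]; exact one_le_pow₀ (hbB1 t)
        rw [← hP, ← hQ] at h2
        rw [← hQ] at h3
        have h4 : (A t0) ^ (2 * kap d) = P ^ 2 := by rw [hP, ← pow_mul, mul_comm]
        rw [h4]
        have h5 : (A t) ^ 2 ≤ P ^ 2 * A t := by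
          calc (A t) ^ 2 ≤ (P * Q) ^ 2 := pow_le_pow_left₀ (by linarith) h2 2
            _ = P ^ 2 * Q ^ 2 := by ring
            _ ≤ P ^ 2 * A t := mul_le_mul_of_nonneg_left h3 (by positivity)
        have h6 : A t * A t ≤ P ^ 2 * A t := by rw [← sq]; exact h5
        exact le_of_mul_le_mul_right h6 (by linarith)
      have ht1' := (hTsub t1 ht1).1
      have ht0' := (hTsub t0 ht0).1
      have hW1A : W t1 ^ (kC d + 2) ≤ A t0 := by
        have h1 : (W t1 ^ (kC d + 2)) ^ (2 * kap d) ≤ (A t0) ^ (2 * kap d) := by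
          refine le_trans (le_of_eq ?_) ((hWA t1 ht1').trans (htwo t1 ht1))
          rw [← pow_mul]
          unfold eG
          congr 1; ring
        exact le_of_pow_le_pow_left₀ (by omega) (by linarith [hA1 t0 ht0']) h1
      -- all the points of the class are large relative to the largest height
      have hlarge : ∀ t ∈ T, W t1 ^ (kC d) < ((max t.2.1.natAbs t.2.2.natAbs : ℕ) : ℝ) := by
        intro t ht
        have ht' := (hTsub t ht).1
        have h1 : W t1 ^ (kC d + 2) ≤ A t := hW1A.trans (hmin t ht)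
        obtain ⟨B, hB⟩ : ∃ B : ℝ, B = ((max t.2.1.natAbs t.2.2.natAbs : ℕ) : ℝ) := ⟨_, rfl⟩
        have hx : |(t.2.1 : ℝ)| ≤ B := by
          rw [hB, Nat.cast_max, Nat.cast_natAbs, Int.cast_abs]
          exact le_max_left _ _
        have hy : |(t.2.2 : ℝ)| ≤ B := by
          rw [hB, Nat.cast_max, Nat.cast_natAbs, Nat.cast_natAbs, Int.cast_abs, Int.cast_abs]
          exact le_max_right _ _
        have hA : A t ≤ ((d : ℝ) + 1) * B := by
          rw [hAd]
          simp only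
          push_cast
          refine (abs_sub _ _).trans ?_
          rw [abs_mul, Nat.abs_cast]
          have h6 : (u : ℝ) ≤ d := by exact_mod_cast hu
          have h7 : (u : ℝ) * |(t.2.1 : ℝ)| ≤ d * B := mul_le_mul h6 hx (abs_nonneg _) (by linarith)
          linarith
        rw [← hB]
        have hW5' := hW5 t1
        have hWd1 : (d : ℝ) + 1 ≤ W t1 := by
          rw [hWd]
          exact le_mul_of_one_le_right (by linarith) (hh1R t1)
        have h8 : W t1 ^ (kC d) * W t1 * W t1 ≤ W t1 * B := by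
          have hB0 : 0 ≤ B := (abs_nonneg _).trans hx
          calc W t1 ^ (kC d) * W t1 * W t1 = W t1 ^ (kC d + 2) := by ring
            _ ≤ ((d : ℝ) + 1) * B := h1.trans hA
            _ ≤ W t1 * B := mul_le_mul_of_nonneg_right hWd1 hB0
        have h9 : W t1 ^ (kC d) * W t1 ≤ B := by
          have h10 : W t1 * (W t1 ^ (kC d) * W t1) ≤ W t1 * B := by linarith
          exact le_of_mul_le_mul_left h10 (by linarith)
        have h11 : 0 < W t1 ^ (kC d) := by positivity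
        nlinarith
      -- apply the theorem for bounded heights
      have hmain := main3e F (hh t1) e hd hed hirr hlines (hhF t1)
      have hsub : (T : Set (MvPolynomial (Fin 2) ℤ × ℤ × ℤ)) ⊆
          {t : MvPolynomial (Fin 2) ℤ × ℤ × ℤ | t.1.totalDegree ≤ e ∧
            len t.1 ≤ hh t1 ∧ MvPolynomial.eval ![t.2.1, t.2.2] (F + t.1) = 0 ∧
            ((F.totalDegree + 1) * hh t1) ^ (kC F.totalDegree)
              < max t.2.1.natAbs t.2.2.natAbs} := by
        intro t ht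
        rw [Finset.mem_coe] at ht
        have ht' := (hTsub t ht).1
        obtain ⟨g1, g2, -⟩ := hT1mem t ht'
        refine ⟨g1, (hhR t).trans (hmax t ht), g2, ?_⟩
        have h1 := hlarge t ht
        have h2 : W t1 ^ (kC d) = ((((d + 1) * hh t1) ^ (kC d) : ℕ) : ℝ) := by
          rw [hWd]; push_cast; ring
        rw [h2] at h1
        rw [← hdd]
        exact_mod_cast h1
      have h3 := (Set.encard_le_encard hsub).trans hmain
      rw [Set.encard_coe_eq_coe_finsetCard, ← hdd] at h3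
      exact_mod_cast h3)
  rw [hT1card] at hfin
  have := Nat.mul_le_mul_left (kN d) hScard
  omega

end Pool.Agent.H91ES
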