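import Pool.Agent.H91ES.MonoE
import Pool.Agent.H674R3.SiegelE

set_option autoImplicit false
set_option linter.unusedSectionVars false

/-!
At most `N(d)` integer points of size larger than a power of the height on all the curves
`F + R = 0`, `deg R ≤ e`, when no real line meets the curve `F = 0` at infinity with multiplicity
larger than `d - e - 2`.
-/

open Polynomial Finset

namespace Pool.Agent.H91ES

open Pool.Agent.H322R2 Pool.Agent.H674R3

/-- the degree of `F` on a line -/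
noncomputable def ldeg (F : MvPolynomial (Fin 2) ℤ) (p q : Fin 2 → ℝ) : ℕ :=
  (MvPolynomial.aeval (fun i => (C (p i) + C (q i) * X : ℝ[X])) F).natDegree

theorem main3e (F : MvPolynomial (Fin 2) ℤ) (H e : ℕ) (hd : 4 ≤ F.totalDegree)
    (hed : e + 4 ≤ F.totalDegree)
    (hirr : Irreducible (MvPolynomial.map (Int.castRingHom ℚ)
      (MvPolynomial.homogeneousComponent F.totalDegree F)))
    (hlines : ∀ p q : Fin 2 → ℝ, q ≠ 0 → e + 2 ≤
      (MvPolynomial.aeval (fun i => (C (p i) + C (q i) * X : ℝ[X])) F).natDegree)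
    (hFH : len F ≤ H) :
    Set.encard {t : MvPolynomial (Fin 2) ℤ × ℤ × ℤ | t.1.totalDegree ≤ e ∧
      len t.1 ≤ H ∧ MvPolynomial.eval ![t.2.1, t.2.2] (F + t.1) = 0 ∧
      ((F.totalDegree + 1) * H) ^ (kC F.totalDegree) < max t.2.1.natAbs t.2.2.natAbs}
      ≤ (kN F.totalDegree : ℕ) := by
  classical
  obtain ⟨d, hdd⟩ : ∃ d, d = F.totalDegree := ⟨_, rfl⟩
  by_contra hcon
  push Not at hcon
  have hcon' : ((kN F.totalDegree + 1 : ℕ) : ℕ∞) ≤ Set.encard {t : MvPolynomial (Fin 2) ℤ × ℤ × ℤ |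
      t.1.totalDegree ≤ e ∧
      len t.1 ≤ H ∧ MvPolynomial.eval ![t.2.1, t.2.2] (F + t.1) = 0 ∧
      ((F.totalDegree + 1) * H) ^ (kC F.totalDegree) < max t.2.1.natAbs t.2.2.natAbs} := by
    have := Order.add_one_le_of_lt hcon
    push_cast
    exact this
  obtain ⟨T0, hT0sub, hT0card⟩ := Set.exists_subset_encard_eq hcon'
  have hT0fin : T0.Finite := Set.finite_of_encard_eq_coe hT0card
  obtain ⟨T1, hT1⟩ : ∃ T1 : Finset (MvPolynomial (Fin 2) ℤ × ℤ × ℤ), T1 = hT0fin.toFinset :=
    ⟨_, rfl⟩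
  have hT1card : T1.card = kN F.totalDegree + 1 := by
    have h1 := hT0fin.encard_eq_coe_toFinset_card
    rw [hT0card, ← hT1] at h1
    exact_mod_cast h1.symm
  have hT1mem : ∀ t ∈ T1, t.1.totalDegree ≤ e ∧
      len t.1 ≤ H ∧ MvPolynomial.eval ![t.2.1, t.2.2] (F + t.1) = 0 ∧
      ((F.totalDegree + 1) * H) ^ (kC F.totalDegree) < max t.2.1.natAbs t.2.2.natAbs := by
    intro t ht
    rw [hT1, Set.Finite.mem_toFinset] at ht
    exact hT0sub ht
  -- coordinates
  have hF0 : F ≠ 0 := by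
    rintro rfl
    simp at hd
  obtain ⟨u, hu, hcu⟩ := exists_u F hF0
  have hcl : lc F u ≠ 0 := hcu
  have hHn : 1 ≤ H := (len_pos hF0).trans hFH
  have hH1 : (1 : ℝ) ≤ H := by exact_mod_cast hHn
  have hd' : 4 ≤ d := by omega
  have hd4 : (4 : ℝ) ≤ d := by exact_mod_cast hd'
  obtain ⟨w, hw⟩ : ∃ w : ℝ, w = ((d : ℝ) + 1) * (H : ℝ) := ⟨_, rfl⟩
  have hw5 : 5 ≤ w := by rw [hw]; nlinarith
  obtain ⟨M, hM⟩ : ∃ M : ℝ, M = MM d H := ⟨_, rfl⟩
  have hM1 : 1 ≤ M := by rw [hM]; exact one_le_MM hHn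
  obtain ⟨K, hK⟩ : ∃ K : ℝ, K = 2 + 2 * M := ⟨_, rfl⟩
  have hK1 : 1 ≤ K := by linarith
  have hKw : K ≤ w ^ (d ^ 2 + 1) := by
    rw [hK, hM, hw]; exact two_add_MM_le hd' hHn
  have hKE : K ^ (E1 d) ≤ w ^ ((d ^ 2 + 1) * E1 d) := by
    rw [pow_mul]; exact pow_le_pow_left₀ (by linarith) hKw _
  have htr := fun t (ht : t ∈ T1) => trip (x := t.2.1) (y := t.2.2) hdd hd' hirr (by omega) hcl
    (by have := (hT1mem t ht).1; omega) hFH (hT1mem t ht).2.1 (hT1mem t ht).2.2.1
  have hne : T1.Nonempty := by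
    rw [← Finset.card_pos, hT1card]
    omega
  have hpnG : pn (pn zn) (GG F u) ≤ M := by
    obtain ⟨t, ht⟩ := hne
    rw [hM]
    exact (htr t ht).1
  -- properties of each triple
  have hprop : ∀ t ∈ T1, K ^ (E1 d) ≤ |((t.2.2 - u * t.2.1 : ℤ) : ℝ)| ∧
      TD e (RR F t.1 u) ∧ pn (pn zn) (RR F t.1 u) ≤ M ∧ Prime (GG F u + RR F t.1 u) ∧
      ev (t.2.2 - u * t.2.1) (lc F u * t.2.1) (GG F u + RR F t.1 u) = 0 := by
    intro t ht
    obtain ⟨h1, h2, h3, h4⟩ := hT1mem t ht
    obtain ⟨-, p2, p3, p4, p5, p6, p7⟩ := htr t ht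
    refine ⟨?_, RR_TDe h1, by rw [hM]; exact p3, p4, p5⟩
    by_contra hsmall
    push Not at hsmall
    rw [← hw] at p6 p7
    have hmax : max 1 |((t.2.2 - u * t.2.1 : ℤ) : ℝ)| ≤ K ^ (E1 d) :=
      max_le (one_le_pow₀ hK1) hsmall.le
    obtain ⟨B, hB⟩ : ∃ B, B = K ^ (E1 d) := ⟨_, rfl⟩
    rw [← hB] at hmax
    have hfinal : w ^ (d ^ 2 + 2) * B ≤ w ^ (kC d) := by
      calc w ^ (d ^ 2 + 2) * B ≤ w ^ (d ^ 2 + 2) * w ^ ((d ^ 2 + 1) * E1 d) := by
            rw [hB]
            exact mul_le_mul_of_nonneg_left hKE (by positivity)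
        _ = w ^ (d ^ 2 + 2 + (d ^ 2 + 1) * E1 d) := by rw [← pow_add]
        _ ≤ _ := pow_le_pow_right₀ (by linarith) (kC_ge (by omega))
    have hx2 : |(t.2.1 : ℝ)| ≤ w ^ (kC d) :=
      (p6.trans (mul_le_mul_of_nonneg_left hmax (by positivity))).trans hfinal
    have hy2 : |(t.2.2 : ℝ)| ≤ w ^ (kC d) :=
      (p7.trans (mul_le_mul_of_nonneg_left hmax (by positivity))).trans hfinal
    have hwc : w ^ (kC d) = ((((d + 1) * H) ^ (kC d) : ℕ) : ℝ) := by rw [hw]; push_cast; ring
    have hfx : t.2.1.natAbs ≤ ((d + 1) * H) ^ (kC d) := by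
      have h5 : ((t.2.1.natAbs : ℕ) : ℝ) ≤ ((((d + 1) * H) ^ (kC d) : ℕ) : ℝ) := by
        rw [Nat.cast_natAbs, Int.cast_abs, ← hwc]
        exact hx2
      exact_mod_cast h5
    have hfy : t.2.2.natAbs ≤ ((d + 1) * H) ^ (kC d) := by
      have h5 : ((t.2.2.natAbs : ℕ) : ℝ) ≤ ((((d + 1) * H) ^ (kC d) : ℕ) : ℝ) := by
        rw [Nat.cast_natAbs, Int.cast_abs, ← hwc]
        exact hy2
      exact_mod_cast h5
    rw [← hdd] at h4
    exact absurd h4 (not_lt.2 (max_le hfx hfy))
  -- injectivity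
  obtain ⟨φ, hφ⟩ : ∃ φ : MvPolynomial (Fin 2) ℤ × ℤ × ℤ → ℤ × ℤ,
      φ = fun t : MvPolynomial (Fin 2) ℤ × ℤ × ℤ => (t.2.2 - u * t.2.1, lc F u * t.2.1) :=
    ⟨_, rfl⟩
  have hinj : Set.InjOn φ T1 := by
    intro t ht t' ht' htt
    obtain ⟨p1, p2, p3, p4, p5⟩ := hprop t (Finset.mem_coe.1 ht)
    obtain ⟨q1, q2, q3, q4, q5⟩ := hprop t' (Finset.mem_coe.1 ht')
    obtain ⟨R, x, y⟩ := t
    obtain ⟨R', x', y'⟩ := t'
    simp only [hφ, Prod.mk.injEq] at htt
    obtain ⟨e1, e2⟩ := htt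
    have ex : x = x' := mul_left_cancel₀ hcl e2
    have ey : y = y' := by rw [ex] at e1; linarith
    subst ex; subst ey
    have hRR : R = R' := by
      by_contra hne
      obtain ⟨V, hV⟩ : ∃ V, V = RR F R u - RR F R' u := ⟨_, rfl⟩
      simp only at p1 p2 p3 p4 p5 q1 q2 q3 q4 q5
      have hVev : ev (y - u * x) (lc F u * x) V = 0 := by
        rw [hV, map_sub]
        rw [map_add] at p5 q5
        linear_combination p5 - q5
      have hV0 : V ≠ 0 := by
        intro h0
        rw [hV, sub_eq_zero] at h0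
        apply hne
        apply (shE ℤ (u : ℤ)).injective
        apply (toB ℤ).injective
        show F2 R u = F2 R' u
        have hd1 := (hT1mem _ (Finset.mem_coe.1 ht)).1
        have hd2 := (hT1mem _ (Finset.mem_coe.1 ht')).1
        simp only at hd1 hd2
        ext1 j
        by_cases hj : j < F.totalDegree - 4 + 1
        · have h5 := congrArg (fun p => coeff p j) h0
          simp only [RR_coeff, if_pos hj] at h5
          have h6 : (C ((lc F u) ^ (F.totalDegree - 1 - j)) : ℤ[X]) ≠ 0 := by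
            rw [Ne, C_eq_zero]
            exact pow_ne_zero _ hcl
          exact mul_right_cancel₀ h6 h5
        · rw [coeff_eq_zero_of_natDegree_lt, coeff_eq_zero_of_natDegree_lt]
          · have := (TD_toB (u : ℤ) R').1
            rw [F2]; omega
          · have := (TD_toB (u : ℤ) R).1
            rw [F2]; omega
      have hVn : V.natDegree ≤ d - 4 := by
        rw [hV]; exact (natDegree_sub_le _ _).trans (by
          have := p2.1
          have := q2.1
          omega)
      have hm' : (GG F u + RR F R u).Monic := by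
        apply (GG_monic hcl).add_of_left
        apply degree_lt_degree
        rw [GG_natDegree hcl, ← hdd]
        have := p2.1; omega
      have hdm' : (GG F u + RR F R u).natDegree = d := by
        rw [natDegree_add_eq_left_of_natDegree_lt, GG_natDegree hcl, hdd]
        rw [GG_natDegree hcl, ← hdd]
        have := p2.1; omega
      have hVd : V.degree < d := by
        rw [degree_eq_natDegree hV0]
        exact_mod_cast (show V.natDegree < d by omega)
      have ha1 : (1 : ℝ) ≤ |((y - u * x : ℤ) : ℝ)| := (one_le_pow₀ hK1).trans p1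
      have ha0 : (y - u * x : ℤ) ≠ 0 := by
        intro h; rw [h] at ha1; simp at ha1; linarith
      have h5 := small_curve (GG F u + RR F R u) d (by omega) hm' hdm' p4 (y - u * x)
        (lc F u * x) ha0 p5 V hV0 hVd hVev (2 * M) (by
          rw [hV]
          exact (map_sub_le_add _ _ _).trans (by linarith))
      have h6 : (d.factorial : ℝ) * (2 * M * (1 + pn (pn zn) (GG F u + RR F R u)) ^ d) ^ d
          ≤ K ^ (2 * d ^ 2 + d) := by
        have h7 : (d.factorial : ℝ) ≤ K ^ (d ^ 2) := by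
          rw [hK]; exact fact_le_pow (by linarith)
        have h8 : 1 + pn (pn zn) (GG F u + RR F R u) ≤ K := by
          have := map_add_le_add (pn (pn zn)) (GG F u) (RR F R u)
          linarith
        have h9 : 0 ≤ pn (pn zn) (GG F u + RR F R u) := apply_nonneg _ _
        calc _ ≤ K ^ (d ^ 2) * (K * K ^ d) ^ d := by
              apply mul_le_mul h7 _ (by positivity) (by positivity)
              apply pow_le_pow_left₀ (by positivity)
              apply mul_le_mul (by linarith) (pow_le_pow_left₀ (by linarith) h8 _) (by positivity)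
                (by linarith)
          _ = _ := by
              rw [← pow_succ', ← pow_mul, ← pow_add]; congr 1; ring
      have h10 : K ^ (2 * d ^ 2 + d) < K ^ (E1 d) := by
        apply pow_lt_pow_right₀ (by linarith)
        refine lt_of_lt_of_le ?_ (E1_ge d)
        have h12 : d ^ 2 ≤ d ^ 5 := Nat.pow_le_pow_right (by omega) (by norm_num)
        have h13 : d ≤ d ^ 5 := Nat.le_self_pow (by norm_num) d
        have h14 : 1 ≤ d ^ 5 := Nat.one_le_pow _ _ (by omega)
        omega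
      linarith
    rw [hRR]
  have hcard : (T1.image φ).card = T1.card := Finset.card_image_of_injOn hinj
  have hfinal := mono_countE (d := d) (by omega) (GG_monic hcl) (by rw [GG_natDegree hcl, hdd])
    (by rw [hdd]; exact GG_TD hcl) hM1 hpnG
    (by rw [hdd]; exact lead_irr hcl (by omega) hirr) (e := e) (by omega)
    (fun η _ => Ln_GG hcl hd hlines η _)
    (T1.image φ) (by
      intro P hP
      rw [Finset.mem_image] at hP
      obtain ⟨t, ht, rfl⟩ := hP
      obtain ⟨p1, p2, p3, p4, p5⟩ := hprop t ht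
      rw [hφ]
      simp only
      rw [← hK]
      exact ⟨p1, RR F t.1 u, p2, p3, p4, p5⟩)
  rw [hcard, hT1card, ← hdd] at hfinal
  have := kN_geE (d := d) (by omega)
  omega

end Pool.Agent.H91ES
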