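import Pool.Agent.H91ES.Two
import Pool.Agent.H322R2.DFin
import Pool.Agent.H674R3.SiegelA

set_option autoImplicit false
set_option linter.unusedSectionVars false

/-!
Counting the large integer points on all curves `G + R = 0`, `deg R ≤ e`, monic case, when the
real asymptotes are not too flat.
-/

open Polynomial Finset

namespace Pool.Agent.H91ES

open Pool.Agent.H322R2 Pool.Agent.H674R3

theorem mono_countE {d : ℕ} (hd : 4 ≤ d) {G : ℤ[X][X]} (hm : G.Monic) (hdeg : G.natDegree = d)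
    (hT : TD d G) {H : ℝ} (hH : 1 ≤ H) (hG : pn (pn zn) G ≤ H)
    (hirr : Irreducible ((lead d G).map (Int.castRingHom ℚ))) {e : ℕ} (hed : e + 4 ≤ d)
    (hl : ∀ η : ℝ, evf η (lead d G) = 0 → e + 2 ≤ (Ln G η (bet d G η)).natDegree)
    (T : Finset (ℤ × ℤ))
    (hP : ∀ P ∈ T, (2 + 2 * H) ^ (E1 d) ≤ |(P.1 : ℝ)| ∧
      ∃ R : ℤ[X][X], TD e R ∧ pn (pn zn) R ≤ H ∧ Prime (G + R) ∧ ev P.1 P.2 (G + R) = 0) :
    T.card ≤ (160 * d ^ 2 * kap d + (4 * d) * (8 * kap d)) * d := by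
  classical
  obtain ⟨hgm, hgd⟩ := lead_monic hm hdeg
  apply mono_countD hd hm hdeg hT hH hG hirr (4 * d) T _ (by
    intro P hPT
    obtain ⟨h1, R, hR1, hR2, hR3, hR4⟩ := hP P hPT
    exact ⟨h1, R, TD_mono hR1 (by omega), hR2, hR3, hR4⟩)
  intro S hS hcol
  have hsel : ∀ P ∈ S, ∃ η : ℝ, evf η (lead d G) = 0 ∧ |(P.2 : ℝ) / P.1 - η| ≤ cR d (2 * H) := by
    intro P hPS
    obtain ⟨h1, R, hR1, hR2, hR3, hR4⟩ := hP P (hS hPS)
    apply sel_mono hd hm hdeg hT hirr hH hG (TD_mono hR1 (by omega)) hR2 hR4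
    refine le_trans ?_ h1
    apply pow_le_pow_right₀ (by linarith)
    refine le_trans ?_ (E1_ge d)
    have h6 : d ^ 3 ≤ d ^ 5 := Nat.pow_le_pow_right (by omega) (by norm_num)
    omega
  choose! f hf1 hf2 using hsel
  obtain ⟨Z, hZ⟩ : ∃ Z, Z = ((lead d G).map (Int.castRingHom ℝ)).roots.toFinset := ⟨_, rfl⟩
  have hg0 : (lead d G).map (Int.castRingHom ℝ) ≠ 0 := (hgm.map _).ne_zero
  have hmem : ∀ η : ℝ, η ∈ Z ↔ evf η (lead d G) = 0 := by
    intro η
    rw [hZ, Multiset.mem_toFinset, mem_roots hg0, IsRoot.def, eval_map, evf, coe_eval₂RingHom]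
  have hZcard : Z.card ≤ d := by
    rw [hZ]
    refine (Multiset.toFinset_card_le _).trans ((card_roots' _).trans ?_)
    rw [hgm.natDegree_map, hgd]
  have h1 := Finset.card_le_mul_card_image_of_maps_to (s := S) (t := Z) (f := f)
    (fun P hPS => (hmem _).2 (hf1 P hPS)) 4 (by
      intro η hη
      have hη0 := (hmem η).1 hη
      apply line_two hd hm hdeg hT hH hG hirr hη0 (hl η hη0)
      · intro P hP Q hQ R hR
        exact hcol P (Finset.mem_filter.1 hP).1 Q (Finset.mem_filter.1 hQ).1 R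
          (Finset.mem_filter.1 hR).1
      · intro P hPF
        rw [Finset.mem_filter] at hPF
        obtain ⟨a1, R, a2, a3, -, a4⟩ := hP P (hS hPF.1)
        refine ⟨a1, ?_, R, a2, a3, a4⟩
        have := hf2 P hPF.1
        rwa [hPF.2] at this)
  exact h1.trans (Nat.mul_le_mul_left _ hZcard)

lemma kN_geE {d : ℕ} (hd : 1 ≤ d) :
    (160 * d ^ 2 * kap d + (4 * d) * (8 * kap d)) * d ≤ kN d := by
  unfold kN kap
  have h1 : d ^ 3 ≤ (d + 1) ^ 3 := Nat.pow_le_pow_left (by omega) _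
  have h2 : d ^ 2 ≤ (d + 1) ^ 3 := by
    calc d ^ 2 ≤ d ^ 3 := Nat.pow_le_pow_right hd (by norm_num)
      _ ≤ _ := h1
  obtain ⟨t, ht⟩ : ∃ t, t = 10 ^ 6 * 36 ^ d * (d + 1) ^ 4 := ⟨_, rfl⟩
  rw [← ht]
  calc (160 * d ^ 2 * t + (4 * d) * (8 * t)) * d = 160 * t * d ^ 3 + 32 * t * d ^ 2 := by ring
    _ ≤ 160 * t * (d + 1) ^ 3 + 32 * t * (d + 1) ^ 3 :=
        Nat.add_le_add (Nat.mul_le_mul_left _ h1) (Nat.mul_le_mul_left _ h2)
    _ = 192 * 10 ^ 6 * 36 ^ d * (d + 1) ^ 7 := by rw [ht]; ring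
    _ ≤ _ := by
      apply Nat.mul_le_mul_right
      apply Nat.mul_le_mul_right
      norm_num

/-- the restriction of the monic model to a real asymptote, as a restriction of `F` to a line -/
lemma Ln_GG {F : MvPolynomial (Fin 2) ℤ} {u : ℕ} (hc : lc F u ≠ 0)
    (hd : 4 ≤ F.totalDegree) {m : ℕ}
    (hlines : ∀ p q : Fin 2 → ℝ, q ≠ 0 → m ≤
      (MvPolynomial.aeval (fun i => (C (p i) + C (q i) * X : ℝ[X])) F).natDegree)
    (η β : ℝ) : m ≤ (Ln (GG F u) η β).natDegree := by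
  obtain ⟨d, hdd⟩ : ∃ d, d = F.totalDegree := ⟨_, rfl⟩
  obtain ⟨G, hG⟩ : ∃ G, G = GG F u := ⟨_, rfl⟩
  rw [← hG]
  obtain ⟨c, hcdef⟩ : ∃ c : ℝ, c = ((lc F u : ℤ) : ℝ) := ⟨_, rfl⟩
  have hc0 : c ≠ 0 := by rw [hcdef]; exact_mod_cast hc
  obtain ⟨x, hx⟩ : ∃ x : ℝ[X], x = C (η / c) * X + C (β / c) := ⟨_, rfl⟩
  have hcx : C c * x = C η * X + C (β) := by
    rw [hx, mul_add, ← mul_assoc, ← map_mul, ← map_mul]
    congr 3
    · field_simp
    · field_simp
  have h1 := integralNormalization_eval₂_leadingCoeff_mul (p := F2 F u)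
    (by rw [F2_natDegree hc]; omega) (evf (X : ℝ[X])) x
  rw [F2_leadingCoeff hc, evf_C, F2_natDegree hc] at h1
  have hcast : ((lc F u : ℤ) : ℝ[X]) = C c := by rw [hcdef]; simp
  rw [hcast, hcx] at h1
  have h2 : ev (X : ℝ[X]) (C η * X + C (β)) G = C c ^ (d - 1) *
      MvPolynomial.aeval (fun i => (C (![β / c, u * (β / c)] i)
        + C (![η / c, 1 + u * (η / c)] i) * X : ℝ[X])) F := by
    have h3 := ev_toB (S := ℝ[X]) x X (shE ℤ u F)
    rw [eval₂_shE] at h3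
    have h4 : MvPolynomial.aeval (fun i => (C (![β / c, u * (β / c)] i)
        + C (![η / c, 1 + u * (η / c)] i) * X : ℝ[X])) F
        = MvPolynomial.eval₂ (Int.castRingHom ℝ[X]) ![x, X + ((u : ℤ) : ℝ[X]) * x] F := by
      rw [MvPolynomial.aeval_def]
      congr 1
      funext i
      fin_cases i
      · simp [hx]; ring
      · simp [hx]; ring
    rw [h4, ← h3, hG, hdd, ev_apply]
    exact h1
  have h5 := hlines ![β / c, u * (β / c)] ![η / c, 1 + u * (η / c)] (by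
    intro h6
    have h7 := congrFun h6 0
    have h8 := congrFun h6 1
    simp only [Matrix.cons_val_zero, Matrix.cons_val_one, Pi.zero_apply] at h7 h8
    rw [h7] at h8
    simp at h8)
  unfold Ln
  rw [h2, ← map_pow, natDegree_C_mul (pow_ne_zero _ hc0)]
  exact h5

lemma RR_TDe {F R : MvPolynomial (Fin 2) ℤ} {u e : ℕ} (hR : R.totalDegree ≤ e) :
    TD e (RR F R u) := by
  have h1 : TD e (F2 R u) := TD_mono (TD_toB (u : ℤ) R) hR
  constructor
  · rw [natDegree_le_iff_coeff_eq_zero]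
    intro j hj
    rw [RR_coeff]
    split_ifs with h
    · rw [coeff_eq_zero_of_natDegree_lt (lt_of_le_of_lt h1.1 hj), zero_mul]
    · rfl
  · intro j
    rw [RR_coeff]
    split_ifs with h
    · exact (natDegree_mul_C_le _ _).trans (h1.2 j)
    · simp

end Pool.Agent.H91ES
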