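import Pool.Agent.H91ES.Pw

set_option autoImplicit false
set_option linter.unusedSectionVars false

/-!
Curves whose leading form is not a constant times a power of an irreducible form.
-/

open Polynomial

namespace Pool.Agent.H91ES

open Pool.Agent.H322R2

/-- the bound for the curves with two coprime factors of the leading form -/
theorem noexc (d : ℕ) : ∃ C : ℕ, ∀ F : MvPolynomial (Fin 2) ℤ, F.totalDegree = d →
    Irreducible (MvPolynomial.map (Int.castRingHom ℚ) F) →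
    (∀ x y : ℤ, MvPolynomial.eval ![x, y] F = 0 →
      (x.natAbs ≤ (C * len F) ^ C ∧ y.natAbs ≤ (C * len F) ^ C)) ∨
    ∃ (c : ℚ) (ψ : MvPolynomial (Fin 2) ℚ) (k : ℕ), 1 ≤ k ∧ c ≠ 0 ∧ Irreducible ψ ∧
      MvPolynomial.map (Int.castRingHom ℚ) (MvPolynomial.homogeneousComponent d F) =
        MvPolynomial.C c * ψ ^ k := by
  obtain ⟨C, c, hC⟩ := Pool.Agent.Y910.G.main d
  refine ⟨C, fun F hFd hirr => ?_⟩
  have hd1 : 1 ≤ F.totalDegree := Pool.Agent.Y910.G.totalDegree_pos F hirr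
  have hF0 : F ≠ 0 := by
    rintro rfl
    rw [map_zero] at hirr
    exact hirr.ne_zero rfl
  obtain ⟨u, hu, hcu⟩ := exists_u F hF0
  have hcl : lc F u ≠ 0 := hcu
  rcases lead_dich hcl hd1 with h | ⟨p1, p2, h1, h2, h3, h4, h5⟩
  · right
    rw [← hFd]
    exact h
  left
  intro x y hxy
  have hprime : (Ideal.span {MvPolynomial.map (Int.castRingHom ℚ) F}).IsPrime :=
    (Ideal.span_singleton_prime hirr.ne_zero).2 hirr.prime
  have key : ∀ (L : Type) [Field L] [Algebra (MvPolynomial (Fin 2) ℚ ⧸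
      Ideal.span {MvPolynomial.map (Int.castRingHom ℚ) F}) L] [IsFractionRing
      (MvPolynomial (Fin 2) ℚ ⧸ Ideal.span {MvPolynomial.map (Int.castRingHom ℚ) F}) L],
      x.natAbs ≤ (C * len F) ^ C ∧ y.natAbs ≤ (C * len F) ^ C := by
    intro L _ _ _
    let _ : Algebra ℚ L :=
      ((algebraMap (MvPolynomial (Fin 2) ℚ ⧸
      Ideal.span {MvPolynomial.map (Int.castRingHom ℚ) F}) L).comp (algebraMap ℚ
      (MvPolynomial (Fin 2) ℚ ⧸ Ideal.span {MvPolynomial.map (Int.castRingHom ℚ) F}))).toAlgebra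
    obtain ⟨π, hπ⟩ : ∃ π : MvPolynomial (Fin 2) ℚ →ₐ[ℚ] L, ∀ w, π w
        = algebraMap (MvPolynomial (Fin 2) ℚ ⧸ Ideal.span {MvPolynomial.map (Int.castRingHom ℚ) F})
          L (Ideal.Quotient.mk _ w) :=
      ⟨{ toRingHom := (algebraMap (MvPolynomial (Fin 2) ℚ ⧸
          Ideal.span {MvPolynomial.map (Int.castRingHom ℚ) F}) L).comp (Ideal.Quotient.mk _)
         commutes' := fun q => rfl }, fun w => rfl⟩
    have hker : ∀ w, π w = 0 ↔ MvPolynomial.map (Int.castRingHom ℚ) F ∣ w := by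
      intro w
      rw [hπ, IsFractionRing.to_map_eq_zero_iff, Ideal.Quotient.eq_zero_iff_mem,
        Ideal.mem_span_singleton]
    have hsurj : ∀ z : L, ∃ w1 w2, π w2 ≠ 0 ∧ π w2 * z = π w1 := by
      intro z
      obtain ⟨a, s, hs, hz⟩ := IsFractionRing.div_surjective (A := MvPolynomial (Fin 2) ℚ ⧸
          Ideal.span {MvPolynomial.map (Int.castRingHom ℚ) F}) z
      obtain ⟨w1, rfl⟩ := Ideal.Quotient.mk_surjective a
      obtain ⟨w2, rfl⟩ := Ideal.Quotient.mk_surjective s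
      have hne : π w2 ≠ 0 := by
        rw [hπ]
        exact IsFractionRing.to_map_ne_zero_of_mem_nonZeroDivisors hs
      refine ⟨w1, w2, hne, ?_⟩
      rw [← hz, ← hπ, ← hπ]
      field_simp
    rcases hC F hFd hirr L π hker hsurj x y hxy with h | ⟨A, hA, -⟩
    · exact h
    exfalso
    obtain ⟨hev, htr, -, hpl⟩ :=
      Y852.FFRed.ff_reduce F hirr u hcl hd1 π hker hsurj _ _ rfl rfl
    refine two_places (G := GG F u) (d := F.totalDegree) (by omega) (GG_monic hcl)
      (GG_natDegree hcl) (GG_TD hcl) (GG_prime hcl hd1 hirr) htr hev h1 h2 h3 h4 h5 A ?_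
    intro A'
    rw [← hA A']
    constructor
    · rintro ⟨h6, h7⟩
      refine ⟨h6, fun h8 => h7 ((hpl A' h6).1 h8)⟩
    · rintro ⟨h6, h7⟩
      refine ⟨h6, fun h8 => h7 ((hpl A' h6).2 h8)⟩
  exact key (FractionRing (MvPolynomial (Fin 2) ℚ ⧸
    Ideal.span {MvPolynomial.map (Int.castRingHom ℚ) F}))

end Pool.Agent.H91ES
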