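import Pool.Agent.Y910.G.P5

set_option autoImplicit false
set_option linter.unusedSectionVars false

/-!
A curve with one place at infinity has a leading form with one irreducible factor.
-/

open Polynomial

namespace Pool.Agent.H91ES

open Pool.Agent.H322R2

section

variable {L : Type*} [Field L] [Algebra ℚ L] {G : ℤ[X][X]} {d : ℕ} (hd : 0 < d) (hm : G.Monic)
  (hdeg : G.natDegree = d) (hT : TD d G) (hp : Prime G) {α β z w : L}
  (hα : Transcendental ℚ α) (h0 : ev α β G = 0) (hz : z * α = 1) (hw : w = z * β)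

lemma evf_aeval (x : L) (p : ℤ[X]) : evf x p = aeval x (p.map (Int.castRingHom ℚ)) := by
  rw [evf, coe_eval₂RingHom, aeval_def, eval₂_map]
  congr 1
  exact Subsingleton.elim _ _

include hd hm hdeg hp hα h0 in
lemma ker_mono {V : ℤ[X][X]} (hV : ev α β V = 0) : G ∣ V := by
  by_contra h
  have h1 := nrm_ne_zero G d hm hdeg hp V h
  have h2 := dvd_nrm (evf α) β G d hd hm hdeg h0 V
  have h3 : eval₂ (evf α) β V = 0 := hV
  rw [h3, zero_dvd_iff, evf_aeval] at h2
  apply hα
  refine ⟨(nrm G d V).map (Int.castRingHom ℚ), ?_, h2⟩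
  rwa [Ne, Polynomial.map_eq_zero_iff (RingHom.injective_int _)]

lemma exists_TD (S : ℤ[X][X]) : ∃ n, TD n S := by
  refine ⟨S.natDegree + ∑ j ∈ Finset.range (S.natDegree + 1), (S.coeff j).natDegree, by omega, ?_⟩
  intro j
  by_cases hj : j ≤ S.natDegree
  · have h1 : (S.coeff j).natDegree ≤ ∑ j ∈ Finset.range (S.natDegree + 1), (S.coeff j).natDegree :=
      Finset.single_le_sum (f := fun j => (S.coeff j).natDegree) (fun _ _ => Nat.zero_le _)
        (Finset.mem_range.2 (by omega))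
    omega
  · rw [coeff_eq_zero_of_natDegree_lt (by omega)]
    simp

lemma natDegree_hmg_le (n : ℕ) (S : ℤ[X][X]) : (hmg n S).natDegree ≤ S.natDegree := by
  rw [natDegree_le_iff_coeff_eq_zero]
  intro j hj
  rw [coeff_hmg]
  split_ifs with h
  · rw [coeff_eq_zero_of_natDegree_lt hj, reflect_zero]
  · rfl

lemma hmg_eq_zero {n : ℕ} {S : ℤ[X][X]} (hS : TD n S) (h : hmg n S = 0) : S = 0 := by
  ext1 j
  rw [coeff_zero]
  by_cases hj : j < n + 1
  · have h1 := congrArg (fun p => coeff p j) h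
    simp only [coeff_hmg, if_pos hj, coeff_zero] at h1
    exact reflect_eq_zero_iff.1 h1
  · exact coeff_eq_zero_of_natDegree_lt (by have := hS.1; omega)

include hm hdeg hT in
lemma hmg_monic : (hmg d G).Monic ∧ (hmg d G).natDegree = d := by
  have h1 : (hmg d G).coeff d = 1 := by
    rw [coeff_hmg, if_pos (by omega), Nat.sub_self]
    have : G.coeff d = 1 := by rw [← hdeg]; exact hm
    rw [this, ← C_1, reflect_C]
    simp
  have h2 : (hmg d G).natDegree = d := by
    apply le_antisymm (natDegree_hmg d G)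
    apply le_natDegree_of_ne_zero
    rw [h1]
    exact one_ne_zero
  exact ⟨by rw [Monic, leadingCoeff, h2, h1], h2⟩

include hd hm hdeg hT hp hα h0 hz hw in
lemma ker_hmg {E : ℤ[X][X]} (hE : ev z w E = 0) : hmg d G ∣ E := by
  obtain ⟨hHm, hHd⟩ := hmg_monic hm hdeg hT
  obtain ⟨S, hS⟩ : ∃ S, S = E %ₘ (hmg d G) := ⟨_, rfl⟩
  have hdiv := modByMonic_add_div E (hmg d G)
  rw [← hS] at hdiv
  have hSd : S.natDegree < d := by
    have h1 := natDegree_modByMonic_lt E hHm (by
      intro h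
      rw [h, natDegree_one] at hHd
      omega)
    rw [← hS, hHd] at h1
    exact h1
  have hH0 : ev z w (hmg d G) = 0 := by
    have h1 := ev_hmg (x := α) (z := z) w (by rw [mul_comm]; exact hz) hT
    have h2 : α * w = β := by rw [hw, ← mul_assoc, mul_comm α z, hz, one_mul]
    rw [h2, h0] at h1
    have hα0 : α ≠ 0 := by rintro rfl; rw [mul_zero] at hz; exact zero_ne_one hz
    exact (mul_eq_zero.1 h1.symm).resolve_left (pow_ne_zero _ hα0)
  have hS0 : ev z w S = 0 := by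
    rw [← hdiv, map_add, map_mul, hH0, zero_mul, add_zero] at hE
    exact hE
  obtain ⟨n, hn⟩ := exists_TD S
  have h1 := ev_hmg (x := z) (z := α) β hz hn
  rw [← hw, hS0] at h1
  have hz0 : z ≠ 0 := by rintro rfl; rw [zero_mul] at hz; exact zero_ne_one hz
  have h2 := (mul_eq_zero.1 h1.symm).resolve_left (pow_ne_zero _ hz0)
  have h3 := ker_mono hd hm hdeg hp hα h0 h2
  have h4 : hmg n S = 0 := by
    apply eq_zero_of_dvd_of_natDegree_lt h3
    rw [hdeg]
    exact lt_of_le_of_lt (natDegree_hmg_le n S) hSd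
  have h5 := hmg_eq_zero hn h4
  rw [h5, zero_add] at hdiv
  exact ⟨_, hdiv.symm⟩

lemma adj_rep {z w : L} (b : L) (hb : b ∈ Algebra.adjoin ℚ {z, w}) :
    ∃ N : ℤ, N ≠ 0 ∧ ∃ P : ℤ[X][X], (N : L) * b = ev z w P := by
  have : CharZero L := algebraRat.charZero L
  induction hb using Algebra.adjoin_induction with
  | mem x hx =>
    rcases hx with hx | hx
    · exact ⟨1, one_ne_zero, C X, by rw [hx]; simp⟩
    · rw [Set.mem_singleton_iff] at hx
      exact ⟨1, one_ne_zero, X, by rw [hx]; simp⟩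
  | algebraMap t =>
    refine ⟨t.den, by exact_mod_cast t.den_ne_zero, C (C t.num), ?_⟩
    rw [ev_C, evf_C]
    have h1 : (t.den : ℚ) * t = t.num := by rw [mul_comm]; exact Rat.mul_den_eq_num t
    have h2 := congrArg (algebraMap ℚ L) h1
    rw [map_mul, map_natCast, map_intCast] at h2
    push_cast
    exact h2
  | add x y _ _ hx hy =>
    obtain ⟨N1, n1, P1, p1⟩ := hx
    obtain ⟨N2, n2, P2, p2⟩ := hy
    refine ⟨N1 * N2, mul_ne_zero n1 n2, C (C N2) * P1 + C (C N1) * P2, ?_⟩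
    rw [map_add, map_mul, map_mul, ev_C, ev_C, evf_C, evf_C, ← p1, ← p2]
    push_cast
    ring
  | mul x y _ _ hx hy =>
    obtain ⟨N1, n1, P1, p1⟩ := hx
    obtain ⟨N2, n2, P2, p2⟩ := hy
    refine ⟨N1 * N2, mul_ne_zero n1 n2, P1 * P2, ?_⟩
    rw [map_mul, ← p1, ← p2]
    push_cast
    ring

lemma ev_map_C (x y : L) (p : ℤ[X]) : ev x y (p.map C) = evf y p := by
  have h : (evf x).comp C = Int.castRingHom L := Subsingleton.elim _ _
  rw [ev_apply, eval₂_map, h]
  rfl

/-- the ring `ℚ[z, w]` -/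
noncomputable def Bs (z w : L) : Subring L := (Algebra.adjoin ℚ {z, w}).toSubring

lemma z_mem : z ∈ Bs z w := Algebra.subset_adjoin (by simp)

lemma w_mem : w ∈ Bs z w := Algebra.subset_adjoin (by simp)

lemma q_mem (q : ℚ) : algebraMap ℚ L q ∈ Bs z w := (Algebra.adjoin ℚ {z, w}).algebraMap_mem q

lemma evf_mem {S : Subring L} {x : L} (hx : x ∈ S) (p : ℤ[X]) : evf x p ∈ S := by
  rw [evf_sum x p (Nat.lt_succ_self _)]
  exact S.sum_mem fun i _ => S.mul_mem (intCast_mem _ _) (S.pow_mem hx _)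

include hd hm hdeg hT hp hα h0 hz hw in
lemma proper {p : ℤ[X]} (hp1 : 1 ≤ p.natDegree) (hpl : p ∣ lead d G) :
    Ideal.span {(⟨z, z_mem⟩ : Bs z w), ⟨evf w p, evf_mem w_mem p⟩} ≠ ⊤ := by
  intro htop
  have : CharZero L := algebraRat.charZero L
  have h1 : (1 : Bs z w) ∈ Ideal.span {(⟨z, z_mem⟩ : Bs z w), ⟨evf w p, evf_mem w_mem p⟩} := by
    rw [htop]; exact Submodule.mem_top
  rw [Ideal.mem_span_pair] at h1
  obtain ⟨a, b, hab⟩ := h1
  have h2 := congrArg (fun t : Bs z w => (t : L)) hab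
  simp only [Subring.coe_add, Subring.coe_mul, Subring.coe_one] at h2
  obtain ⟨N1, n1, P1, p1⟩ := adj_rep (z := z) (w := w) (a : L) a.2
  obtain ⟨N2, n2, P2, p2⟩ := adj_rep (z := z) (w := w) (b : L) b.2
  have h3 : ev z w (C (C (N1 * N2)) - C X * (C (C N2) * P1) - p.map C * (C (C N1) * P2)) = 0 := by
    simp only [map_sub, map_mul, ev_C, evf_C, evf_X, ev_map_C]
    rw [← p1, ← p2]
    linear_combination (-(N1 : L) * N2) * h2
  obtain ⟨R, hR⟩ := ker_hmg hd hm hdeg hT hp hα h0 hz hw h3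
  have h4 : ev (0 : ℤ[X]) (X : ℤ[X]) (C (C (N1 * N2)) - C X * (C (C N2) * P1) -
      p.map C * (C (C N1) * P2)) = ev 0 X (hmg d G) * ev 0 X R := by
    rw [hR, map_mul]
  rw [ev_zero_hmg] at h4
  have h5 : evf (X : ℤ[X]) (lead d G) = lead d G := by
    rw [evf, coe_eval₂RingHom]
    have : (Int.castRingHom ℤ[X]) = C := Subsingleton.elim _ _
    rw [this, eval₂_C_X]
  have h6 : ev (0 : ℤ[X]) (X : ℤ[X]) (p.map C) = p := by
    rw [ev_apply, eval₂_map]
    have h7 : (evf (0 : ℤ[X])).comp C = C := Subsingleton.elim _ _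
    rw [h7, eval₂_C_X]
  rw [h5] at h4
  simp only [map_sub, map_mul, ev_C, evf_C, evf_X, h6, zero_mul, sub_zero] at h4
  have h8 : p ∣ C (N1 * N2) := by
    have h9 : (C (N1 * N2) : ℤ[X]) = lead d G * ev 0 X R + p * ((N1 : ℤ[X]) * ev 0 X P2) := by
      rw [← h4]
      simp only [eq_intCast, Int.cast_mul]
      ring
    rw [h9]
    exact dvd_add (hpl.mul_right _) (dvd_mul_right _ _)
  have h10 := natDegree_le_of_dvd h8 (by
    rw [Ne, C_eq_zero]
    exact mul_ne_zero n1 n2)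
  rw [natDegree_C] at h10
  omega

include hd hm hdeg hT hp hα h0 in
/-- a curve whose leading form has two coprime factors has two places at infinity -/
theorem two_places {p1 p2 : ℤ[X]} (h1 : 1 ≤ p1.natDegree) (h2 : 1 ≤ p2.natDegree)
    (hd1 : p1 ∣ lead d G) (hd2 : p2 ∣ lead d G)
    (hcop : IsCoprime (p1.map (Int.castRingHom ℚ)) (p2.map (Int.castRingHom ℚ)))
    (A : ValuationSubring L) (hA : ∀ A' : ValuationSubring L,
      ((∀ q : ℚ, algebraMap ℚ L q ∈ A') ∧ ¬ (α ∈ A' ∧ β ∈ A')) ↔ A' = A) : False := by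
  have hα0 : α ≠ 0 := by
    rintro rfl
    exact hα isAlgebraic_zero
  obtain ⟨z, hzd⟩ : ∃ z, z = α⁻¹ := ⟨_, rfl⟩
  have hz : z * α = 1 := by rw [hzd]; exact inv_mul_cancel₀ hα0
  obtain ⟨w, hw⟩ : ∃ w, w = z * β := ⟨_, rfl⟩
  have key : ∀ p : ℤ[X], 1 ≤ p.natDegree → p ∣ lead d G →
      w ∈ A ∧ (∀ q : ℚ, algebraMap ℚ L q ∈ A) ∧ evf w p ∈ A.nonunits := by
    intro p hp1 hpl
    obtain ⟨V, hV1, hV2⟩ := Ideal.image_subset_nonunits_valuationSubring _
      (proper hd hm hdeg hT hp hα h0 hz hw hp1 hpl)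
    have hVq : ∀ q : ℚ, algebraMap ℚ L q ∈ V := fun q => hV1 (q_mem q)
    have hzn : z ∈ V.nonunits := hV2 ⟨⟨z, z_mem⟩, Ideal.subset_span (by simp), rfl⟩
    have hpn : evf w p ∈ V.nonunits := hV2 ⟨⟨evf w p, evf_mem w_mem p⟩,
      Ideal.subset_span (by simp), rfl⟩
    have hαV : α ∉ V := by
      intro h
      have h3 := (ValuationSubring.mem_nonunits_iff _).1 hzn
      have h4 := (V.valuation_le_one_iff α).2 h
      have h5 : V.valuation z * V.valuation α = 1 := by rw [← map_mul, hz, map_one]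
      have h6 : V.valuation z * V.valuation α ≤ V.valuation z := mul_le_of_le_one_right' h4
      rw [h5] at h6
      exact absurd h6 (not_le.2 h3)
    have hVA : V = A := (hA V).1 ⟨hVq, fun h => hαV h.1⟩
    rw [← hVA]
    exact ⟨hV1 w_mem, hVq, hpn⟩
  obtain ⟨hwA, hqA, n1⟩ := key p1 h1 hd1
  obtain ⟨-, -, n2⟩ := key p2 h2 hd2
  obtain ⟨U, V, hUV⟩ := hcop
  have hmem : ∀ U : ℚ[X], aeval w U ∈ A := by
    intro U
    rw [aeval_eq_sum_range]
    refine sum_mem fun i _ => ?_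
    rw [Algebra.smul_def]
    exact mul_mem (hqA _) (pow_mem hwA _)
  have h3 := congrArg (aeval w) hUV
  rw [map_add, map_mul, map_mul, ← evf_aeval, ← evf_aeval, map_one] at h3
  have e1 : A.valuation (aeval w U * evf w p1) < 1 := by
    rw [map_mul]
    exact lt_of_le_of_lt (mul_le_of_le_one_left' ((A.valuation_le_one_iff _).2 (hmem U)))
      ((ValuationSubring.mem_nonunits_iff _).1 n1)
  have e2 : A.valuation (aeval w V * evf w p2) < 1 := by
    rw [map_mul]
    exact lt_of_le_of_lt (mul_le_of_le_one_left' ((A.valuation_le_one_iff _).2 (hmem V)))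
      ((ValuationSubring.mem_nonunits_iff _).1 n2)
  have e3 := A.valuation.map_add (aeval w U * evf w p1) (aeval w V * evf w p2)
  rw [h3, map_one] at e3
  exact absurd e3 (not_le.2 (max_lt e1 e2))

end

end Pool.Agent.H91ES
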