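import Pool.Agent.H91ES.Pl
import Pool.Agent.R414.DN.MvP

set_option autoImplicit false
set_option linter.unusedSectionVars false

/-!
The leading form of a curve with one place at infinity is a constant times a power of an
irreducible form.
-/

open Polynomial

namespace Pool.Agent.H91ES

open Pool.Agent.H322R2

lemma isPrimitive_of_lc {p : ℤ[X]} (h : IsUnit p.leadingCoeff) : p.IsPrimitive := by
  intro r hr
  have h1 : C r ∣ C p.leadingCoeff := by
    rw [C_dvd_iff_dvd_coeff] at hr
    exact map_dvd C (hr _)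
  have h2 : r ∣ p.leadingCoeff := by
    rw [C_dvd_iff_dvd_coeff] at hr
    exact hr _
  exact isUnit_of_dvd_unit h2 h

/-- a monic polynomial is a power of an irreducible polynomial or has two coprime factors -/
lemma factor_dich {g : ℤ[X]} (hg : g.Monic) (hd : 1 ≤ g.natDegree) :
    (∃ (g0 : ℚ[X]) (k : ℕ) (u : ℚ[X]), 1 ≤ k ∧ Irreducible g0 ∧ IsUnit u ∧
      g.map (Int.castRingHom ℚ) = u * g0 ^ k) ∨
    (∃ p1 p2 : ℤ[X], 1 ≤ p1.natDegree ∧ 1 ≤ p2.natDegree ∧ p1 ∣ g ∧ p2 ∣ g ∧
      IsCoprime (p1.map (Int.castRingHom ℚ)) (p2.map (Int.castRingHom ℚ))) := by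
  have hg0 : g ≠ 0 := hg.ne_zero
  have hgu : ¬ IsUnit g := by
    intro hu
    have := natDegree_eq_zero_of_isUnit hu
    omega
  obtain ⟨q, hqi, hqg⟩ := WfDvdMonoid.exists_irreducible_factor hgu hg0
  obtain ⟨n, b, hb, hnb⟩ := WfDvdMonoid.max_power_factor hg0 hqi
  have hn : 1 ≤ n := by
    by_contra hcon
    have h0 : n = 0 := by omega
    rw [h0, pow_zero, one_mul] at hnb
    rw [hnb] at hqg
    exact hb hqg
  have hlc : q.leadingCoeff ^ n * b.leadingCoeff = 1 := by
    rw [← leadingCoeff_pow, ← leadingCoeff_mul, ← hnb]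
    exact hg
  have hqu : IsUnit q.leadingCoeff := by
    have h1 : IsUnit (q.leadingCoeff ^ n) := IsUnit.of_mul_eq_one _ hlc
    rwa [isUnit_pow_iff (by omega)] at h1
  have hbu : IsUnit b.leadingCoeff := IsUnit.of_mul_eq_one _ (by rw [mul_comm]; exact hlc)
  have hqp := isPrimitive_of_lc hqu
  have hqi' := (IsPrimitive.Int.irreducible_iff_irreducible_map_cast hqp).1 hqi
  have hqd : 1 ≤ q.natDegree := by
    by_contra hcon
    have h0 : q.natDegree = 0 := by omega
    apply hqi.not_isUnit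
    rw [eq_C_of_natDegree_eq_zero h0]
    rw [leadingCoeff, h0] at hqu
    exact hqu.map C
  by_cases hbd : b.natDegree = 0
  · left
    refine ⟨_, n, C ((b.coeff 0 : ℤ) : ℚ), hn, hqi', ?_, ?_⟩
    · rw [leadingCoeff, hbd] at hbu
      rw [isUnit_C]
      exact hbu.map (Int.castRingHom ℚ)
    · rw [hnb, Polynomial.map_mul, Polynomial.map_pow]
      rw [eq_C_of_natDegree_eq_zero hbd]
      rw [map_C, coeff_C_zero, mul_comm]
      rfl
  · right
    refine ⟨q, b, hqd, by omega, hqg, ⟨q ^ n, by rw [hnb, mul_comm]⟩, ?_⟩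
    rw [hqi'.coprime_iff_not_dvd]
    rw [← IsPrimitive.Int.dvd_iff_map_cast_dvd_map_cast _ _ hqp]
    exact hb

lemma irr_homogenize {h : ℚ[X]} (hi : Irreducible h) (hd : 1 ≤ h.natDegree) :
    Irreducible (homogenize h h.natDegree) := by
  apply Pool.Agent.R414.DN.irr_of_dehom hd (isHomogeneous_homogenize h)
  · rw [aeval_homogenize_X_one _ le_rfl]
    exact hi
  · rw [aeval_homogenize_X_one _ le_rfl]

lemma homogenize_pow' {h : ℚ[X]} {m : ℕ} (hm : h.natDegree ≤ m) (k : ℕ) :
    homogenize (h ^ k) (k * m) = homogenize h m ^ k := by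
  induction k with
  | zero => simp
  | succ k ih =>
    rw [pow_succ, pow_succ, ← ih, add_mul, one_mul]
    apply homogenize_mul _ _ _ hm
    refine natDegree_pow_le.trans ?_
    exact Nat.mul_le_mul_left _ hm

section

variable {F : MvPolynomial (Fin 2) ℤ} {u : ℕ} (hc : lc F u ≠ 0)

include hc in
/-- the leading form is a constant times a power of an irreducible form, or the leading form of
the monic model has two coprime factors -/
lemma lead_dich (hd : 1 ≤ F.totalDegree) :
    (∃ (c : ℚ) (ψ : MvPolynomial (Fin 2) ℚ) (k : ℕ), 1 ≤ k ∧ c ≠ 0 ∧ Irreducible ψ ∧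
      MvPolynomial.map (Int.castRingHom ℚ) (MvPolynomial.homogeneousComponent F.totalDegree F) =
        MvPolynomial.C c * ψ ^ k) ∨
    (∃ p1 p2 : ℤ[X], 1 ≤ p1.natDegree ∧ 1 ≤ p2.natDegree ∧
      p1 ∣ lead F.totalDegree (GG F u) ∧ p2 ∣ lead F.totalDegree (GG F u) ∧
      IsCoprime (p1.map (Int.castRingHom ℚ)) (p2.map (Int.castRingHom ℚ))) := by
  obtain ⟨p, hp⟩ : ∃ p : ℚ[X], p = (lead F.totalDegree (F2 F u)).map (Int.castRingHom ℚ) :=
    ⟨_, rfl⟩
  have hpd : p.natDegree = F.totalDegree := by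
    rw [hp, natDegree_map_eq_of_injective (RingHom.injective_int _), lead_F2_natDegree hc]
  have hpl : p.leadingCoeff = ((lc F u : ℤ) : ℚ) := by
    rw [hp, leadingCoeff_map_of_injective (RingHom.injective_int _), lead_F2_leadingCoeff hc]
    rfl
  have hplne : p.leadingCoeff ≠ 0 := by rw [hpl]; exact_mod_cast hc
  have hp0 : p ≠ 0 := by
    intro h0; rw [h0, leadingCoeff_zero] at hplne; exact hplne rfl
  have hg : (lead F.totalDegree (GG F u)).map (Int.castRingHom ℚ) = integralNormalization p := by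
    rw [lead_GG hc, hp, integralNormalization_map]
    rw [lead_F2_leadingCoeff hc]
    simpa using hc
  have h1 : homogenize p F.totalDegree = shE ℚ (u : ℚ) (MvPolynomial.map (Int.castRingHom ℚ)
      (MvPolynomial.homogeneousComponent F.totalDegree F)) := by
    have h2 := homogenize_lead (u : ℤ) F
    have h3 := shE_map ℤ (Int.castRingHom ℚ) (u : ℤ)
      (MvPolynomial.homogeneousComponent F.totalDegree F)
    rw [← h2, ← homogenize_map] at h3
    rw [hp]
    simpa [F2] using h3.symm
  have hgm : (lead F.totalDegree (GG F u)).Monic := by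
    rw [lead_GG hc]
    apply monic_integralNormalization
    intro h0
    have := lead_F2_leadingCoeff hc
    rw [h0, leadingCoeff_zero] at this
    exact hc this.symm
  have hgd : (lead F.totalDegree (GG F u)).natDegree = F.totalDegree := by
    rw [lead_GG hc, natDegree_integralNormalization, lead_F2_natDegree hc]
  rcases factor_dich hgm (by rw [hgd]; exact hd) with ⟨g0, k, v, hk, hgi, hv, hgk⟩ | h
  swap
  · exact Or.inr h
  left
  rw [hg] at hgk
  obtain ⟨e, w, hw, he⟩ := iN_equiv p (by rw [hpd]; exact hd) (isUnit_iff_ne_zero.2 hplne)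
  rw [hgk, map_mul, map_pow] at he
  obtain ⟨w', hw'⟩ := hw.exists_left_inv
  have hpe : p = (w' * e v) * (e g0) ^ k := by
    rw [mul_assoc, he, ← mul_assoc, hw', one_mul]
  have hhi : Irreducible (e g0) := (MulEquiv.irreducible_iff e).2 hgi
  have hcu : IsUnit (w' * e v) := (IsUnit.of_mul_eq_one _ hw').mul (hv.map e)
  obtain ⟨c, hcc⟩ := natDegree_eq_zero.1 (natDegree_eq_zero_of_isUnit hcu)
  have hc0 : c ≠ 0 := by
    rintro rfl
    rw [C_0] at hcc
    rw [← hcc] at hcu
    exact not_isUnit_zero hcu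
  obtain ⟨h, hh⟩ : ∃ h, h = e g0 := ⟨_, rfl⟩
  rw [← hh, ← hcc] at hpe
  rw [← hh] at hhi
  have hhd : 1 ≤ h.natDegree := hhi.natDegree_pos
  have hdeg : F.totalDegree = k * h.natDegree := by
    rw [← hpd, hpe, natDegree_C_mul hc0, natDegree_pow]
  refine ⟨c, (shE ℚ (u : ℚ)).symm (homogenize h h.natDegree), k, hk, hc0, ?_, ?_⟩
  · exact (MulEquiv.irreducible_iff (shE ℚ (u : ℚ)).symm).2 (irr_homogenize hhi hhd)
  · have h4 : shE ℚ (u : ℚ) (MvPolynomial.map (Int.castRingHom ℚ)
        (MvPolynomial.homogeneousComponent F.totalDegree F)) =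
          MvPolynomial.C c * homogenize h h.natDegree ^ k := by
      rw [← h1, hpe, homogenize_C_mul, hdeg, homogenize_pow' le_rfl]
    rw [← (shE ℚ (u : ℚ)).symm_apply_apply (MvPolynomial.map (Int.castRingHom ℚ)
        (MvPolynomial.homogeneousComponent F.totalDegree F)), h4, map_mul, map_pow]
    congr 1
    rw [← MvPolynomial.algebraMap_eq]
    exact (shE ℚ (u : ℚ)).symm.commutes c

end

end Pool.Agent.H91ES
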