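import Pool.Agent.H91ES.Col2

set_option autoImplicit false
set_option linter.unusedSectionVars false

/-!
At most four large integer points of one line near a branch whose asymptote is not too flat.
-/

open Polynomial Finset

namespace Pool.Agent.H91ES

open Pool.Agent.H322R2

section

variable {d : ℕ} {G : ℤ[X][X]} {η H K : ℝ}

/-- spacing of the points -/
lemma spacing (hd : 4 ≤ d) (hm : G.Monic) (hdeg : G.natDegree = d)
    (hH : 1 ≤ H) (hG : pn (pn zn) G ≤ H)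
    (hirr : Irreducible ((lead d G).map (Int.castRingHom ℚ)))
    (hη : evf η (lead d G) = 0) (hK : K = 2 + 2 * H) {β : ℝ} {P Q : ℤ × ℤ} (hPQ : P ≠ Q)
    (h1 : K ^ (E1 d) ≤ |(P.1 : ℝ)|) (h2 : K ^ (E1 d) ≤ |(Q.1 : ℝ)|)
    (e1 : |(P.2 : ℝ) - η * P.1 - β| ≤ 3 * K ^ (64 * d ^ 3) * |((P.1 : ℝ))⁻¹|)
    (e2 : |(Q.2 : ℝ) - η * Q.1 - β| ≤ 3 * K ^ (64 * d ^ 3) * |((Q.1 : ℝ))⁻¹|) :
    K ^ (401 * d ^ 3) ≤ |(Q.1 : ℝ) - P.1| := by
  have hK4 : 4 ≤ K := by linarith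
  have hK1 : 1 ≤ K := by linarith
  have hK0 : 0 < K := by linarith
  have hd3 : 1 ≤ d ^ 3 := Nat.one_le_pow _ _ (by omega)
  have hd35 : d ^ 3 ≤ d ^ 5 := Nat.pow_le_pow_right (by omega) (by norm_num)
  obtain ⟨hgm, hgd⟩ := lead_monic hm hdeg
  have hηH := eta_le hm hdeg hH hG hη
  have hpg : pn zn (lead d G) ≤ H := (pn_lead_le hdeg.le).trans hG
  obtain ⟨X0, hX0⟩ : ∃ X0, X0 = K ^ (E1 d) := ⟨_, rfl⟩
  obtain ⟨Z, hZ⟩ : ∃ Z, Z = K ^ (401 * d ^ 3) := ⟨_, rfl⟩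
  rw [← hX0] at h1 h2
  rw [← hZ]
  have hKZ : K ≤ Z := by
    rw [hZ]
    calc K = K ^ 1 := (pow_one K).symm
      _ ≤ _ := pow_le_pow_right₀ hK1 (by omega)
  have hZ1 : 1 ≤ Z := by linarith
  have hX1 : 1 ≤ X0 := by rw [hX0]; exact one_le_pow₀ hK1
  have hNA : NA η (Z ^ 25) (Z ^ 33 / X0) := by
    apply NA_irr hgm hgd hirr hd η hη (Z := Z) (by linarith) (by linarith) (by linarith)
      (by linarith)
    · nlinarith
    · rw [hX0, hZ, ← pow_mul]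
      apply pow_le_pow_right₀ hK1
      refine le_trans ?_ (E1_ge d)
      have : 401 * d ^ 3 * (20 * d ^ 2) = 8020 * d ^ 5 := by ring
      omega
  by_contra hcon
  push Not at hcon
  have hinv : ∀ a : ℝ, X0 ≤ |a| → |a⁻¹| ≤ 1 / X0 := by
    intro a ha
    rw [abs_inv, one_div]
    exact inv_anti₀ (by linarith) ha
  obtain ⟨q, hq⟩ : ∃ q, q = 3 * K ^ (64 * d ^ 3) := ⟨_, rfl⟩
  rw [← hq] at e1 e2
  have hq0 : 0 ≤ q := by rw [hq]; positivity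
  have hqZ : 2 * q ≤ Z := by
    rw [hq, hZ]
    calc 2 * (3 * K ^ (64 * d ^ 3)) = 6 * K ^ (64 * d ^ 3) := by ring
      _ ≤ K ^ 2 * K ^ (64 * d ^ 3) := by
          apply mul_le_mul_of_nonneg_right _ (by positivity)
          nlinarith
      _ = K ^ (2 + 64 * d ^ 3) := by rw [← pow_add]
      _ ≤ _ := pow_le_pow_right₀ hK1 (by omega)
  have d1 : |(P.2 : ℝ) - η * P.1 - β| ≤ q / X0 := by
    refine e1.trans ?_
    rw [div_eq_mul_one_div]
    exact mul_le_mul_of_nonneg_left (hinv _ h1) hq0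
  have d2 : |(Q.2 : ℝ) - η * Q.1 - β| ≤ q / X0 := by
    refine e2.trans ?_
    rw [div_eq_mul_one_div]
    exact mul_le_mul_of_nonneg_left (hinv _ h2) hq0
  have d3 : |((Q.2 : ℝ) - P.2) + -(Q.1 - P.1) * η| ≤ 2 * (q / X0) := by
    have : ((Q.2 : ℝ) - P.2) + -(Q.1 - P.1) * η =
      ((Q.2 : ℝ) - η * Q.1 - β) - ((P.2 : ℝ) - η * P.1 - β) := by ring
    rw [this]
    refine (abs_sub _ _).trans ?_
    linarith
  have d4 : 2 * (q / X0) ≤ 2 * q := by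
    have : q / X0 ≤ q := div_le_self hq0 hX1
    linarith
  have hne : (Q.2 - P.2) ≠ 0 ∨ -(Q.1 - P.1) ≠ 0 ∨ (0 : ℤ) ≠ 0 := by
    by_contra hc
    push Not at hc
    obtain ⟨c1, c2, -⟩ := hc
    apply hPQ
    ext
    · omega
    · omega
  have hZ25 : Z ^ 2 + Z ≤ Z ^ 25 := by
    have g1 : Z ^ 3 ≤ Z ^ 25 := pow_le_pow_right₀ hZ1 (by norm_num)
    have g2 : Z ^ 2 + Z ≤ Z ^ 3 := by
      have g3 : Z ≤ Z ^ 2 := by nlinarith
      have g4 : Z ^ 3 = Z * Z ^ 2 := by ring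
      rw [g4]
      nlinarith
    linarith
  have hlow := hNA (Q.2 - P.2) (-(Q.1 - P.1)) 0 hne
    (by
      push_cast
      have g1 : ((Q.2 : ℝ) - P.2) = (((Q.2 : ℝ) - P.2) + -(Q.1 - P.1) * η) + (Q.1 - P.1) * η := by
        ring
      rw [g1]
      refine (abs_add_le _ _).trans ?_
      rw [abs_mul ((Q.1 : ℝ) - P.1)]
      have g2 : |(Q.1 : ℝ) - P.1| * |η| ≤ Z * Z :=
        mul_le_mul hcon.le (by linarith) (abs_nonneg _) (by linarith)
      nlinarith)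
    (by
      push_cast
      rw [abs_neg]
      have : Z ≤ Z ^ 25 := by
        calc Z = Z ^ 1 := (pow_one Z).symm
          _ ≤ _ := pow_le_pow_right₀ hZ1 (by norm_num)
      linarith)
    (by
      push_cast
      rw [abs_zero]
      positivity)
  push_cast at hlow
  rw [zero_mul, add_zero] at hlow
  have h5 : Z ^ 33 / X0 < 2 * (q / X0) := lt_of_lt_of_le hlow d3
  have h6 : Z ^ 33 / X0 < (2 * q) / X0 := by
    have : (2 * q) / X0 = 2 * (q / X0) := by ring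
    rw [this]; exact h5
  have h7 : Z ^ 33 < 2 * q := (div_lt_div_iff_of_pos_right (by linarith)).1 h6
  have h8 : Z ≤ Z ^ 33 := by
    calc Z = Z ^ 1 := (pow_one Z).symm
      _ ≤ _ := pow_le_pow_right₀ hZ1 (by norm_num)
  linarith

/-- no three points of the same sign -/
lemma no_three (hd : 4 ≤ d) (hm : G.Monic) (hdeg : G.natDegree = d)
    (hT : TD d G) (hH : 1 ≤ H) (hG : pn (pn zn) G ≤ H)
    (hirr : Irreducible ((lead d G).map (Int.castRingHom ℚ)))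
    (hη : evf η (lead d G) = 0) (hK : K = 2 + 2 * H) {k e n : ℕ}
    (hk : (Ln G η (bet d G η)).natDegree = k + 2) (hek : e ≤ k) (hn : k + n + 4 = d)
    {σ : ℝ} (hσ : σ = 1 ∨ σ = -1) {P1 P2 P3 : ℤ × ℤ}
    (h0 : (P2.1 - P1.1) * (P3.2 - P1.2) - (P3.1 - P1.1) * (P2.2 - P1.2) = 0)
    (s1 : |(P1.1 : ℝ)| = σ * P1.1) (s2 : |(P2.1 : ℝ)| = σ * P2.1) (s3 : |(P3.1 : ℝ)| = σ * P3.1)
    (h12 : |(P1.1 : ℝ)| < |(P2.1 : ℝ)|) (h23 : |(P2.1 : ℝ)| < |(P3.1 : ℝ)|)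
    (p1 : K ^ (E1 d) ≤ |(P1.1 : ℝ)| ∧ |(P1.2 : ℝ) / P1.1 - η| ≤ cR d (2 * H) ∧
      ∃ R : ℤ[X][X], TD e R ∧ pn (pn zn) R ≤ H ∧ ev P1.1 P1.2 (G + R) = 0)
    (p2 : K ^ (E1 d) ≤ |(P2.1 : ℝ)| ∧ |(P2.2 : ℝ) / P2.1 - η| ≤ cR d (2 * H) ∧
      ∃ R : ℤ[X][X], TD e R ∧ pn (pn zn) R ≤ H ∧ ev P2.1 P2.2 (G + R) = 0)
    (p3 : K ^ (E1 d) ≤ |(P3.1 : ℝ)| ∧ |(P3.2 : ℝ) / P3.1 - η| ≤ cR d (2 * H) ∧
      ∃ R : ℤ[X][X], TD e R ∧ pn (pn zn) R ≤ H ∧ ev P3.1 P3.2 (G + R) = 0) : False := by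
  have hK4 : 4 ≤ K := by linarith
  have hK1 : 1 ≤ K := by linarith
  have hK0 : 0 < K := by linarith
  have hd3 : 1 ≤ d ^ 3 := Nat.one_le_pow _ _ (by omega)
  have hd35 : d ^ 3 ≤ d ^ 5 := Nat.pow_le_pow_right (by omega) (by norm_num)
  obtain ⟨a1, b1, R1, r1, t1, u1⟩ := p1
  obtain ⟨a2, b2, R2, r2, t2, u2⟩ := p2
  obtain ⟨a3, b3, R3, r3, t3, u3⟩ := p3
  have e1 := eps_le hd hm hdeg hT hH hG hirr hη hK a1 b1 (TD_mono r1 (by omega)) t1 u1
  have e2 := eps_le hd hm hdeg hT hH hG hirr hη hK a2 b2 (TD_mono r2 (by omega)) t2 u2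
  have e3 := eps_le hd hm hdeg hT hH hG hirr hη hK a3 b3 (TD_mono r3 (by omega)) t3 u3
  have f1 := flat_point hd hm hdeg hT hH hG hirr hη hK (n := n + 1) hk hek (by omega) a1 b1 r1 t1 u1
  have f2 := flat_point hd hm hdeg hT hH hG hirr hη hK (n := n + 1) hk hek (by omega) a2 b2 r2 t2 u2
  have f3 := flat_point hd hm hdeg hT hH hG hirr hη hK (n := n + 1) hk hek (by omega) a3 b3 r3 t3 u3
  have hne12 : P1 ≠ P2 := by rintro rfl; exact lt_irrefl _ h12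
  have hne23 : P2 ≠ P3 := by rintro rfl; exact lt_irrefl _ h23
  have g12 := spacing hd hm hdeg hH hG hirr hη hK hne12 a1 a2 e1 e2
  have g23 := spacing hd hm hdeg hH hG hirr hη hK hne23 a2 a3 e2 e3
  obtain ⟨hA, hB⟩ := cAB_bound hd hm hdeg hT hH hG hirr hη hK hk
  obtain ⟨A, hAd⟩ : ∃ A, A = cA d G η k := ⟨_, rfl⟩
  obtain ⟨B, hBd⟩ : ∃ B, B = cB d G η k := ⟨_, rfl⟩
  rw [← hAd] at hA f1 f2 f3
  rw [← hBd] at hB f1 f2 f3
  have hσ2 : σ * σ = 1 := by rcases hσ with h | h <;> rw [h] <;> norm_num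
  have hσa : |σ| = 1 := by rcases hσ with h | h <;> rw [h] <;> norm_num
  obtain ⟨y1, hy1⟩ : ∃ y1, y1 = |(P1.1 : ℝ)| := ⟨_, rfl⟩
  obtain ⟨y2, hy2⟩ : ∃ y2, y2 = |(P2.1 : ℝ)| := ⟨_, rfl⟩
  obtain ⟨y3, hy3⟩ : ∃ y3, y3 = |(P3.1 : ℝ)| := ⟨_, rfl⟩
  rw [← hy1] at a1 h12 s1
  rw [← hy2] at a2 h12 h23 s2
  rw [← hy3] at a3 h23 s3
  have hX1 : 1 ≤ K ^ (E1 d) := one_le_pow₀ hK1
  have hy10 : 0 < y1 := by linarith
  have hy20 : 0 < y2 := by linarith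
  have hy30 : 0 < y3 := by linarith
  have q1 : (P1.1 : ℝ) = σ * y1 := by rw [s1, ← mul_assoc, hσ2, one_mul]
  have q2 : (P2.1 : ℝ) = σ * y2 := by rw [s2, ← mul_assoc, hσ2, one_mul]
  have q3 : (P3.1 : ℝ) = σ * y3 := by rw [s3, ← mul_assoc, hσ2, one_mul]
  have hσne : σ ≠ 0 := by rintro rfl; norm_num at hσ2
  have hσinv : σ⁻¹ = σ := by
    field_simp
    linarith [hσ2, sq σ]
  have inv_eq : ∀ y : ℝ, (σ * y)⁻¹ = σ * (1 / y) := by
    intro y; rw [mul_inv, hσinv, one_div]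
  have conv : ∀ (y ε : ℝ), 0 < y → |ε - A * ((σ * y)⁻¹) ^ (n + 1) - B * ((σ * y)⁻¹) ^ (n + 1 + 1)| ≤
      K ^ (400 * d ^ 3) * |(σ * y)⁻¹| ^ (n + 1 + 2) →
      |ε - (A * σ ^ (n + 1)) * (1 / y) ^ (n + 1) - (B * σ ^ (n + 2)) * (1 / y) ^ (n + 2)| ≤
      K ^ (400 * d ^ 3) * (1 / y) ^ (n + 3) := by
    intro y ε hy h
    rw [inv_eq, abs_mul, hσa, one_mul, abs_of_pos (by positivity : 0 < 1 / y)] at h
    have : ε - (A * σ ^ (n + 1)) * (1 / y) ^ (n + 1) - (B * σ ^ (n + 2)) * (1 / y) ^ (n + 2) =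
        ε - A * (σ * (1 / y)) ^ (n + 1) - B * (σ * (1 / y)) ^ (n + 1 + 1) := by ring
    rw [this]
    exact h
  rw [q1] at f1
  rw [q2] at f2
  rw [q3] at f3
  have c1 := conv _ _ hy10 f1
  have c2 := conv _ _ hy20 f2
  have c3 := conv _ _ hy30 f3
  have d12 : K ^ (401 * d ^ 3) ≤ y2 - y1 := by
    refine g12.trans (le_of_eq ?_)
    rw [q1, q2, ← mul_sub, abs_mul, hσa, one_mul, abs_of_pos (by linarith)]
  have d23 : K ^ (401 * d ^ 3) ≤ y3 - y2 := by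
    refine g23.trans (le_of_eq ?_)
    rw [q2, q3, ← mul_sub, abs_mul, hσa, one_mul, abs_of_pos (by linarith)]
  have hn2 : ((n : ℝ) + 2) ≤ K ^ d := by
    have hdK : (d : ℝ) ≤ K ^ d := by rw [hK]; exact d_le_pow (by linarith)
    have : ((n + 2 : ℕ) : ℝ) ≤ d := by exact_mod_cast (by omega : n + 2 ≤ d)
    push_cast at this
    linarith
  have hfin := three_flat (y1 := y1) (y2 := y2) (y3 := y3) (A := A * σ ^ (n + 1))
    (B := B * σ ^ (n + 2)) (Q := K ^ (400 * d ^ 3)) (s := K ^ (401 * d ^ 3)) (n := n)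
    hy10 h12 h23 (one_le_pow₀ hK1)
    (by rw [abs_mul, abs_pow, hσa, one_pow, mul_one]; exact hA)
    (by rw [abs_mul, abs_pow, hσa, one_pow, mul_one]; exact hB)
    (by
      calc 6 * K ^ (400 * d ^ 3) ≤ K ^ 2 * K ^ (400 * d ^ 3) := by
            apply mul_le_mul_of_nonneg_right _ (by positivity)
            nlinarith
        _ = K ^ (2 + 400 * d ^ 3) := by rw [← pow_add]
        _ ≤ _ := by
            apply pow_le_pow_right₀ hK1
            have : 4 ^ 3 ≤ d ^ 3 := Nat.pow_le_pow_left hd 3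
            omega)
    (by
      refine le_trans ?_ a1
      calc 8 * (K ^ (400 * d ^ 3)) ^ 2 * ((n : ℝ) + 2) ^ 2 ≤
            K ^ 2 * (K ^ (400 * d ^ 3)) ^ 2 * (K ^ d) ^ 2 := by
            apply mul_le_mul _ (pow_le_pow_left₀ (by positivity) hn2 2) (by positivity)
              (by positivity)
            apply mul_le_mul_of_nonneg_right _ (by positivity)
            nlinarith
        _ = K ^ (2 + 400 * d ^ 3 * 2 + d * 2) := by rw [← pow_mul, ← pow_mul, ← pow_add, ← pow_add]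
        _ ≤ _ := by
            apply pow_le_pow_right₀ hK1
            refine le_trans ?_ (E1_ge d)
            have : d ≤ d ^ 3 := Nat.le_self_pow (by norm_num) d
            omega)
    (by
      refine le_trans ?_ a1
      apply pow_le_pow_right₀ hK1
      refine le_trans ?_ (E1_ge d)
      omega)
    d12 d23 c1 c2 c3
  apply hfin
  have h0R : ((P2.1 : ℝ) - P1.1) * (P3.2 - P1.2) - (P3.1 - P1.1) * (P2.2 - P1.2) = 0 := by
    exact_mod_cast h0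
  rw [q1, q2, q3] at h0R
  have h1R : σ * ((y2 - y1) * ((P3.2 : ℝ) - P1.2) - (y3 - y1) * (P2.2 - P1.2)) = 0 := by
    linear_combination h0R
  have h2R := (mul_eq_zero.1 h1R).resolve_left hσne
  linear_combination h2R

theorem line_two (hd : 4 ≤ d) (hm : G.Monic) (hdeg : G.natDegree = d)
    (hT : TD d G) (hH : 1 ≤ H) (hG : pn (pn zn) G ≤ H)
    (hirr : Irreducible ((lead d G).map (Int.castRingHom ℚ)))
    (hη : evf η (lead d G) = 0) {e : ℕ}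
    (hk : e + 2 ≤ (Ln G η (bet d G η)).natDegree) (T : Finset (ℤ × ℤ)) (hcol : Col T)
    (hP : ∀ P ∈ T, (2 + 2 * H) ^ (E1 d) ≤ |(P.1 : ℝ)| ∧ |(P.2 : ℝ) / P.1 - η| ≤ cR d (2 * H) ∧
      ∃ R : ℤ[X][X], TD e R ∧ pn (pn zn) R ≤ H ∧ ev P.1 P.2 (G + R) = 0) : T.card ≤ 4 := by
  obtain ⟨k, hk'⟩ : ∃ k, (Ln G η (bet d G η)).natDegree = k + 2 :=
    ⟨(Ln G η (bet d G η)).natDegree - 2, by omega⟩
  have hDpos := der_pos hd hm hdeg hH hG hirr hη
  have hdk := natDegree_Ln_bet (by omega) hT hη (abs_pos.1 hDpos)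
  obtain ⟨n, hn⟩ : ∃ n, k + n + 4 = d := ⟨d - 4 - k, by omega⟩
  have hek : e ≤ k := by omega
  -- each sign
  have main : ∀ σ : ℝ, (σ = 1 ∨ σ = -1) → ∀ S ⊆ T, (∀ P ∈ S, |(P.1 : ℝ)| = σ * P.1) →
      S.card ≤ 2 := by
    intro σ hσ S hS hs
    by_contra hcon
    push Not at hcon
    rw [Finset.two_lt_card] at hcon
    obtain ⟨P, hPS, Q, hQS, R, hRS, hPQ, hPR, hQR⟩ := hcon
    have key : ∀ A ∈ S, ∀ B ∈ S, ∀ C ∈ S, |(A.1 : ℝ)| < |(B.1 : ℝ)| → |(B.1 : ℝ)| < |(C.1 : ℝ)| →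
        False := by
      intro A hA B hB C hC h1 h2
      exact no_three hd hm hdeg hT hH hG hirr hη rfl hk' hek hn hσ
        (hcol A (hS hA) B (hS hB) C (hS hC)) (hs A hA) (hs B hB) (hs C hC) h1 h2
        (hP A (hS hA)) (hP B (hS hB)) (hP C (hS hC))
    have hne : ∀ A ∈ S, ∀ B ∈ S, A ≠ B → |(A.1 : ℝ)| ≠ |(B.1 : ℝ)| := by
      intro A hA B hB hAB h
      obtain ⟨a1, b1, R1, r1, t1, u1⟩ := hP A (hS hA)
      obtain ⟨a2, b2, R2, r2, t2, u2⟩ := hP B (hS hB)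
      have e1 := eps_le hd hm hdeg hT hH hG hirr hη rfl a1 b1 (TD_mono r1 (by omega)) t1 u1
      have e2 := eps_le hd hm hdeg hT hH hG hirr hη rfl a2 b2 (TD_mono r2 (by omega)) t2 u2
      have g := spacing hd hm hdeg hH hG hirr hη rfl hAB a1 a2 e1 e2
      rw [hs A hA, hs B hB] at h
      have hσne : σ ≠ 0 := by rcases hσ with h | h <;> rw [h] <;> norm_num
      have h3 := mul_left_cancel₀ hσne h
      rw [h3, sub_self, abs_zero] at g
      have : 0 < (2 + 2 * H) ^ (401 * d ^ 3) := by positivity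
      linarith
    rcases lt_trichotomy |(P.1 : ℝ)| |(Q.1 : ℝ)| with h | h | h
    · rcases lt_trichotomy |(Q.1 : ℝ)| |(R.1 : ℝ)| with h' | h' | h'
      · exact key P hPS Q hQS R hRS h h'
      · exact hne Q hQS R hRS hQR h'
      · rcases lt_trichotomy |(P.1 : ℝ)| |(R.1 : ℝ)| with h'' | h'' | h''
        · exact key P hPS R hRS Q hQS h'' h'
        · exact hne P hPS R hRS hPR h''
        · exact key R hRS P hPS Q hQS h'' h
    · exact hne P hPS Q hQS hPQ h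
    · rcases lt_trichotomy |(P.1 : ℝ)| |(R.1 : ℝ)| with h' | h' | h'
      · exact key Q hQS P hPS R hRS h h'
      · exact hne P hPS R hRS hPR h'
      · rcases lt_trichotomy |(Q.1 : ℝ)| |(R.1 : ℝ)| with h'' | h'' | h''
        · exact key Q hQS R hRS P hPS h'' h'
        · exact hne Q hQS R hRS hQR h''
        · exact key R hRS Q hQS P hPS h'' h
  have hsplit := Finset.card_filter_add_card_filter_not (s := T) (fun P : ℤ × ℤ => 0 ≤ (P.1 : ℝ))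
  have m1 := main 1 (Or.inl rfl) (T.filter fun P : ℤ × ℤ => 0 ≤ (P.1 : ℝ))
    (Finset.filter_subset _ _) (by
      intro P hP
      rw [Finset.mem_filter] at hP
      rw [abs_of_nonneg hP.2, one_mul])
  have m2 := main (-1) (Or.inr rfl) (T.filter fun P : ℤ × ℤ => ¬ 0 ≤ (P.1 : ℝ))
    (Finset.filter_subset _ _) (by
      intro P hP
      rw [Finset.mem_filter] at hP
      rw [abs_of_neg (not_le.1 hP.2)]
      ring)
  omega

end

end Pool.Agent.H91ES
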